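import Mathlib
import Pool.Agent.K3h35.MP.D

/-! Two frequencies: the bilinear kernel summed over both variables. -/

set_option autoImplicit false

namespace Pool.Agent.K3h35.LB

open Finset
open Pool.Agent.H807R2.Dav

/-- numbers in a dyadic interval which are congruent to each other -/
lemma class_card {d L : ℕ} (hd : 1 ≤ d) (S : Finset ℕ) (hS : S ⊆ Ioc L (2 * L))
    (hc : ∀ x ∈ S, ∀ y ∈ S, x ≤ y → d ∣ y - x) : (S.card : ℝ) ≤ (L : ℝ) / d + 1 := by
  rcases S.eq_empty_or_nonempty with h | h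
  · rw [h, card_empty]; push_cast; positivity
  set m := S.min' h with hm
  have hmS : m ∈ S := S.min'_mem h
  have h1 : S.card ≤ (range (L / d + 1)).card := by
    apply card_le_card_of_injOn (fun x => (x - m) / d)
    · intro x hx
      rw [mem_coe] at hx
      rw [mem_coe, mem_range]
      have h2 := mem_Ioc.1 (hS hx)
      have h3 := mem_Ioc.1 (hS hmS)
      have : (x - m) / d ≤ L / d := Nat.div_le_div_right (by omega)
      simp only
      omega
    · intro x hx y hy hxy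
      rw [mem_coe] at hx hy
      simp only at hxy
      have hx1 := S.min'_le x hx
      have hy1 := S.min'_le y hy
      rw [← hm] at hx1 hy1
      have h4 := Nat.div_mul_cancel (hc m hmS x hx hx1)
      have h5 := Nat.div_mul_cancel (hc m hmS y hy hy1)
      rw [hxy] at h4
      omega
  rw [card_range] at h1
  have h2 : ((L / d : ℕ) : ℝ) ≤ (L : ℝ) / d := Nat.cast_div_le
  calc (S.card : ℝ) ≤ ((L / d + 1 : ℕ) : ℝ) := by exact_mod_cast h1
    _ = ((L / d : ℕ) : ℝ) + 1 := by push_cast; ring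
    _ ≤ _ := by linarith

/-- the number of representations by a linear form -/
lemma rep_card {a b : ℤ} (ha : a ≠ 0) (hb : b ≠ 0) (hab : IsCoprime a b) (L : ℕ) (t : ℤ) :
    ((((Ioc L (2 * L)) ×ˢ (Ioc L (2 * L))).filter (fun p => a * (p.1 : ℤ) - b * (p.2 : ℤ) = t)).card : ℝ) ≤
      (L : ℝ) / (max a.natAbs b.natAbs : ℕ) + 1 := by
  classical
  set W := ((Ioc L (2 * L)) ×ˢ (Ioc L (2 * L))).filter (fun p => a * (p.1 : ℤ) - b * (p.2 : ℤ) = t) with hW
  rcases le_total a.natAbs b.natAbs with h | h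
  · rw [max_eq_right h]
    have h1 : W.card ≤ (W.image (fun p => p.1)).card := by
      apply le_of_eq
      rw [card_image_of_injOn]
      intro p hp p' hp' hpp
      rw [mem_coe, hW, mem_filter] at hp hp'
      simp only at hpp
      have e : b * (p.2 : ℤ) = b * (p'.2 : ℤ) := by
        have := hp.2; have := hp'.2; rw [hpp] at *; linarith
      have e2 : (p.2 : ℤ) = p'.2 := mul_left_cancel₀ hb e
      exact Prod.ext hpp (by exact_mod_cast e2)
    have h2 := class_card (d := b.natAbs) (L := L) (Int.natAbs_pos.2 hb) (W.image (fun p => p.1)) (by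
      intro x hx
      rw [mem_image] at hx
      obtain ⟨p, hp, rfl⟩ := hx
      rw [hW, mem_filter, mem_product] at hp
      exact hp.1.1) (by
      intro x hx y hy hxy
      rw [mem_image] at hx hy
      obtain ⟨p, hp, rfl⟩ := hx
      obtain ⟨p', hp', rfl⟩ := hy
      rw [hW, mem_filter] at hp hp'
      have e : a * ((p'.1 : ℤ) - p.1) = b * ((p'.2 : ℤ) - p.2) := by linarith [hp.2, hp'.2]
      have e2 : b ∣ ((p'.1 : ℤ) - p.1) := by
        apply hab.symm.dvd_of_dvd_mul_left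
        rw [e]; exact Dvd.intro _ rfl
      have e3 := Int.natAbs_dvd_natAbs.2 e2
      have e4 : ((p'.1 : ℤ) - p.1).natAbs = p'.1 - p.1 := by omega
      rw [e4] at e3
      exact e3)
    have h3 : (W.card : ℝ) ≤ ((W.image (fun p => p.1)).card : ℝ) := by exact_mod_cast h1
    exact h3.trans h2
  · rw [max_eq_left h]
    have h1 : W.card ≤ (W.image (fun p => p.2)).card := by
      apply le_of_eq
      rw [card_image_of_injOn]
      intro p hp p' hp' hpp
      rw [mem_coe, hW, mem_filter] at hp hp'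
      simp only at hpp
      have e : a * (p.1 : ℤ) = a * (p'.1 : ℤ) := by
        have := hp.2; have := hp'.2; rw [hpp] at *; linarith
      have e2 : (p.1 : ℤ) = p'.1 := mul_left_cancel₀ ha e
      exact Prod.ext (by exact_mod_cast e2) hpp
    have h2 := class_card (d := a.natAbs) (L := L) (Int.natAbs_pos.2 ha) (W.image (fun p => p.2)) (by
      intro x hx
      rw [mem_image] at hx
      obtain ⟨p, hp, rfl⟩ := hx
      rw [hW, mem_filter, mem_product] at hp
      exact hp.1.2) (by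
      intro x hx y hy hxy
      rw [mem_image] at hx hy
      obtain ⟨p, hp, rfl⟩ := hx
      obtain ⟨p', hp', rfl⟩ := hy
      rw [hW, mem_filter] at hp hp'
      have e : b * ((p'.2 : ℤ) - p.2) = a * ((p'.1 : ℤ) - p.1) := by linarith [hp.2, hp'.2]
      have e2 : a ∣ ((p'.2 : ℤ) - p.2) := by
        apply hab.dvd_of_dvd_mul_left
        rw [e]; exact Dvd.intro _ rfl
      have e3 := Int.natAbs_dvd_natAbs.2 e2
      have e4 : ((p'.2 : ℤ) - p.2).natAbs = p'.2 - p.2 := by omega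
      rw [e4] at e3
      exact e3)
    have h3 : (W.card : ℝ) ≤ ((W.image (fun p => p.2)).card : ℝ) := by exact_mod_cast h1
    exact h3.trans h2

/-- the kernel over multiples of a number -/
lemma KK_mult {q g : ℕ} (hq : 1 ≤ q) (hg : 1 ≤ g) (M W : ℕ) :
    ∑ t ∈ Icc (-(W : ℤ)) W, KK M (((g * t : ℤ) : ℝ) / q) ≤
      (((2 * W + 1 : ℕ) : ℝ) / (q / g.gcd q : ℕ) + 1) *
        (39 * M + 3 * (q / g.gcd q : ℕ) * (1 + Real.log (q / g.gcd q : ℕ))) := by
  classical
  set d := g.gcd q with hd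
  have hd0 : 0 < d := Nat.gcd_pos_of_pos_left _ (by omega)
  obtain ⟨q1, hq1⟩ : d ∣ q := Nat.gcd_dvd_right _ _
  obtain ⟨a, ha⟩ : d ∣ g := Nat.gcd_dvd_left _ _
  have hq1' : q / d = q1 := by rw [hq1]; exact Nat.mul_div_cancel_left _ hd0
  rw [hq1']
  have hq10 : 1 ≤ q1 := by
    rcases Nat.eq_zero_or_pos q1 with h0 | h0
    · rw [h0] at hq1; omega
    · exact h0
  have hd0r : (0 : ℝ) < d := by exact_mod_cast hd0
  have hq1r : (0 : ℝ) < q1 := by exact_mod_cast hq10
  have hcop : IsCoprime (a : ℤ) (q1 : ℤ) := by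
    rw [Nat.isCoprime_iff_coprime]
    have h1 : d = d * (a.gcd q1) := by
      conv_lhs => rw [hd, ha, hq1]
      rw [Nat.gcd_mul_left]
    have h4 : d * 1 = d * (a.gcd q1) := by rw [mul_one]; exact h1
    exact (Nat.eq_of_mul_eq_mul_left hd0 h4).symm
  have hα : (g : ℝ) / q = ((a : ℤ) : ℝ) / (q1 : ℕ) := by
    rw [ha, hq1]; push_cast; field_simp
  have e1 : Icc (-(W : ℤ)) W = (range (2 * W + 1)).image (fun i : ℕ => (i : ℤ) - W) := by
    ext k
    rw [mem_Icc, mem_image]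
    constructor
    · intro hk
      exact ⟨(k + W).toNat, mem_range.2 (by omega), by omega⟩
    · rintro ⟨i, hi, rfl⟩
      rw [mem_range] at hi
      omega
  rw [e1, sum_image (by intro x _ y _ h; simpa using h)]
  have e2 : ∀ i ∈ range (2 * W + 1), KK M (((g * ((i : ℤ) - (W : ℤ)) : ℤ) : ℝ) / q) =
      KK M (-(W : ℝ) * ((g : ℝ) / q) + i * ((g : ℝ) / q)) := by
    intro i _
    congr 1
    push_cast
    ring
  rw [sum_congr rfl e2]
  exact vino hq10 hcop (α := (g : ℝ) / q) (by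
    rw [hα, sub_self, abs_zero]; positivity)
    (M := (M : ℝ)) (Nat.cast_nonneg _) _ (2 * W + 1)

/-- the double sum -/
lemma pair_sum {q : ℕ} (hq : 1 ≤ q) {h h' : ℤ} (hh : h ≠ 0) (hh' : h' ≠ 0) (M L : ℕ) :
    ∑ l ∈ Ioc L (2 * L), ∑ l' ∈ Ioc L (2 * L), KK M (((h * (l : ℤ) - h' * (l' : ℤ) : ℤ) : ℝ) / q) ≤
      312 * ((L : ℝ) ^ 2 * M / q) * ((h.natAbs.gcd h'.natAbs : ℕ) : ℝ) +
      (78 * L * M + 6 * L * q * (1 + Real.log q)) * (((h.natAbs.gcd h'.natAbs : ℕ) : ℝ) / (max h.natAbs h'.natAbs : ℕ)) +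
      (312 * L * M / q + 24 * L * (1 + Real.log q)) * (max h.natAbs h'.natAbs : ℕ) +
      (78 * M + 24 * (L : ℝ) ^ 2 * (1 + Real.log q) + 6 * q * (1 + Real.log q)) := by
  classical
  set g := h.natAbs.gcd h'.natAbs with hg
  have hg0 : 0 < g := Nat.gcd_pos_of_pos_left _ (Int.natAbs_pos.2 hh)
  obtain ⟨a, ha⟩ : (g : ℤ) ∣ h := Int.natCast_dvd.2 (Nat.gcd_dvd_left _ _)
  obtain ⟨b, hb⟩ : (g : ℤ) ∣ h' := Int.natCast_dvd.2 (Nat.gcd_dvd_right _ _)
  have ha0 : a ≠ 0 := by rintro rfl; rw [mul_zero] at ha; exact hh ha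
  have hb0 : b ≠ 0 := by rintro rfl; rw [mul_zero] at hb; exact hh' hb
  have hna : h.natAbs = g * a.natAbs := by rw [ha, Int.natAbs_mul, Int.natAbs_natCast]
  have hnb : h'.natAbs = g * b.natAbs := by rw [hb, Int.natAbs_mul, Int.natAbs_natCast]
  have hab : IsCoprime a b := by
    rw [Int.isCoprime_iff_gcd_eq_one, Int.gcd]
    have h2 : g = g * (a.natAbs.gcd b.natAbs) := by
      conv_lhs => rw [hg, hna, hnb]
      rw [Nat.gcd_mul_left]
    have h4 : g * 1 = g * (a.natAbs.gcd b.natAbs) := by rw [mul_one]; exact h2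
    exact (Nat.eq_of_mul_eq_mul_left hg0 h4).symm
  set u := max a.natAbs b.natAbs with hu
  have hu0 : 0 < u := lt_of_lt_of_le (Int.natAbs_pos.2 ha0) (le_max_left _ _)
  have hZ : max h.natAbs h'.natAbs = g * u := by rw [hna, hnb, hu, Nat.mul_max_mul_left]
  rw [hZ]
  have hq0 : (0 : ℝ) < q := by exact_mod_cast hq
  have hlg : 0 ≤ Real.log q := Real.log_nonneg (by exact_mod_cast hq)
  -- grouping by the value of the linear form
  have step1 : ∑ l ∈ Ioc L (2 * L), ∑ l' ∈ Ioc L (2 * L), KK M (((h * (l : ℤ) - h' * (l' : ℤ) : ℤ) : ℝ) / q) ≤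
      ((L : ℝ) / u + 1) * ∑ t ∈ Icc (-((4 * u * L : ℕ) : ℤ)) ((4 * u * L : ℕ) : ℤ), KK M (((g * t : ℤ) : ℝ) / q) := by
    rw [← sum_product' (Ioc L (2 * L)) (Ioc L (2 * L)) (fun l l' => KK M (((h * (l : ℤ) - h' * (l' : ℤ) : ℤ) : ℝ) / q))]
    have hmaps : ∀ p ∈ (Ioc L (2 * L)) ×ˢ (Ioc L (2 * L)), a * (p.1 : ℤ) - b * (p.2 : ℤ) ∈
        Icc (-((4 * u * L : ℕ) : ℤ)) ((4 * u * L : ℕ) : ℤ) := by
      intro p hp
      rw [mem_product, mem_Ioc, mem_Ioc] at hp
      have h1 : (a * (p.1 : ℤ)).natAbs ≤ u * (2 * L) := by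
        rw [Int.natAbs_mul, Int.natAbs_natCast]
        exact Nat.mul_le_mul (le_max_left _ _) hp.1.2
      have h2 : (b * (p.2 : ℤ)).natAbs ≤ u * (2 * L) := by
        rw [Int.natAbs_mul, Int.natAbs_natCast]
        exact Nat.mul_le_mul (le_max_right _ _) hp.2.2
      have h3 : 4 * u * L = u * (2 * L) + u * (2 * L) := by ring
      rw [mem_Icc, h3]
      generalize a * (p.1 : ℤ) = x at *
      generalize b * (p.2 : ℤ) = y at *
      generalize u * (2 * L) = z at *
      omega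
    rw [← sum_fiberwise_of_maps_to hmaps, mul_sum]
    apply sum_le_sum
    intro t _
    have h2 : ∀ p ∈ ((Ioc L (2 * L)) ×ˢ (Ioc L (2 * L))).filter (fun p => a * (p.1 : ℤ) - b * (p.2 : ℤ) = t),
        KK M (((h * (p.1 : ℤ) - h' * (p.2 : ℤ) : ℤ) : ℝ) / q) = KK M (((g * t : ℤ) : ℝ) / q) := by
      intro p hp
      rw [mem_filter] at hp
      congr 3
      rw [← hp.2, ha, hb]; ring
    rw [sum_congr rfl h2, sum_const, nsmul_eq_mul]
    exact mul_le_mul_of_nonneg_right (rep_card ha0 hb0 hab L t) (KK_nonneg (Nat.cast_nonneg _) _)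
  have step2 := KK_mult hq (show 1 ≤ g from hg0) M (4 * u * L)
  set d := g.gcd q with hd
  have hd0 : 0 < d := Nat.gcd_pos_of_pos_left _ hg0
  have hdg : d ≤ g := Nat.gcd_le_left _ hg0
  obtain ⟨q1, hq1⟩ : d ∣ q := Nat.gcd_dvd_right _ _
  have hq1' : q / d = q1 := by rw [hq1]; exact Nat.mul_div_cancel_left _ hd0
  rw [hq1'] at step2
  have hq10 : 1 ≤ q1 := by
    rcases Nat.eq_zero_or_pos q1 with h0 | h0
    · rw [h0] at hq1; omega
    · exact h0
  have hq1r : (1 : ℝ) ≤ q1 := by exact_mod_cast hq10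
  have hd1r : (1 : ℝ) ≤ d := by exact_mod_cast hd0
  have hdgr : (d : ℝ) ≤ g := by exact_mod_cast hdg
  have hg1r : (1 : ℝ) ≤ g := by exact_mod_cast hg0
  have hu1r : (1 : ℝ) ≤ u := by exact_mod_cast hu0
  have hqd : (q : ℝ) = d * q1 := by exact_mod_cast hq1
  have hL0 : (0 : ℝ) ≤ L := Nat.cast_nonneg _
  have hM0 : (0 : ℝ) ≤ M := Nat.cast_nonneg _
  set Λ := 1 + Real.log q with hΛ
  have hΛ1 : 1 ≤ Λ := by linarith
  have hq1q : (q1 : ℝ) ≤ q := by rw [hqd]; nlinarith
  have hlog : 1 + Real.log q1 ≤ Λ := by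
    have := Real.log_le_log (by linarith : (0 : ℝ) < q1) hq1q
    linarith
  refine step1.trans ((mul_le_mul_of_nonneg_left step2 (by positivity)).trans ?_)
  have hi : 1 / (q1 : ℝ) = d / q := by
    rw [hqd, div_eq_div_iff (by positivity) (by positivity)]; ring
  have hi1 : 1 / (q1 : ℝ) ≤ 1 := by rw [div_le_one (by linarith)]; exact hq1r
  have f1 : (((2 * (4 * u * L) + 1 : ℕ) : ℝ) / q1 + 1) ≤ 8 * u * L * (d / q) + 2 := by
    push_cast
    rw [add_div, ← hi]
    have : (2 * (4 * (u : ℝ) * L)) / q1 = 8 * u * L * (1 / q1) := by ring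
    rw [this]
    linarith
  have f2 : (39 * (M : ℝ) + 3 * q1 * (1 + Real.log q1)) ≤ 39 * M + 3 * q1 * Λ := by gcongr
  have hl1 : 0 ≤ 1 + Real.log q1 := by
    have := Real.log_nonneg hq1r; linarith
  calc ((L : ℝ) / u + 1) * ((((2 * (4 * u * L) + 1 : ℕ) : ℝ) / q1 + 1) * (39 * M + 3 * q1 * (1 + Real.log q1)))
      ≤ ((L : ℝ) / u + 1) * ((8 * u * L * (d / q) + 2) * (39 * M + 3 * q1 * Λ)) := by gcongr
    _ = 312 * ((L : ℝ) ^ 2 * M / q) * d + (78 * L * M + 6 * L * q1 * Λ) * (1 / u) + (312 * L * M / q) * (u * d) +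
        24 * L ^ 2 * (d * q1 / q) * Λ + 24 * L * u * (d * q1 / q) * Λ + 78 * M + 6 * q1 * Λ := by
        field_simp
        ring
    _ ≤ _ := by
        have e1 : (d : ℝ) * q1 / q = 1 := by rw [← hqd]; exact div_self hq0.ne'
        have e2 : (1 : ℝ) / u = (g : ℝ) / ((g * u : ℕ) : ℝ) := by
          push_cast
          rw [div_eq_div_iff (by positivity) (by positivity)]; ring
        rw [e1, ← e2]
        push_cast
        have g1 : 312 * ((L : ℝ) ^ 2 * M / q) * d ≤ 312 * ((L : ℝ) ^ 2 * M / q) * g := by gcongr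
        have g2 : (78 * (L : ℝ) * M + 6 * L * q1 * Λ) * (1 / u) ≤ (78 * L * M + 6 * L * q * Λ) * (1 / u) := by gcongr
        have g3 : (312 * (L : ℝ) * M / q) * (u * d) ≤ (312 * (L : ℝ) * M / q) * (g * u) := by
          rw [mul_comm (u : ℝ) d]; gcongr
        have g4 : 24 * (L : ℝ) * u * 1 * Λ ≤ 24 * L * Λ * (g * u) := by
          have : (u : ℝ) ≤ g * u := by nlinarith
          calc 24 * (L : ℝ) * u * 1 * Λ = 24 * L * Λ * u := by ring
            _ ≤ _ := by gcongr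
        have g5 : 6 * (q1 : ℝ) * Λ ≤ 6 * q * Λ := by gcongr
        nlinarith

end Pool.Agent.K3h35.LB
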