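import Mathlib
import Pool.Agent.K3h35.MP.B
import Pool.Agent.K3h35.LB.A

/-! Bilinear sums with bounded coefficients over all frequencies. -/

set_option autoImplicit false

namespace Pool.Agent.K3h35.LB

open Finset
open Pool.Agent.H807R2.Dav
open Pool.Agent.H373R2.T7 (ee_conj' cs_norm)
open Pool.Agent.K3h35.MP (EF)

/-- Cauchy's inequality for a bilinear sum -/
theorem bil_core {q : ℕ} (F : Finset ℤ) (c : ℤ → ℂ) (N N' M L : ℕ) (a b : ℕ → ℂ) :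
    ‖∑ m ∈ Ioc M (2 * M), ∑ l ∈ Ioc L (2 * L), a m * b l *
      (if N < m * l ∧ m * l ≤ N' then EF F c q (m * l) else 0)‖ ^ 2 ≤
      (∑ m ∈ Ioc M (2 * M), ‖a m‖ ^ 2) * ∑ p ∈ F ×ˢ Ioc L (2 * L), ∑ p' ∈ F ×ˢ Ioc L (2 * L),
        (‖c p.1 * b p.2‖ * ‖c p'.1 * b p'.2‖) *
          KK M (((p.1 * (p.2 : ℤ) : ℤ) : ℝ) / q - ((p'.1 * (p'.2 : ℤ) : ℤ) : ℝ) / q) := by
  classical
  set I : Finset (ℤ × ℕ) := F ×ˢ Ioc L (2 * L) with hI
  set B : ℤ × ℕ → ℂ := fun p => c p.1 * b p.2 with hB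
  set xx : ℤ × ℕ → ℝ := fun p => ((p.1 * (p.2 : ℤ) : ℤ) : ℝ) / q with hxx
  set S : ℕ → ℂ := fun m => ∑ p ∈ I, B p * (if N < m * p.2 ∧ m * p.2 ≤ N' then ee ((m : ℝ) * xx p) else 0) with hS
  have e1 : ∑ m ∈ Ioc M (2 * M), ∑ l ∈ Ioc L (2 * L), a m * b l *
      (if N < m * l ∧ m * l ≤ N' then EF F c q (m * l) else 0) = ∑ m ∈ Ioc M (2 * M), a m * S m := by
    apply sum_congr rfl; intro m _
    rw [hS]
    simp only
    rw [hI, sum_product_right, mul_sum]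
    apply sum_congr rfl; intro l _
    rw [mul_assoc]
    congr 1
    simp only [hB, hxx]
    by_cases hc : N < m * l ∧ m * l ≤ N'
    · rw [if_pos hc]
      simp only [if_pos hc]
      unfold EF
      rw [mul_sum]
      apply sum_congr rfl; intro h _
      have : (((m * l : ℕ) : ℝ)) * ((h : ℝ) / q) = (m : ℝ) * (((h * (l : ℤ) : ℤ) : ℝ) / q) := by
        push_cast; ring
      rw [this]; ring
    · rw [if_neg hc]
      simp only [if_neg hc]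
      simp
  rw [e1]
  refine (cs_norm _ _ _).trans (mul_le_mul_of_nonneg_left ?_ (by positivity))
  have h1 : ((∑ m ∈ Ioc M (2 * M), ‖S m‖ ^ 2 : ℝ) : ℂ) =
      ∑ p ∈ I, ∑ p' ∈ I, (B p * (starRingEnd ℂ) (B p')) *
        ∑ m ∈ (Ioc M (2 * M)).filter (fun m => (N < m * p.2 ∧ m * p.2 ≤ N') ∧ (N < m * p'.2 ∧ m * p'.2 ≤ N')),
          ee ((m : ℝ) * (xx p - xx p')) := by
    push_cast
    have h2 : ∀ m ∈ Ioc M (2 * M), ((‖S m‖ : ℂ)) ^ 2 = ∑ p ∈ I, ∑ p' ∈ I,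
        (B p * (starRingEnd ℂ) (B p')) * (if (N < m * p.2 ∧ m * p.2 ≤ N') ∧ (N < m * p'.2 ∧ m * p'.2 ≤ N') then
          ee ((m : ℝ) * (xx p - xx p')) else 0) := by
      intro m _
      rw [← Complex.mul_conj', hS]
      simp only
      rw [map_sum, sum_mul_sum]
      apply sum_congr rfl; intro p _
      apply sum_congr rfl; intro p' _
      rw [map_mul]
      by_cases g1 : N < m * p.2 ∧ m * p.2 ≤ N'
      · by_cases g2 : N < m * p'.2 ∧ m * p'.2 ≤ N'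
        · rw [if_pos g1, if_pos g2, if_pos ⟨g1, g2⟩, ee_conj']
          have : ee ((m : ℝ) * (xx p - xx p')) = ee ((m : ℝ) * xx p) * ee (-((m : ℝ) * xx p')) := by
            rw [← ee_add]; congr 1; ring
          rw [this]; ring
        · rw [if_neg g2, if_neg (show ¬ ((N < m * p.2 ∧ m * p.2 ≤ N') ∧ (N < m * p'.2 ∧ m * p'.2 ≤ N')) from fun h => g2 h.2)]; simp
      · rw [if_neg g1, if_neg (show ¬ ((N < m * p.2 ∧ m * p.2 ≤ N') ∧ (N < m * p'.2 ∧ m * p'.2 ≤ N')) from fun h => g1 h.1)]; simp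
    rw [sum_congr rfl h2, sum_comm]
    apply sum_congr rfl; intro p _
    rw [sum_comm]
    apply sum_congr rfl; intro p' _
    rw [← mul_sum, sum_filter]
  have hK : ∀ p ∈ I, ∀ p' ∈ I,
      ‖∑ m ∈ (Ioc M (2 * M)).filter (fun m => (N < m * p.2 ∧ m * p.2 ≤ N') ∧ (N < m * p'.2 ∧ m * p'.2 ≤ N')),
          ee ((m : ℝ) * (xx p - xx p'))‖ ≤ KK M (xx p - xx p') := by
    intro p hp p' hp'
    rw [hI, mem_product, mem_Ioc] at hp hp'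
    obtain ⟨_, hl⟩ := hp
    obtain ⟨_, hl'⟩ := hp'
    generalize xx p - xx p' = x
    generalize p.2 = l at *
    generalize p'.2 = l' at *
    have hl0 : 0 < l := by omega
    have hl0' : 0 < l' := by omega
    set lo := max M (max (N / l) (N / l')) with hlo
    set hi := min (2 * M) (min (N' / l) (N' / l')) with hhi
    have hset : (Ioc M (2 * M)).filter (fun m => (N < m * l ∧ m * l ≤ N') ∧ (N < m * l' ∧ m * l' ≤ N')) =
        Ico (lo + 1) (hi + 1) := by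
      ext m
      rw [mem_filter, mem_Ioc, mem_Ico]
      have g1 : N < m * l ↔ N / l < m := (Nat.div_lt_iff_lt_mul hl0).symm
      have g2 : m * l ≤ N' ↔ m ≤ N' / l := (Nat.le_div_iff_mul_le hl0).symm
      have g3 : N < m * l' ↔ N / l' < m := (Nat.div_lt_iff_lt_mul hl0').symm
      have g4 : m * l' ≤ N' ↔ m ≤ N' / l' := (Nat.le_div_iff_mul_le hl0').symm
      rw [g1, g2, g3, g4]
      omega
    rw [hset]
    rcases le_or_gt (lo + 1) (hi + 1) with h | h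
    · apply geo_bound _ _ h
      have g1 : M ≤ lo := le_max_left _ _
      have g2 : hi ≤ 2 * M := min_le_left _ _
      have g1r : (M : ℝ) ≤ lo := by exact_mod_cast g1
      have g2r : (hi : ℝ) ≤ 2 * M := by exact_mod_cast g2
      push_cast
      linarith
    · rw [Ico_eq_empty_of_le h.le, sum_empty, norm_zero]
      exact KK_nonneg (Nat.cast_nonneg _) _
  have h2 : ∑ m ∈ Ioc M (2 * M), ‖S m‖ ^ 2 ≤
      ∑ p ∈ I, ∑ p' ∈ I, (‖B p‖ * ‖B p'‖) * KK M (xx p - xx p') := by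
    have h3 : (∑ m ∈ Ioc M (2 * M), ‖S m‖ ^ 2) = ‖((∑ m ∈ Ioc M (2 * M), ‖S m‖ ^ 2 : ℝ) : ℂ)‖ := by
      rw [Complex.norm_real, Real.norm_of_nonneg (by positivity)]
    rw [h3, h1]
    refine (norm_sum_le _ _).trans (sum_le_sum fun p hp => ?_)
    refine (norm_sum_le _ _).trans (sum_le_sum fun p' hp' => ?_)
    rw [norm_mul, norm_mul, RCLike.norm_conj]
    exact mul_le_mul_of_nonneg_left (hK p hp p' hp') (by positivity)
  exact h2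

/-- from frequencies of both signs to natural numbers -/
lemma fold_nat {q : ℕ} {F : Finset ℤ} (hF : ∀ h ∈ F, h ≠ 0 ∧ h.natAbs ≤ q) (f : ℕ → ℝ) (hf : ∀ n, 0 ≤ f n) :
    ∑ h ∈ F, f h.natAbs ≤ 2 * ∑ n ∈ Icc 1 q, f n := by
  classical
  have h1 : F ⊆ ((Icc 1 q).image (fun n : ℕ => (n : ℤ))) ∪ ((Icc 1 q).image (fun n : ℕ => -(n : ℤ))) := by
    intro h hh
    obtain ⟨h2, h3⟩ := hF h hh
    rw [mem_union, mem_image, mem_image]
    rcases Int.natAbs_eq h with h' | h'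
    · left
      exact ⟨h.natAbs, mem_Icc.2 ⟨by omega, by omega⟩, h'.symm⟩
    · right
      exact ⟨h.natAbs, mem_Icc.2 ⟨by omega, by omega⟩, h'.symm⟩
  calc ∑ h ∈ F, f h.natAbs ≤ ∑ h ∈ ((Icc 1 q).image (fun n : ℕ => (n : ℤ))) ∪
        ((Icc 1 q).image (fun n : ℕ => -(n : ℤ))), f h.natAbs :=
        sum_le_sum_of_subset_of_nonneg h1 (fun _ _ _ => hf _)
    _ ≤ ∑ h ∈ ((Icc 1 q).image (fun n : ℕ => (n : ℤ))), f h.natAbs +
        ∑ h ∈ ((Icc 1 q).image (fun n : ℕ => -(n : ℤ))), f h.natAbs := by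
        rw [← sum_union_inter]
        have : 0 ≤ ∑ h ∈ ((Icc 1 q).image (fun n : ℕ => (n : ℤ))) ∩
          ((Icc 1 q).image (fun n : ℕ => -(n : ℤ))), f h.natAbs := sum_nonneg fun _ _ => hf _
        linarith
    _ = _ := by
        rw [sum_image (by intro x _ y _ h; simpa using h), sum_image (by intro x _ y _ h; simpa using h)]
        simp only [Int.natAbs_natCast, Int.natAbs_neg]
        ring

lemma harm (q : ℕ) : ∑ k ∈ Icc 1 q, (1 : ℝ) / k ≤ 1 + Real.log q := by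
  have h := harmonic_le_one_add_log q
  rw [harmonic_eq_sum_Icc] at h
  push_cast at h
  refine le_trans (le_of_eq ?_) h
  apply sum_congr rfl
  intro k _
  rw [one_div]

/-- greatest common divisors over all frequencies -/
lemma gcd_sum {q : ℕ} (hq : 1 ≤ q) {F : Finset ℤ} (hF : ∀ h ∈ F, h ≠ 0 ∧ h.natAbs ≤ q) {n : ℕ} (hn : n ≠ 0) :
    ∑ h ∈ F, ((n.gcd h.natAbs : ℕ) : ℝ) / (h.natAbs : ℕ) ≤ 2 * (n.divisors.card * (1 + Real.log q)) := by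
  classical
  refine (fold_nat hF (fun m => ((n.gcd m : ℕ) : ℝ) / m) (fun m => by positivity)).trans ?_
  apply mul_le_mul_of_nonneg_left _ (by norm_num)
  have h1 : ∀ m ∈ Icc 1 q, ((n.gcd m : ℕ) : ℝ) / m ≤ ∑ d ∈ n.divisors, if d ∣ m then ((d : ℕ) : ℝ) / m else 0 := by
    intro m _
    have hmem : n.gcd m ∈ n.divisors := Nat.mem_divisors.2 ⟨Nat.gcd_dvd_left _ _, hn⟩
    have h2 := single_le_sum (f := fun d : ℕ => if d ∣ m then ((d : ℕ) : ℝ) / m else 0)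
      (fun d _ => by split_ifs <;> positivity) hmem
    simp only [Nat.gcd_dvd_right, if_true] at h2
    exact h2
  refine (sum_le_sum h1).trans ?_
  rw [sum_comm]
  have h3 : ∀ d ∈ n.divisors, ∑ m ∈ Icc 1 q, (if d ∣ m then ((d : ℕ) : ℝ) / m else 0) ≤ 1 + Real.log q := by
    intro d hd
    have hd0 : 0 < d := Nat.pos_of_mem_divisors hd
    have hd0r : (0 : ℝ) < d := by exact_mod_cast hd0
    rw [← sum_filter]
    refine le_trans ?_ (harm q)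
    have e : ∑ m ∈ (Icc 1 q).filter (fun m => d ∣ m), ((d : ℕ) : ℝ) / m =
        ∑ k ∈ ((Icc 1 q).filter (fun m => d ∣ m)).image (fun m => m / d), (1 : ℝ) / k := by
      rw [sum_image]
      · apply sum_congr rfl
        intro m hm
        rw [mem_filter, mem_Icc] at hm
        obtain ⟨k, rfl⟩ := hm.2
        rw [Nat.mul_div_cancel_left _ hd0]
        have hk : (k : ℝ) ≠ 0 := by
          have : k ≠ 0 := by rintro rfl; omega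
          exact_mod_cast this
        push_cast
        field_simp
      · intro x hx y hy hxy
        rw [mem_coe, mem_filter] at hx hy
        simp only at hxy
        rw [← Nat.mul_div_cancel' hx.2, ← Nat.mul_div_cancel' hy.2, hxy]
    rw [e]
    apply sum_le_sum_of_subset_of_nonneg
    · intro k hk
      rw [mem_image] at hk
      obtain ⟨m, hm, rfl⟩ := hk
      rw [mem_filter, mem_Icc] at hm
      rw [mem_Icc]
      exact ⟨Nat.div_pos (Nat.le_of_dvd (by omega) hm.2) hd0, (Nat.div_le_self _ _).trans hm.1.2⟩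
    · intro _ _ _; positivity
  refine (sum_le_sum h3).trans ?_
  rw [sum_const, nsmul_eq_mul]

section
variable {q : ℕ} {F : Finset ℤ} {c : ℤ → ℂ} {A1 A3 V ρ T : ℝ}

lemma sym_bound (w : ℤ → ℤ → ℝ) (f : ℤ → ℝ) (k : ℤ → ℤ → ℝ)
    (hw : ∀ h ∈ F, ∀ h' ∈ F, w h h' ≤ (f h * k h h' + f h' * k h' h) / 2) :
    ∑ h ∈ F, ∑ h' ∈ F, w h h' ≤ ∑ h ∈ F, f h * ∑ h' ∈ F, k h h' := by
  calc ∑ h ∈ F, ∑ h' ∈ F, w h h' ≤ ∑ h ∈ F, ∑ h' ∈ F, (f h * k h h' + f h' * k h' h) / 2 :=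
        sum_le_sum fun h hh => sum_le_sum fun h' hh' => hw h hh h' hh'
    _ = (∑ h ∈ F, ∑ h' ∈ F, f h * k h h') / 2 + (∑ h ∈ F, ∑ h' ∈ F, f h' * k h' h) / 2 := by
        rw [sum_div, sum_div, ← sum_add_distrib]
        apply sum_congr rfl; intro h _
        rw [sum_div, sum_div, ← sum_add_distrib]
        apply sum_congr rfl; intro h' _
        ring
    _ = ∑ h ∈ F, ∑ h' ∈ F, f h * k h h' := by
        rw [sum_comm (s := F) (t := F) (f := fun h h' => f h' * k h' h)]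
        ring
    _ = _ := by
        apply sum_congr rfl; intro h _
        rw [mul_sum]

/-- first gcd sum -/
lemma T1_bound (hq : 1 ≤ q) (hF : ∀ h ∈ F, h ≠ 0 ∧ h.natAbs ≤ q) (hT : ∀ h ∈ F, (h.natAbs.divisors.card : ℝ) ≤ T)
    (hV : ∑ h ∈ F, (h.natAbs : ℝ) * ‖c h‖ ^ 2 ≤ V) (hT0 : 0 ≤ T) :
    ∑ h ∈ F, ∑ h' ∈ F, ‖c h‖ * ‖c h'‖ * ((h.natAbs.gcd h'.natAbs : ℕ) : ℝ) ≤ 2 * T * (1 + Real.log q) * V := by
  have hlg : 0 ≤ Real.log q := Real.log_nonneg (by exact_mod_cast hq)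
  refine (sym_bound _ (fun h => (h.natAbs : ℝ) * ‖c h‖ ^ 2)
    (fun h h' => ((h.natAbs.gcd h'.natAbs : ℕ) : ℝ) / (h'.natAbs : ℕ)) ?_).trans ?_
  · intro h hh h' hh'
    have h1 : (0 : ℝ) < h.natAbs := by exact_mod_cast Int.natAbs_pos.2 (hF h hh).1
    have h2 : (0 : ℝ) < h'.natAbs := by exact_mod_cast Int.natAbs_pos.2 (hF h' hh').1
    rw [Nat.gcd_comm h'.natAbs h.natAbs]
    set G : ℝ := ((h.natAbs.gcd h'.natAbs : ℕ) : ℝ) with hG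
    have hG0 : 0 ≤ G := by rw [hG]; positivity
    set x := (h.natAbs : ℝ)
    set y := (h'.natAbs : ℝ)
    have key : 2 * (‖c h‖ * ‖c h'‖) ≤ x * ‖c h‖ ^ 2 / y + y * ‖c h'‖ ^ 2 / x := by
      rw [div_add_div _ _ h2.ne' h1.ne', le_div_iff₀ (by positivity)]
      nlinarith [sq_nonneg (x * ‖c h‖ - y * ‖c h'‖)]
    calc ‖c h‖ * ‖c h'‖ * G = G * (2 * (‖c h‖ * ‖c h'‖)) / 2 := by ring
      _ ≤ G * (x * ‖c h‖ ^ 2 / y + y * ‖c h'‖ ^ 2 / x) / 2 := by gcongr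
      _ = _ := by ring
  · have h1 : ∀ h ∈ F, (h.natAbs : ℝ) * ‖c h‖ ^ 2 * ∑ h' ∈ F, ((h.natAbs.gcd h'.natAbs : ℕ) : ℝ) / (h'.natAbs : ℕ) ≤
        (h.natAbs : ℝ) * ‖c h‖ ^ 2 * (2 * (T * (1 + Real.log q))) := by
      intro h hh
      apply mul_le_mul_of_nonneg_left _ (by positivity)
      refine (gcd_sum hq hF (Int.natAbs_ne_zero.2 (hF h hh).1)).trans ?_
      have := hT h hh
      gcongr
    refine (sum_le_sum h1).trans ?_
    rw [← sum_mul]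
    calc (∑ h ∈ F, (h.natAbs : ℝ) * ‖c h‖ ^ 2) * (2 * (T * (1 + Real.log q))) ≤ V * (2 * (T * (1 + Real.log q))) := by
          apply mul_le_mul_of_nonneg_right hV; positivity
      _ = _ := by ring

/-- second gcd sum -/
lemma T2_bound (hq : 1 ≤ q) (hF : ∀ h ∈ F, h ≠ 0 ∧ h.natAbs ≤ q) (hT : ∀ h ∈ F, (h.natAbs.divisors.card : ℝ) ≤ T)
    (hρ : ∑ h ∈ F, ‖c h‖ ^ 2 ≤ ρ) (hT0 : 0 ≤ T) :
    ∑ h ∈ F, ∑ h' ∈ F, ‖c h‖ * ‖c h'‖ * (((h.natAbs.gcd h'.natAbs : ℕ) : ℝ) / (max h.natAbs h'.natAbs : ℕ)) ≤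
      2 * T * (1 + Real.log q) * ρ := by
  have hlg : 0 ≤ Real.log q := Real.log_nonneg (by exact_mod_cast hq)
  refine (sym_bound _ (fun h => ‖c h‖ ^ 2)
    (fun h h' => ((h.natAbs.gcd h'.natAbs : ℕ) : ℝ) / (h'.natAbs : ℕ)) ?_).trans ?_
  · intro h hh h' hh'
    have h1 : (0 : ℝ) < h.natAbs := by exact_mod_cast Int.natAbs_pos.2 (hF h hh).1
    have h2 : (0 : ℝ) < h'.natAbs := by exact_mod_cast Int.natAbs_pos.2 (hF h' hh').1
    rw [Nat.gcd_comm h'.natAbs h.natAbs]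
    set G : ℝ := ((h.natAbs.gcd h'.natAbs : ℕ) : ℝ) with hG
    have hG0 : 0 ≤ G := by rw [hG]; positivity
    have hm1 : (h.natAbs : ℝ) ≤ (max h.natAbs h'.natAbs : ℕ) := by exact_mod_cast le_max_left _ _
    have hm2 : (h'.natAbs : ℝ) ≤ (max h.natAbs h'.natAbs : ℕ) := by exact_mod_cast le_max_right _ _
    set z : ℝ := ((max h.natAbs h'.natAbs : ℕ) : ℝ)
    set x := (h.natAbs : ℝ)
    set y := (h'.natAbs : ℝ)
    have hz : 0 < z := lt_of_lt_of_le h1 hm1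
    have k1 : G / z ≤ G / y := div_le_div_of_nonneg_left hG0 h2 hm2
    have k2 : G / z ≤ G / x := div_le_div_of_nonneg_left hG0 h1 hm1
    have k0 : 0 ≤ G / z := by positivity
    calc ‖c h‖ * ‖c h'‖ * (G / z) ≤ (‖c h‖ ^ 2 + ‖c h'‖ ^ 2) / 2 * (G / z) := by
          apply mul_le_mul_of_nonneg_right _ k0
          nlinarith [sq_nonneg (‖c h‖ - ‖c h'‖)]
      _ = (‖c h‖ ^ 2 * (G / z) + ‖c h'‖ ^ 2 * (G / z)) / 2 := by ring
      _ ≤ _ := by gcongr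
  · have h1 : ∀ h ∈ F, ‖c h‖ ^ 2 * ∑ h' ∈ F, ((h.natAbs.gcd h'.natAbs : ℕ) : ℝ) / (h'.natAbs : ℕ) ≤
        ‖c h‖ ^ 2 * (2 * (T * (1 + Real.log q))) := by
      intro h hh
      apply mul_le_mul_of_nonneg_left _ (by positivity)
      refine (gcd_sum hq hF (Int.natAbs_ne_zero.2 (hF h hh).1)).trans ?_
      have := hT h hh
      gcongr
    refine (sum_le_sum h1).trans ?_
    rw [← sum_mul]
    calc (∑ h ∈ F, ‖c h‖ ^ 2) * (2 * (T * (1 + Real.log q))) ≤ ρ * (2 * (T * (1 + Real.log q))) := by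
          apply mul_le_mul_of_nonneg_right hρ; positivity
      _ = _ := by ring

/-- the sum over all pairs of frequencies -/
noncomputable def SP (A1 A3 V ρ T : ℝ) (q M L : ℕ) : ℝ :=
  312 * ((L : ℝ) ^ 2 * M / q) * (2 * T * (1 + Real.log q) * V) +
    (78 * L * M + 6 * L * q * (1 + Real.log q)) * (2 * T * (1 + Real.log q) * ρ) +
    (312 * L * M / q + 24 * L * (1 + Real.log q)) * (2 * A1 * A3) +
    (78 * M + 24 * (L : ℝ) ^ 2 * (1 + Real.log q) + 6 * q * (1 + Real.log q)) * A1 ^ 2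

lemma SP_bound (hq : 1 ≤ q) (hF : ∀ h ∈ F, h ≠ 0 ∧ h.natAbs ≤ q) (hT : ∀ h ∈ F, (h.natAbs.divisors.card : ℝ) ≤ T)
    (hA1 : ∑ h ∈ F, ‖c h‖ ≤ A1) (hA3 : ∑ h ∈ F, (h.natAbs : ℝ) * ‖c h‖ ≤ A3)
    (hV : ∑ h ∈ F, (h.natAbs : ℝ) * ‖c h‖ ^ 2 ≤ V) (hρ : ∑ h ∈ F, ‖c h‖ ^ 2 ≤ ρ) (hT0 : 0 ≤ T) (M L : ℕ) :
    ∑ h ∈ F, ∑ h' ∈ F, ‖c h‖ * ‖c h'‖ * ∑ l ∈ Ioc L (2 * L), ∑ l' ∈ Ioc L (2 * L),
      KK M (((h * (l : ℤ) - h' * (l' : ℤ) : ℤ) : ℝ) / q) ≤ SP A1 A3 V ρ T q M L := by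
  have hlg : 0 ≤ Real.log q := Real.log_nonneg (by exact_mod_cast hq)
  have hq0 : (0 : ℝ) < q := by exact_mod_cast hq
  have hA10 : 0 ≤ A1 := le_trans (sum_nonneg fun _ _ => norm_nonneg _) hA1
  set Λ := 1 + Real.log q with hΛ
  have hΛ0 : 0 ≤ Λ := by positivity
  set k1 : ℝ := 312 * ((L : ℝ) ^ 2 * M / q) with hk1
  set k2 : ℝ := 78 * L * M + 6 * L * q * Λ with hk2
  set k3 : ℝ := 312 * L * M / q + 24 * L * Λ with hk3
  set k4 : ℝ := 78 * M + 24 * (L : ℝ) ^ 2 * Λ + 6 * q * Λ with hk4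
  have hk10 : 0 ≤ k1 := by positivity
  have hk20 : 0 ≤ k2 := by positivity
  have hk30 : 0 ≤ k3 := by positivity
  have hk40 : 0 ≤ k4 := by positivity
  have h1 : ∀ h ∈ F, ∀ h' ∈ F, ‖c h‖ * ‖c h'‖ * ∑ l ∈ Ioc L (2 * L), ∑ l' ∈ Ioc L (2 * L),
      KK M (((h * (l : ℤ) - h' * (l' : ℤ) : ℤ) : ℝ) / q) ≤
      k1 * (‖c h‖ * ‖c h'‖ * ((h.natAbs.gcd h'.natAbs : ℕ) : ℝ)) +
      k2 * (‖c h‖ * ‖c h'‖ * (((h.natAbs.gcd h'.natAbs : ℕ) : ℝ) / (max h.natAbs h'.natAbs : ℕ))) +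
      k3 * (‖c h‖ * ((h'.natAbs : ℝ) * ‖c h'‖) + ((h.natAbs : ℝ) * ‖c h‖) * ‖c h'‖) +
      k4 * (‖c h‖ * ‖c h'‖) := by
    intro h hh h' hh'
    have key := pair_sum hq (hF h hh).1 (hF h' hh').1 M L
    have hcc : 0 ≤ ‖c h‖ * ‖c h'‖ := by positivity
    have hmax : ((max h.natAbs h'.natAbs : ℕ) : ℝ) ≤ h.natAbs + h'.natAbs := by
      exact_mod_cast (by omega : max h.natAbs h'.natAbs ≤ h.natAbs + h'.natAbs)
    have e3 : k3 * ((max h.natAbs h'.natAbs : ℕ) : ℝ) ≤ k3 * (h.natAbs + h'.natAbs) := mul_le_mul_of_nonneg_left hmax hk30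
    have key2 : ∑ l ∈ Ioc L (2 * L), ∑ l' ∈ Ioc L (2 * L), KK M (((h * (l : ℤ) - h' * (l' : ℤ) : ℤ) : ℝ) / q) ≤
        k1 * ((h.natAbs.gcd h'.natAbs : ℕ) : ℝ) +
        k2 * (((h.natAbs.gcd h'.natAbs : ℕ) : ℝ) / (max h.natAbs h'.natAbs : ℕ)) +
        k3 * ((h.natAbs : ℝ) + h'.natAbs) + k4 := by
      refine key.trans ?_
      rw [← hΛ, ← hk1, ← hk2, ← hk3, ← hk4]
      linarith
    refine (mul_le_mul_of_nonneg_left key2 hcc).trans (le_of_eq ?_)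
    ring
  refine (sum_le_sum fun h hh => sum_le_sum fun h' hh' => h1 h hh h' hh').trans ?_
  simp only [sum_add_distrib, ← mul_sum, ← sum_mul]
  have b1 := T1_bound (c := c) hq hF hT hV hT0
  have b2 := T2_bound (c := c) hq hF hT hρ hT0
  have hA30 : 0 ≤ A3 := le_trans (sum_nonneg fun _ _ => by positivity) hA3
  have s1 : 0 ≤ ∑ h ∈ F, ‖c h‖ := sum_nonneg fun _ _ => norm_nonneg _
  have s3 : 0 ≤ ∑ h ∈ F, (h.natAbs : ℝ) * ‖c h‖ := sum_nonneg fun _ _ => by positivity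
  have b3 : (∑ h ∈ F, ‖c h‖) * (∑ h ∈ F, (h.natAbs : ℝ) * ‖c h‖) + (∑ h ∈ F, (h.natAbs : ℝ) * ‖c h‖) * (∑ h ∈ F, ‖c h‖) ≤
      2 * A1 * A3 := by
    have : (∑ h ∈ F, ‖c h‖) * (∑ h ∈ F, (h.natAbs : ℝ) * ‖c h‖) ≤ A1 * A3 := mul_le_mul hA1 hA3 s3 hA10
    linarith
  have b4 : (∑ h ∈ F, ‖c h‖) * (∑ h ∈ F, ‖c h‖) ≤ A1 ^ 2 := by
    rw [sq]; exact mul_le_mul hA1 hA1 s1 hA10
  unfold SP
  rw [← hΛ, ← hk1, ← hk2, ← hk3, ← hk4]
  have := mul_le_mul_of_nonneg_left b1 hk10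
  have := mul_le_mul_of_nonneg_left b2 hk20
  have := mul_le_mul_of_nonneg_left b3 hk30
  have := mul_le_mul_of_nonneg_left b4 hk40
  linarith

/-- bilinear sums with bounded coefficients -/
theorem typeII_sup (hq : 1 ≤ q) (hF : ∀ h ∈ F, h ≠ 0 ∧ h.natAbs ≤ q) (hT : ∀ h ∈ F, (h.natAbs.divisors.card : ℝ) ≤ T)
    (hA1 : ∑ h ∈ F, ‖c h‖ ≤ A1) (hA3 : ∑ h ∈ F, (h.natAbs : ℝ) * ‖c h‖ ≤ A3)
    (hV : ∑ h ∈ F, (h.natAbs : ℝ) * ‖c h‖ ^ 2 ≤ V) (hρ : ∑ h ∈ F, ‖c h‖ ^ 2 ≤ ρ) (hT0 : 0 ≤ T) (N N' M L : ℕ)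
    (a b : ℕ → ℂ) {α β : ℝ} (hα : 0 ≤ α) (ha : ∀ m ∈ Ioc M (2 * M), ‖a m‖ ≤ α) (hb : ∀ l ∈ Ioc L (2 * L), ‖b l‖ ≤ β) :
    ‖∑ m ∈ Ioc M (2 * M), ∑ l ∈ Ioc L (2 * L), a m * b l *
      (if N < m * l ∧ m * l ≤ N' then EF F c q (m * l) else 0)‖ ^ 2 ≤
      (α * β) ^ 2 * (M * SP A1 A3 V ρ T q M L) := by
  refine (bil_core F c N N' M L a b).trans ?_
  have h1 : ∑ m ∈ Ioc M (2 * M), ‖a m‖ ^ 2 ≤ α ^ 2 * M := by
    calc ∑ m ∈ Ioc M (2 * M), ‖a m‖ ^ 2 ≤ ∑ _m ∈ Ioc M (2 * M), α ^ 2 :=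
          sum_le_sum fun m hm => pow_le_pow_left₀ (norm_nonneg _) (ha m hm) 2
      _ = _ := by
          rw [sum_const, Nat.card_Ioc, nsmul_eq_mul, show 2 * M - M = M by omega]; ring
  have h2 : ∑ p ∈ F ×ˢ Ioc L (2 * L), ∑ p' ∈ F ×ˢ Ioc L (2 * L), (‖c p.1 * b p.2‖ * ‖c p'.1 * b p'.2‖) *
      KK M (((p.1 * (p.2 : ℤ) : ℤ) : ℝ) / q - ((p'.1 * (p'.2 : ℤ) : ℤ) : ℝ) / q) ≤ β ^ 2 * SP A1 A3 V ρ T q M L := by
    have h3 : ∀ p ∈ F ×ˢ Ioc L (2 * L), ∀ p' ∈ F ×ˢ Ioc L (2 * L), (‖c p.1 * b p.2‖ * ‖c p'.1 * b p'.2‖) *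
        KK M (((p.1 * (p.2 : ℤ) : ℤ) : ℝ) / q - ((p'.1 * (p'.2 : ℤ) : ℤ) : ℝ) / q) ≤
        β ^ 2 * (‖c p.1‖ * ‖c p'.1‖ * KK M (((p.1 * (p.2 : ℤ) - p'.1 * (p'.2 : ℤ) : ℤ) : ℝ) / q)) := by
      intro p hp p' hp'
      rw [mem_product] at hp hp'
      have k1 := hb p.2 hp.2
      have k2 := hb p'.2 hp'.2
      have k0 : 0 ≤ β := (norm_nonneg _).trans k1
      have e : ((p.1 * (p.2 : ℤ) : ℤ) : ℝ) / q - ((p'.1 * (p'.2 : ℤ) : ℤ) : ℝ) / q =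
          ((p.1 * (p.2 : ℤ) - p'.1 * (p'.2 : ℤ) : ℤ) : ℝ) / q := by push_cast; ring
      rw [e, norm_mul, norm_mul]
      have hK := KK_nonneg (M := M) (Nat.cast_nonneg _) (((p.1 * (p.2 : ℤ) - p'.1 * (p'.2 : ℤ) : ℤ) : ℝ) / q)
      calc _ ≤ (‖c p.1‖ * β * (‖c p'.1‖ * β)) * KK M (((p.1 * (p.2 : ℤ) - p'.1 * (p'.2 : ℤ) : ℤ) : ℝ) / q) := by gcongr
        _ = _ := by ring
    refine (sum_le_sum fun p hp => sum_le_sum fun p' hp' => h3 p hp p' hp').trans ?_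
    simp only [← mul_sum]
    apply mul_le_mul_of_nonneg_left _ (sq_nonneg _)
    refine le_trans (le_of_eq ?_) (SP_bound (c := c) hq hF hT hA1 hA3 hV hρ hT0 M L)
    rw [sum_product]
    apply sum_congr rfl; intro h _
    have e1 : ∀ l ∈ Ioc L (2 * L), ∑ p' ∈ F ×ˢ Ioc L (2 * L), ‖c h‖ * ‖c p'.1‖ *
        KK M (((h * (l : ℤ) - p'.1 * (p'.2 : ℤ) : ℤ) : ℝ) / q) = ∑ h' ∈ F, ∑ l' ∈ Ioc L (2 * L),
        ‖c h‖ * ‖c h'‖ * KK M (((h * (l : ℤ) - h' * (l' : ℤ) : ℤ) : ℝ) / q) := by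
      intro l _
      rw [sum_product]
    rw [sum_congr rfl e1, sum_comm]
    apply sum_congr rfl; intro h' _
    rw [mul_sum]
    apply sum_congr rfl; intro l _
    rw [mul_sum]
  have hSP : 0 ≤ ∑ p ∈ F ×ˢ Ioc L (2 * L), ∑ p' ∈ F ×ˢ Ioc L (2 * L), (‖c p.1 * b p.2‖ * ‖c p'.1 * b p'.2‖) *
      KK M (((p.1 * (p.2 : ℤ) : ℤ) : ℝ) / q - ((p'.1 * (p'.2 : ℤ) : ℤ) : ℝ) / q) :=
    sum_nonneg fun _ _ => sum_nonneg fun _ _ => mul_nonneg (by positivity) (KK_nonneg (Nat.cast_nonneg _) _)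
  calc _ ≤ (α ^ 2 * M) * (β ^ 2 * SP A1 A3 V ρ T q M L) := mul_le_mul h1 h2 hSP (by positivity)
    _ = _ := by ring

end

end Pool.Agent.K3h35.LB
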