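import Mathlib
import Pool.Agent.K3h35.MP.E
import Pool.Agent.K3h35.LB.B

/-! Vaughan's identity with bounded coefficients, and the bound for one dyadic block. -/

set_option autoImplicit false

namespace Pool.Agent.K3h35.LB

open Finset
open Pool.Agent.H807R2.Dav
open Pool.Agent.H373R2.T7 (bil_gen)
open Pool.Agent.Helper112 (betaV LamII)
open Pool.Agent.Helper112.TI (mu1 l1 mu1_apply l1_apply)
open Pool.Agent.Helper112.TII (betaV_abs betaV_zero)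
open Pool.Agent.H373R2.T3 (dyadic_sum hyp abel_Ioc vaughan_sum conv_abs_le conv_zero)
open Pool.Agent.K3h35.MP

theorem vaughan_sup (E : ℕ → ℂ) (N N' U : ℕ) (hN : 1 ≤ N) (hNN' : N ≤ N') (hN' : N' ≤ 2 * N) (hU : 1 ≤ U) (hUN : U * U ≤ N)
    (Y : ℕ → ℝ) (R : ℝ) (hR0 : 0 ≤ R) (hY0 : ∀ m, 0 ≤ Y m) {T : ℝ} (hT0 : 0 ≤ T)
    (hT : ∀ m : ℕ, 1 ≤ m → m ≤ 4 * N → (m.divisors.card : ℝ) ≤ T)
    (hI : ∀ m ∈ Icc 1 (U * U), ∀ b, b ≤ N' / m → ‖∑ l ∈ Ioc (N / m) b, E (m * l)‖ ≤ Y m)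
    (hII : ∀ (a b : ℕ → ℂ) (α β : ℝ), 0 ≤ α → 0 ≤ β → ∀ M L : ℕ, 1 ≤ M → 1 ≤ L → U < 2 * M → U < 2 * L → M * L ≤ N' →
      (∀ m ∈ Ioc M (2 * M), ‖a m‖ ≤ α) → (∀ l ∈ Ioc L (2 * L), ‖b l‖ ≤ β) →
      ‖∑ m ∈ Ioc M (2 * M), ∑ l ∈ Ioc L (2 * L), a m * b l * (if N < m * l ∧ m * l ≤ N' then E (m * l) else 0)‖ ≤
        α * β * R) :
    ‖∑ n ∈ Ioc N N', ((ArithmeticFunction.vonMangoldt n : ℝ) : ℂ) * E n‖ ≤
      4 * (1 + Real.log (4 * N)) ^ 3 * T * R + 3 * (1 + Real.log (4 * N)) * ∑ m ∈ Icc 1 (U * U), Y m := by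
  have hN0 : (1 : ℝ) ≤ N := by exact_mod_cast hN
  set Lg : ℝ := 1 + Real.log (4 * N) with hLg
  have hlog4N : 0 ≤ Real.log (4 * (N : ℝ)) := Real.log_nonneg (by linarith)
  have hLg1 : 1 ≤ Lg := by linarith
  have hlogle : ∀ t : ℝ, 1 ≤ t → t ≤ 4 * N → Real.log t ≤ Lg := by
    intro t ht ht2
    have := Real.log_le_log (by linarith) ht2
    linarith
  have hUUU : U ≤ U * U := Nat.le_mul_of_pos_left _ (by omega)
  rw [vaughan_sum U U N N' (by omega) E]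
  -- the II-part with betaV
  have hS1 : ‖∑ m ∈ Icc 1 N', ∑ l ∈ Ioc (N / m) (N' / m), ((betaV U m : ℝ) : ℂ) *
      (((if U < l then ArithmeticFunction.vonMangoldt l else 0 : ℝ)) : ℂ) * E (m * l)‖ ≤
      (Nat.log 2 N' + 1 : ℝ) ^ 2 * (T * Lg * R) := by
    apply bil_gen E N N' U hU (fun m => ((betaV U m : ℝ) : ℂ))
      (fun l => (((if U < l then ArithmeticFunction.vonMangoldt l else 0 : ℝ)) : ℂ)) (T * Lg * R) (by positivity)
    · intro m hm
      rw [betaV_zero U m hm]; norm_num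
    · intro l hl
      rw [if_neg (by omega)]; norm_num
    intro M L hM hL hM2 hL2 hML
    have hMN : M ≤ 2 * N := by
      have : M ≤ M * L := Nat.le_mul_of_pos_right _ (by omega)
      omega
    have hLN : L ≤ 2 * N := by
      have : L ≤ M * L := Nat.le_mul_of_pos_left _ (by omega)
      omega
    apply hII (fun m => ((betaV U m : ℝ) : ℂ))
      (fun l => (((if U < l then ArithmeticFunction.vonMangoldt l else 0 : ℝ)) : ℂ)) T Lg hT0 (by positivity)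
      M L hM hL hM2 hL2 hML
    · intro m hm
      rw [mem_Ioc] at hm
      rw [Complex.norm_real, Real.norm_eq_abs]
      exact (betaV_abs U m).trans (hT m (by omega) (by omega))
    · intro l hl
      rw [mem_Ioc] at hl
      rw [Complex.norm_real, Real.norm_eq_abs]
      split_ifs
      · rw [abs_of_nonneg ArithmeticFunction.vonMangoldt_nonneg]
        refine ArithmeticFunction.vonMangoldt_le_log.trans (hlogle _ ?_ ?_)
        · exact_mod_cast (by omega : 1 ≤ l)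
        · exact_mod_cast (by omega : l ≤ 4 * N)
      · rw [abs_zero]; linarith
  -- type I with logarithms
  have hS2 : ‖∑ m ∈ Icc 1 N', ((mu1 U m : ℝ) : ℂ) * ∑ l ∈ Ioc (N / m) (N' / m), ((Real.log l : ℝ) : ℂ) * E (m * l)‖ ≤
      2 * Lg * ∑ m ∈ Icc 1 (U * U), Y m := by
    have h2 : ∀ m ∈ Icc 1 N', ‖((mu1 U m : ℝ) : ℂ) * ∑ l ∈ Ioc (N / m) (N' / m), ((Real.log l : ℝ) : ℂ) * E (m * l)‖ ≤
        if m ≤ U * U then 2 * Lg * Y m else 0 := by
      intro m hm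
      rw [mem_Icc] at hm
      split_ifs with hmU
      · rw [norm_mul, Complex.norm_real, Real.norm_eq_abs]
        have h3 : |mu1 U m| ≤ 1 := by
          rw [mu1_apply]
          split_ifs
          · exact_mod_cast ArithmeticFunction.abs_moebius_le_one
          · simp
        have h4 : ‖∑ l ∈ Ioc (N / m) (N' / m), ((Real.log l : ℝ) : ℂ) * E (m * l)‖ ≤ 2 * Real.log ((N' / m : ℕ) : ℝ) * Y m := by
          apply abel_Ioc (N / m) (N' / m) (Nat.div_le_div_right hNN') (fun l : ℕ => Real.log l) (fun l => E (m * l))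
          · intro a b hab
            simp only
            rcases Nat.eq_zero_or_pos a with h | h
            · rw [h, Nat.cast_zero, Real.log_zero]; exact Real.log_natCast_nonneg _
            · exact Real.log_le_log (by exact_mod_cast h) (by exact_mod_cast hab)
          · intro n; exact Real.log_natCast_nonneg _
          · intro b' hb'
            exact hI m (mem_Icc.2 ⟨hm.1, hmU⟩) b' hb'
        have h5 : Real.log ((N' / m : ℕ) : ℝ) ≤ Lg := by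
          have h6 : 1 ≤ N' / m := Nat.div_pos hm.2 hm.1
          apply hlogle
          · exact_mod_cast h6
          · have : N' / m ≤ N' := Nat.div_le_self _ _
            exact_mod_cast (by omega : N' / m ≤ 4 * N)
        have hYm := hY0 m
        calc |mu1 U m| * ‖∑ l ∈ Ioc (N / m) (N' / m), ((Real.log l : ℝ) : ℂ) * E (m * l)‖ ≤
              1 * (2 * Real.log ((N' / m : ℕ) : ℝ) * Y m) := mul_le_mul h3 h4 (norm_nonneg _) (by norm_num)
          _ ≤ 1 * (2 * Lg * Y m) := by gcongr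
          _ = _ := by ring
      · rw [mu1_apply, if_neg (by omega)]; simp
    refine (norm_sum_le _ _).trans ((sum_le_sum h2).trans ?_)
    rw [← sum_filter, mul_sum]
    apply sum_le_sum_of_subset_of_nonneg
    · intro m hm; rw [mem_filter, mem_Icc] at hm; rw [mem_Icc]; omega
    · intro m _ _
      have := hY0 m
      positivity
  have hS3 : ‖∑ m ∈ Icc 1 N', (((mu1 U * l1 U) m : ℝ) : ℂ) * ∑ l ∈ Ioc (N / m) (N' / m), E (m * l)‖ ≤
      Lg * ∑ m ∈ Icc 1 (U * U), Y m := by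
    have h2 : ∀ m ∈ Icc 1 N', ‖(((mu1 U * l1 U) m : ℝ) : ℂ) * ∑ l ∈ Ioc (N / m) (N' / m), E (m * l)‖ ≤
        if m ≤ U * U then Lg * Y m else 0 := by
      intro m hm
      rw [mem_Icc] at hm
      split_ifs with hmU
      · rw [norm_mul, Complex.norm_real, Real.norm_eq_abs]
        have h3 : |(mu1 U * l1 U) m| ≤ Lg := (conv_abs_le U U m hm.1).trans (hlogle _ (by exact_mod_cast hm.1) (by
            exact_mod_cast (by omega : m ≤ 4 * N)))
        exact mul_le_mul h3 (hI m (mem_Icc.2 ⟨hm.1, hmU⟩) _ le_rfl) (norm_nonneg _) (by linarith)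
      · rw [conv_zero U U m (by omega)]; simp
    refine (norm_sum_le _ _).trans ((sum_le_sum h2).trans ?_)
    rw [← sum_filter, mul_sum]
    apply sum_le_sum_of_subset_of_nonneg
    · intro m hm; rw [mem_filter, mem_Icc] at hm; rw [mem_Icc]; omega
    · intro m _ _
      have := hY0 m
      positivity
  have hlog2 : (Nat.log 2 N' + 1 : ℝ) ≤ 2 * Lg := by
    have hN'1 : 1 ≤ N' := by omega
    have h2 : (Nat.log 2 N' : ℝ) * Real.log 2 ≤ Real.log N' := by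
      have h3 : (2 : ℝ) ^ Nat.log 2 N' ≤ N' := by exact_mod_cast Nat.pow_log_le_self 2 (by omega)
      have h4 := Real.log_le_log (by positivity) h3
      rwa [Real.log_pow] at h4
    have h3 : Real.log N' ≤ Real.log (4 * N) := Real.log_le_log (by exact_mod_cast hN'1) (by exact_mod_cast (by omega : N' ≤ 4 * N))
    have h4 := Real.log_two_gt_d9
    have h5 : (0 : ℝ) ≤ Nat.log 2 N' := Nat.cast_nonneg _
    nlinarith
  have hlog20 : (0 : ℝ) ≤ (Nat.log 2 N' + 1 : ℝ) := by positivity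
  refine (norm_sub_le _ _).trans ?_
  refine (add_le_add (norm_add_le _ _) le_rfl).trans ?_
  have h7 : (Nat.log 2 N' + 1 : ℝ) ^ 2 * (T * Lg * R) ≤ 4 * Lg ^ 3 * T * R := by
    calc (Nat.log 2 N' + 1 : ℝ) ^ 2 * (T * Lg * R) ≤ (2 * Lg) ^ 2 * (T * Lg * R) := by
          apply mul_le_mul_of_nonneg_right (pow_le_pow_left₀ hlog20 hlog2 2) (by positivity)
      _ = _ := by ring
  linarith

/-- the size of the bilinear sums -/
noncomputable def RS (A1 A3 V ρ T : ℝ) (q N U : ℕ) : ℝ :=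
  2496 * ((N : ℝ) ^ 2 / q) * (T * (1 + Real.log q) * V) +
    (1248 * N * (N / U) + 24 * N * q * (1 + Real.log q)) * (T * (1 + Real.log q) * ρ) +
    (4992 * N * (N / U) / q + 96 * N * (1 + Real.log q)) * (A1 * A3) +
    (1248 * ((N : ℝ) / U) ^ 2 + 96 * N * √N * (1 + Real.log q) + 24 * q * (N / U) * (1 + Real.log q)) * A1 ^ 2

lemma RS_ineq {q : ℕ} (hq : 1 ≤ q) {A1 A3 V ρ T : ℝ} (hA1 : 0 ≤ A1) (hA3 : 0 ≤ A3) (hV : 0 ≤ V) (hρ : 0 ≤ ρ)
    (hT : 0 ≤ T) {N M L U : ℕ} (hLM : L ≤ M) (hU : 1 ≤ U) (hUL : U < 2 * L) (hML : M * L ≤ 2 * N) :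
    M * SP A1 A3 V ρ T q M L ≤ RS A1 A3 V ρ T q N U := by
  have hq0 : (0 : ℝ) < q := by exact_mod_cast hq
  have hlg : 0 ≤ Real.log q := Real.log_nonneg (by exact_mod_cast hq)
  have hL0 : (0 : ℝ) ≤ L := Nat.cast_nonneg _
  have hM0 : (0 : ℝ) ≤ M := Nat.cast_nonneg _
  have hU0 : (0 : ℝ) < U := by exact_mod_cast hU
  have hMLr : (M : ℝ) * L ≤ 2 * N := by exact_mod_cast hML
  have hLMr : (L : ℝ) ≤ M := by exact_mod_cast hLM
  have hN0 : (0 : ℝ) ≤ N := Nat.cast_nonneg _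
  have hs : (√(N : ℝ)) ^ 2 = N := Real.sq_sqrt hN0
  have hs0 : 0 ≤ √(N : ℝ) := Real.sqrt_nonneg _
  have hLs : (L : ℝ) ≤ 2 * √(N : ℝ) := by
    have h1 : (L : ℝ) ^ 2 ≤ (2 * √(N : ℝ)) ^ 2 := by
      rw [mul_pow, hs]
      nlinarith
    exact le_of_sq_le_sq h1 (by positivity)
  have hMU : (M : ℝ) ≤ 4 * (N / U) := by
    rw [mul_div_assoc', le_div_iff₀ hU0]
    have : (U : ℝ) ≤ 2 * L := by exact_mod_cast hUL.le
    nlinarith
  have hNU : 0 ≤ (N : ℝ) / U := by positivity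
  have hML0 : 0 ≤ (M : ℝ) * L := by positivity
  obtain ⟨Λ, hΛ⟩ : ∃ Λ : ℝ, Λ = 1 + Real.log q := ⟨_, rfl⟩
  have hΛ0 : 0 ≤ Λ := by rw [hΛ]; positivity
  unfold SP RS
  rw [← hΛ]
  have e : (M : ℝ) * (312 * ((L : ℝ) ^ 2 * M / q) * (2 * T * Λ * V) +
      (78 * L * M + 6 * L * q * Λ) * (2 * T * Λ * ρ) + (312 * L * M / q + 24 * L * Λ) * (2 * A1 * A3) +
      (78 * M + 24 * (L : ℝ) ^ 2 * Λ + 6 * q * Λ) * A1 ^ 2) =
      624 * ((M * L) ^ 2 / q) * (T * Λ * V) + (156 * (M * L) * M + 12 * (M * L) * q * Λ) * (T * Λ * ρ) +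
      (624 * (M * L) * M / q + 48 * (M * L) * Λ) * (A1 * A3) +
      (78 * (M * M) + 24 * (M * L) * L * Λ + 6 * q * M * Λ) * A1 ^ 2 := by ring
  rw [e]
  have t1 : 624 * (((M : ℝ) * L) ^ 2 / q) ≤ 2496 * ((N : ℝ) ^ 2 / q) := by
    calc 624 * (((M : ℝ) * L) ^ 2 / q) ≤ 624 * ((2 * N : ℝ) ^ 2 / q) := by gcongr
      _ = _ := by ring
  have t2 : 156 * ((M : ℝ) * L) * M + 12 * (M * L) * q * Λ ≤ 1248 * N * (N / U) + 24 * N * q * Λ := by
    calc 156 * ((M : ℝ) * L) * M + 12 * (M * L) * q * Λ ≤ 156 * (2 * N) * (4 * (N / U)) + 12 * (2 * N) * q * Λ := by gcongr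
      _ = _ := by ring
  have t3 : 624 * ((M : ℝ) * L) * M / q + 48 * (M * L) * Λ ≤ 4992 * N * (N / U) / q + 96 * N * Λ := by
    calc 624 * ((M : ℝ) * L) * M / q + 48 * (M * L) * Λ ≤ 624 * (2 * N) * (4 * (N / U)) / q + 48 * (2 * N) * Λ := by gcongr
      _ = _ := by ring
  have t4 : 78 * ((M : ℝ) * M) + 24 * (M * L) * L * Λ + 6 * q * M * Λ ≤
      1248 * ((N : ℝ) / U) ^ 2 + 96 * N * √N * Λ + 24 * q * (N / U) * Λ := by
    calc 78 * ((M : ℝ) * M) + 24 * (M * L) * L * Λ + 6 * q * M * Λ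
        ≤ 78 * ((4 * (N / U)) * (4 * (N / U))) + 24 * (2 * N) * (2 * √N) * Λ + 6 * q * (4 * (N / U)) * Λ := by gcongr
      _ = _ := by ring
  gcongr

section
variable {q : ℕ} {g : ℕ → ℝ} {P ρ T A1 A3 : ℝ}

lemma F_prop (hq : 1 ≤ q) : ∀ h ∈ (SS q).erase 0, h ≠ 0 ∧ h.natAbs ≤ q := by
  intro h hh
  rw [mem_erase] at hh
  have := SS_abs hq hh.2
  exact ⟨hh.1, by omega⟩

lemma V_bound (hq : 1 ≤ q) (hP0 : 0 ≤ P) (hV : ∀ s : ℕ, ∑ h ∈ Fs q s, ‖cf q g h‖ ^ 2 ≤ 4 * P / 2 ^ s) :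
    ∑ h ∈ (SS q).erase 0, (h.natAbs : ℝ) * ‖cf q g h‖ ^ 2 ≤ JJ q * (8 * P) := by
  rw [shells hq]
  have h1 : ∀ s ∈ range (JJ q), ∑ h ∈ Fs q s, (h.natAbs : ℝ) * ‖cf q g h‖ ^ 2 ≤ 8 * P := by
    intro s _
    calc ∑ h ∈ Fs q s, (h.natAbs : ℝ) * ‖cf q g h‖ ^ 2 ≤ ∑ h ∈ Fs q s, (2 : ℝ) ^ (s + 1) * ‖cf q g h‖ ^ 2 := by
          apply sum_le_sum
          intro h hh
          unfold Fs at hh
          rw [mem_filter] at hh
          apply mul_le_mul_of_nonneg_right _ (sq_nonneg _)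
          exact_mod_cast hh.2.2.le
      _ = (2 : ℝ) ^ (s + 1) * ∑ h ∈ Fs q s, ‖cf q g h‖ ^ 2 := by rw [mul_sum]
      _ ≤ (2 : ℝ) ^ (s + 1) * (4 * P / 2 ^ s) := mul_le_mul_of_nonneg_left (hV s) (by positivity)
      _ = _ := by
          rw [pow_succ]; field_simp; ring
  refine (sum_le_sum h1).trans ?_
  rw [sum_const, card_range, nsmul_eq_mul]

lemma EE_EF (hq : 1 ≤ q) (hg : ∀ n, g (n + q) = g n) (n : ℕ) : EE q g n = EF ((SS q).erase 0) (cf q g) q n := by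
  rw [EE_eq hq hg]; rfl

/-- bilinear sums in the form needed for Vaughan's identity -/
theorem typeII_sup_fin (hq : 1 ≤ q) (hg : ∀ n, g (n + q) = g n)
    (hP0 : 0 ≤ P) (hV : ∀ s : ℕ, ∑ h ∈ Fs q s, ‖cf q g h‖ ^ 2 ≤ 4 * P / 2 ^ s)
    (hρ : ∑ h ∈ SS q, ‖cf q g h‖ ^ 2 ≤ ρ) (hT0 : 0 ≤ T)
    (hA1 : ∑ h ∈ (SS q).erase 0, ‖cf q g h‖ ≤ A1) (hA3 : ∑ h ∈ (SS q).erase 0, (h.natAbs : ℝ) * ‖cf q g h‖ ≤ A3)
    (N N' U : ℕ) (hN' : N' ≤ 2 * N) (hU : 1 ≤ U)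
    (hT : ∀ k : ℕ, 1 ≤ k → k ≤ q → (k.divisors.card : ℝ) ≤ T) (a b : ℕ → ℂ) (α β : ℝ) (hα : 0 ≤ α) (hβ : 0 ≤ β)
    (M L : ℕ) (hUM : U < 2 * M) (hUL : U < 2 * L) (hML : M * L ≤ N')
    (ha : ∀ m ∈ Ioc M (2 * M), ‖a m‖ ≤ α) (hb : ∀ l ∈ Ioc L (2 * L), ‖b l‖ ≤ β) :
    ‖∑ m ∈ Ioc M (2 * M), ∑ l ∈ Ioc L (2 * L), a m * b l *
      (if N < m * l ∧ m * l ≤ N' then EE q g (m * l) else 0)‖ ≤ α * β * √(RS A1 A3 (JJ q * (8 * P)) ρ T q N U) := by
  have hρ0 : 0 ≤ ρ := le_trans (sum_nonneg fun _ _ => by positivity) hρ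
  have hA10 : 0 ≤ A1 := le_trans (sum_nonneg fun _ _ => norm_nonneg _) hA1
  have hA30 : 0 ≤ A3 := le_trans (sum_nonneg fun _ _ => by positivity) hA3
  have hF := F_prop hq
  have hTF : ∀ h ∈ (SS q).erase 0, (h.natAbs.divisors.card : ℝ) ≤ T := by
    intro h hh
    have := hF h hh
    exact hT _ (by omega) this.2
  have hρF : ∑ h ∈ (SS q).erase 0, ‖cf q g h‖ ^ 2 ≤ ρ :=
    (sum_le_sum_of_subset_of_nonneg (erase_subset _ _) (fun _ _ _ => by positivity)).trans hρ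
  have hV' := V_bound hq hP0 hV
  have hVV : 0 ≤ (JJ q : ℝ) * (8 * P) := by positivity
  apply le_of_sq_le_sq _ (by positivity)
  rw [mul_pow]
  rcases Nat.le_total L M with h | h
  · have key := typeII_sup (c := cf q g) hq hF hTF hA1 hA3 hV' hρF hT0 N N' M L a b hα ha hb
    have e : ∑ m ∈ Ioc M (2 * M), ∑ l ∈ Ioc L (2 * L), a m * b l *
        (if N < m * l ∧ m * l ≤ N' then EE q g (m * l) else 0) =
        ∑ m ∈ Ioc M (2 * M), ∑ l ∈ Ioc L (2 * L), a m * b l *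
        (if N < m * l ∧ m * l ≤ N' then EF ((SS q).erase 0) (cf q g) q (m * l) else 0) := by
      apply sum_congr rfl; intro m _
      apply sum_congr rfl; intro l _
      rw [EE_EF hq hg]
    rw [e]
    have hR := RS_ineq hq hA10 hA30 hVV hρ0 hT0 h hU hUL (hML.trans hN')
    have hS0 : 0 ≤ (α * β) ^ 2 := sq_nonneg _
    refine key.trans ?_
    have hR0 : 0 ≤ RS A1 A3 (JJ q * (8 * P)) ρ T q N U := by
      have hlg : 0 ≤ Real.log q := Real.log_nonneg (by exact_mod_cast hq)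
      unfold RS; positivity
    rw [Real.sq_sqrt hR0]
    exact mul_le_mul_of_nonneg_left hR hS0
  · have hML' : L * M ≤ N' := by rw [mul_comm]; exact hML
    have key := typeII_sup (c := cf q g) hq hF hTF hA1 hA3 hV' hρF hT0 N N' L M b a hβ hb ha
    have e1 : ∑ m ∈ Ioc M (2 * M), ∑ l ∈ Ioc L (2 * L), a m * b l *
        (if N < m * l ∧ m * l ≤ N' then EE q g (m * l) else 0) =
        ∑ l ∈ Ioc L (2 * L), ∑ m ∈ Ioc M (2 * M), b l * a m *
        (if N < l * m ∧ l * m ≤ N' then EF ((SS q).erase 0) (cf q g) q (l * m) else 0) := by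
      rw [sum_comm]
      apply sum_congr rfl; intro l _
      apply sum_congr rfl; intro m _
      rw [mul_comm l m, mul_comm (b l), EE_EF hq hg]
    rw [e1]
    have hR := RS_ineq hq hA10 hA30 hVV hρ0 hT0 h hU hUM (hML'.trans hN')
    refine key.trans ?_
    have hR0 : 0 ≤ RS A1 A3 (JJ q * (8 * P)) ρ T q N U := by
      have hlg : 0 ≤ Real.log q := Real.log_nonneg (by exact_mod_cast hq)
      unfold RS; positivity
    rw [Real.sq_sqrt hR0, mul_comm α β]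
    exact mul_le_mul_of_nonneg_left hR (sq_nonneg _)

/-- all frequencies, type I -/
lemma typeI_tot1 (hq : 1 ≤ q) (hP0 : 0 ≤ P) (hV : ∀ s : ℕ, ∑ h ∈ Fs q s, ‖cf q g h‖ ^ 2 ≤ 4 * P / 2 ^ s)
    (hA1 : ∑ h ∈ (SS q).erase 0, ‖cf q g h‖ ≤ A1) (N D : ℕ) (hN : 1 ≤ N) (hD : 1 ≤ D) :
    ∑ m ∈ Icc 1 D, ∑ h ∈ (SS q).erase 0, ‖cf q g h‖ * KK (2 * N / m) (m * ((h : ℝ) / q)) ≤
      600 * (Nat.log 2 D + 1 : ℝ) * (1 + Real.log q) * (N / q * (JJ q * (4 * √(P * (q * (1 + Real.log q))))) +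
        (D + q) * A1) := by
  have hq0 : (0 : ℝ) < q := by exact_mod_cast hq
  have hlg : 0 ≤ Real.log q := Real.log_nonneg (by exact_mod_cast hq)
  rw [sum_comm]
  have h1 : ∀ h ∈ (SS q).erase 0, ∑ m ∈ Icc 1 D, ‖cf q g h‖ * KK (2 * N / m) (m * ((h : ℝ) / q)) ≤
      600 * (Nat.log 2 D + 1 : ℝ) * (1 + Real.log q) * (N / q * (‖cf q g h‖ * (h.natAbs.gcd q : ℕ)) + (D + q) * ‖cf q g h‖) := by
    intro h _
    rw [← mul_sum]
    refine (mul_le_mul_of_nonneg_left (typeI_h hq h N D hN hD) (norm_nonneg _)).trans (le_of_eq ?_)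
    ring
  refine (sum_le_sum h1).trans ?_
  rw [← mul_sum, sum_add_distrib, ← mul_sum, ← mul_sum]
  apply mul_le_mul_of_nonneg_left _ (by positivity)
  have h2 := cf_gcd hq hP0 hV
  gcongr

/-- one dyadic block -/
theorem block_sup (hq : 1 ≤ q) (hg : ∀ n, g (n + q) = g n)
    (hP0 : 0 ≤ P) (hV : ∀ s : ℕ, ∑ h ∈ Fs q s, ‖cf q g h‖ ^ 2 ≤ 4 * P / 2 ^ s)
    (hρ : ∑ h ∈ SS q, ‖cf q g h‖ ^ 2 ≤ ρ) (hT0 : 0 ≤ T)
    (hA1 : ∑ h ∈ (SS q).erase 0, ‖cf q g h‖ ≤ A1) (hA3 : ∑ h ∈ (SS q).erase 0, (h.natAbs : ℝ) * ‖cf q g h‖ ≤ A3)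
    (N N' U : ℕ) (hN : 1 ≤ N) (hNN' : N ≤ N') (hN' : N' ≤ 2 * N) (hU : 1 ≤ U) (hUN : U * U ≤ N)
    (hT : ∀ k : ℕ, 1 ≤ k → k ≤ q + 4 * N → (k.divisors.card : ℝ) ≤ T) :
    ‖∑ n ∈ Ioc N N', ((ArithmeticFunction.vonMangoldt n : ℝ) : ℂ) * EE q g n‖ ≤
      4 * (1 + Real.log (4 * N)) ^ 3 * T * √(RS A1 A3 (JJ q * (8 * P)) ρ T q N U) +
      3 * (1 + Real.log (4 * N)) * (600 * (Nat.log 2 (U * U) + 1 : ℝ) * (1 + Real.log q) *
        (N / q * (JJ q * (4 * √(P * (q * (1 + Real.log q))))) + ((U * U : ℕ) + q) * A1)) := by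
  have hq0 : (0 : ℝ) < q := by exact_mod_cast hq
  have hlg : 0 ≤ Real.log q := Real.log_nonneg (by exact_mod_cast hq)
  have hlog4N : 0 ≤ Real.log (4 * (N : ℝ)) := Real.log_nonneg (by
    have : (1 : ℝ) ≤ N := by exact_mod_cast hN
    linarith)
  have key := vaughan_sup (EE q g) N N' U hN hNN' hN' hU hUN
    (fun m => ∑ h ∈ (SS q).erase 0, ‖cf q g h‖ * KK (2 * N / m) (m * ((h : ℝ) / q)))
    (√(RS A1 A3 (JJ q * (8 * P)) ρ T q N U))
    (Real.sqrt_nonneg _) (fun m => sum_nonneg fun h _ => mul_nonneg (norm_nonneg _) (KK_nonneg (by positivity) _))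
    hT0 (fun m hm1 hm2 => hT m hm1 (by omega)) (by
      intro m hm b hb
      rw [mem_Icc] at hm
      have hm0 : (0 : ℝ) < m := by exact_mod_cast (by omega : 0 < m)
      have e1 : ∑ l ∈ Ioc (N / m) b, EE q g (m * l) = ∑ h ∈ (SS q).erase 0, cf q g h *
          ∑ l ∈ Ioc (N / m) b, ee ((l : ℝ) * (m * ((h : ℝ) / q))) := by
        rw [sum_congr rfl (fun l _ => EE_eq hq hg (m * l)), sum_comm]
        apply sum_congr rfl; intro h _
        rw [mul_sum]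
        apply sum_congr rfl; intro l _
        congr 2
        push_cast; ring
      rw [e1]
      refine (norm_sum_le _ _).trans (sum_le_sum fun h _ => ?_)
      rw [norm_mul]
      apply mul_le_mul_of_nonneg_left _ (norm_nonneg _)
      have e2 : Ioc (N / m) b = Ico (N / m + 1) (b + 1) := by ext x; rw [mem_Ioc, mem_Ico]; omega
      rw [e2]
      rcases le_or_gt (N / m + 1) (b + 1) with h' | h'
      · apply geo_bound _ _ h'
        push_cast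
        have h1 : (b : ℝ) ≤ 2 * N / m := by
          have h2 : (b : ℝ) ≤ ((N' / m : ℕ) : ℝ) := by exact_mod_cast hb
          have h3 : ((N' / m : ℕ) : ℝ) ≤ N' / m := Nat.cast_div_le
          have h4 : (N' : ℝ) / m ≤ 2 * N / m := by
            apply div_le_div_of_nonneg_right _ hm0.le
            exact_mod_cast hN'
          linarith
        have h5 : (0 : ℝ) ≤ ((N / m : ℕ) : ℝ) := Nat.cast_nonneg _
        linarith
      · rw [Ico_eq_empty_of_le h'.le, sum_empty, norm_zero]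
        exact KK_nonneg (by positivity) _) (by
      intro a b α β hα0 hβ0 M L hM hL hM2 hL2 hML hA hB
      exact typeII_sup_fin hq hg hP0 hV hρ hT0 hA1 hA3 N N' U hN' hU (fun k hk1 hk2 => hT k hk1 (by omega))
        a b α β hα0 hβ0 M L hM2 hL2 hML hA hB)
  refine key.trans ?_
  apply add_le_add le_rfl
  apply mul_le_mul_of_nonneg_left _ (by positivity)
  exact typeI_tot1 hq hP0 hV hA1 N (U * U) hN (Nat.mul_pos hU hU)

end

end Pool.Agent.K3h35.LB
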