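import Mathlib
import Pool.Agent.K3h35.MP.F
import Pool.Agent.K3h35.LB.C

/-! From blocks to intervals, and smoothing. -/

set_option autoImplicit false

namespace Pool.Agent.K3h35.LB

open Finset
open Pool.Agent.H807R2.Dav
open Pool.Agent.K3h35.MP

/-- the bound for one block -/
noncomputable def BS (A1 A3 P ρ T : ℝ) (q X U : ℕ) : ℝ :=
  4 * (1 + Real.log (4 * X)) ^ 3 * T * √(RS A1 A3 (JJ q * (8 * P)) ρ T q X U) +
      3 * (1 + Real.log (4 * X)) * (600 * (Nat.log 2 (U * U) + 1 : ℝ) * (1 + Real.log q) *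
        (X / q * (JJ q * (4 * √(P * (q * (1 + Real.log q))))) + ((U * U : ℕ) + q) * A1))

lemma BS_mono {A1 A3 P ρ T : ℝ} {q N X U : ℕ} (hq : 1 ≤ q) (hA1 : 0 ≤ A1) (hA3 : 0 ≤ A3) (hP0 : 0 ≤ P) (hρ0 : 0 ≤ ρ)
    (hT0 : 0 ≤ T) (hN : 1 ≤ N) (hNX : N ≤ X) : BS A1 A3 P ρ T q N U ≤ BS A1 A3 P ρ T q X U := by
  unfold BS
  have hlg : 0 ≤ Real.log q := Real.log_nonneg (by exact_mod_cast hq)
  have h1 : (N : ℝ) ≤ X := by exact_mod_cast hNX
  have hN0 : (1 : ℝ) ≤ N := by exact_mod_cast hN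
  have h3 : Real.log (4 * (N : ℝ)) ≤ Real.log (4 * (X : ℝ)) := Real.log_le_log (by linarith) (by linarith)
  have h4 : 0 ≤ Real.log (4 * (N : ℝ)) := Real.log_nonneg (by linarith)
  have h4' : 0 ≤ Real.log (4 * (X : ℝ)) := h4.trans h3
  have h5 : √(N : ℝ) ≤ √(X : ℝ) := Real.sqrt_le_sqrt h1
  have h2 : √(RS A1 A3 (JJ q * (8 * P)) ρ T q N U) ≤ √(RS A1 A3 (JJ q * (8 * P)) ρ T q X U) := by
    apply Real.sqrt_le_sqrt
    unfold RS
    gcongr
  gcongr

lemma BS_nonneg {A1 A3 P ρ T : ℝ} {q X U : ℕ} (hq : 1 ≤ q) (hA1 : 0 ≤ A1) (hT0 : 0 ≤ T) (hX : 1 ≤ X) :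
    0 ≤ BS A1 A3 P ρ T q X U := by
  unfold BS
  have hlg : 0 ≤ Real.log q := Real.log_nonneg (by exact_mod_cast hq)
  have hX0 : (1 : ℝ) ≤ X := by exact_mod_cast hX
  have h4 : 0 ≤ Real.log (4 * (X : ℝ)) := Real.log_nonneg (by linarith)
  positivity

/-- several blocks -/
lemma blocks_gen {E : ℕ → ℂ} {X U : ℕ} (hU : 1 ≤ U) {D : ℝ} (hD0 : 0 ≤ D)
    (one : ∀ N N₂ : ℕ, U * U ≤ N → N ≤ N₂ → N₂ ≤ 2 * N → N₂ ≤ X →
      ‖∑ n ∈ Ioc N N₂, ((ArithmeticFunction.vonMangoldt n : ℝ) : ℂ) * E n‖ ≤ D) (r : ℕ) :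
    ∀ N N' : ℕ, U * U ≤ N → N ≤ N' → N' ≤ X → N' ≤ 2 ^ r * N →
    ‖∑ n ∈ Ioc N N', ((ArithmeticFunction.vonMangoldt n : ℝ) : ℂ) * E n‖ ≤ r * D := by
  induction r with
  | zero =>
    intro N N' _ h1 _ h2
    have : N' = N := by omega
    rw [this]
    simp
  | succ r ih =>
    intro N N' h0 h1 h2 h3
    rcases Nat.le_total N' (2 * N) with h | h
    · refine (one N N' h0 h1 h h2).trans ?_
      push_cast
      have : (0 : ℝ) ≤ r := Nat.cast_nonneg _
      nlinarith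
    · have h4 := one N (2 * N) h0 (by omega) le_rfl (h.trans h2)
      have h5 := ih (2 * N) N' (by omega) h h2 (by rw [pow_succ] at h3; nlinarith)
      have e : ∑ n ∈ Ioc N N', ((ArithmeticFunction.vonMangoldt n : ℝ) : ℂ) * E n =
          ∑ n ∈ Ioc N (2 * N), ((ArithmeticFunction.vonMangoldt n : ℝ) : ℂ) * E n +
          ∑ n ∈ Ioc (2 * N) N', ((ArithmeticFunction.vonMangoldt n : ℝ) : ℂ) * E n :=
        (sum_Ioc_consecutive _ (by omega) h).symm
      rw [e]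
      refine (norm_add_le _ _).trans ?_
      push_cast
      linarith

/-- all intervals -/
lemma intervals_gen {E : ℕ → ℂ} {X U : ℕ} (hU : 1 ≤ U) {D : ℝ} (hD0 : 0 ≤ D)
    (one : ∀ N N₂ : ℕ, U * U ≤ N → N ≤ N₂ → N₂ ≤ 2 * N → N₂ ≤ X →
      ‖∑ n ∈ Ioc N N₂, ((ArithmeticFunction.vonMangoldt n : ℝ) : ℂ) * E n‖ ≤ D) (hE : ∀ n, ‖E n‖ ≤ 2)
    (N N' : ℕ) (hNN' : N ≤ N') (hN' : N' ≤ X) :
    ‖∑ n ∈ Ioc N N', ((ArithmeticFunction.vonMangoldt n : ℝ) : ℂ) * E n‖ ≤
      12 * (U * U : ℕ) + (Nat.log 2 X + 1 : ℝ) * D := by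
  have hUU : 1 ≤ U * U := Nat.mul_pos hU hU
  have small : ∀ a c : ℕ, c ≤ U * U →
      ‖∑ n ∈ Ioc a c, ((ArithmeticFunction.vonMangoldt n : ℝ) : ℂ) * E n‖ ≤ 12 * (U * U : ℕ) := by
    intro a c hc
    calc ‖∑ n ∈ Ioc a c, ((ArithmeticFunction.vonMangoldt n : ℝ) : ℂ) * E n‖
        ≤ ∑ n ∈ Ioc a c, ArithmeticFunction.vonMangoldt n * 2 := by
          refine (norm_sum_le _ _).trans (sum_le_sum fun n _ => ?_)
          rw [norm_mul, Complex.norm_real, Real.norm_of_nonneg ArithmeticFunction.vonMangoldt_nonneg]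
          exact mul_le_mul_of_nonneg_left (hE n) ArithmeticFunction.vonMangoldt_nonneg
      _ ≤ ∑ n ∈ Ioc 0 (U * U), ArithmeticFunction.vonMangoldt n * 2 := by
          apply sum_le_sum_of_subset_of_nonneg
          · intro n hn
            rw [mem_Ioc] at hn ⊢
            omega
          · intro n _ _
            have := ArithmeticFunction.vonMangoldt_nonneg (n := n)
            positivity
      _ = 2 * Chebyshev.psi ((U * U : ℕ) : ℝ) := by
          rw [← sum_mul, Chebyshev.psi, Nat.floor_natCast]; ring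
      _ ≤ 2 * ((Real.log 4 + 4) * ((U * U : ℕ) : ℝ)) := by
          apply mul_le_mul_of_nonneg_left _ (by norm_num)
          exact Chebyshev.psi_le_const_mul_self (Nat.cast_nonneg _)
      _ ≤ 12 * (U * U : ℕ) := by
          have h1 : Real.log 4 ≤ 2 := by
            have h1 : Real.log 4 = 2 * Real.log 2 := by
              rw [show (4 : ℝ) = 2 ^ 2 by norm_num, Real.log_pow]; push_cast; ring
            have := Real.log_two_lt_d9
            linarith
          have h2 : (0 : ℝ) ≤ ((U * U : ℕ) : ℝ) := Nat.cast_nonneg _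
          nlinarith
  have large : ∀ a c : ℕ, U * U ≤ a → a ≤ c → c ≤ X →
      ‖∑ n ∈ Ioc a c, ((ArithmeticFunction.vonMangoldt n : ℝ) : ℂ) * E n‖ ≤ (Nat.log 2 X + 1 : ℝ) * D := by
    intro a c h1 h2 h3
    have h4 := blocks_gen hU hD0 one (Nat.log 2 X + 1) a c h1 h2 h3 (by
      have h5 : X < 2 ^ (Nat.log 2 X + 1) := Nat.lt_pow_succ_log_self (by norm_num) _
      have h6 : 2 ^ (Nat.log 2 X + 1) ≤ 2 ^ (Nat.log 2 X + 1) * a := Nat.le_mul_of_pos_right _ (by omega)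
      omega)
    push_cast at h4
    exact h4
  have hl0 : 0 ≤ (Nat.log 2 X + 1 : ℝ) * D := by positivity
  rcases Nat.le_total N' (U * U) with h | h
  · have := small N N' h
    linarith
  rcases Nat.le_total (U * U) N with h' | h'
  · have := large N N' h' hNN' hN'
    have h2 : (0 : ℝ) ≤ ((U * U : ℕ) : ℝ) := Nat.cast_nonneg _
    linarith
  · have h1 := small N (U * U) le_rfl
    have h2 := large (U * U) N' le_rfl h hN'
    have e : ∑ n ∈ Ioc N N', ((ArithmeticFunction.vonMangoldt n : ℝ) : ℂ) * E n =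
        ∑ n ∈ Ioc N (U * U), ((ArithmeticFunction.vonMangoldt n : ℝ) : ℂ) * E n +
        ∑ n ∈ Ioc (U * U) N', ((ArithmeticFunction.vonMangoldt n : ℝ) : ℂ) * E n :=
      (sum_Ioc_consecutive _ h' h).symm
    rw [e]
    refine (norm_add_le _ _).trans ?_
    linarith

/-- averages over short intervals -/
noncomputable def gS (g : ℕ → ℝ) (S n : ℕ) : ℝ := (1 / (S : ℝ)) * ∑ s ∈ range S, g (n + s)

section
variable {q S : ℕ} {g : ℕ → ℝ} {P ρ T A1 A3 : ℝ}

lemma gS_per (hg : ∀ n, g (n + q) = g n) (n : ℕ) : gS g S (n + q) = gS g S n := by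
  unfold gS
  congr 1
  apply sum_congr rfl
  intro s _
  rw [show n + q + s = (n + s) + q by ring, hg]

lemma cf_shift' (hq : 1 ≤ q) (hg : ∀ n, g (n + q) = g n) (t : ℕ) (h : ℤ) :
    cf q (fun n => g (n + t)) h = cf q g h * ee ((h : ℝ) * ((t : ℝ) / q)) := by
  have h1 := cf_shift hq hg t h
  have h2 : cf q (fun n => g (n + t) - g n) h = cf q (fun n => g (n + t)) h - cf q g h := by
    unfold cf
    rw [← mul_sub, ← sum_sub_distrib]
    congr 1
    apply sum_congr rfl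
    intro n _
    push_cast
    ring
  rw [h2] at h1
  linear_combination h1

lemma cf_gS (hq : 1 ≤ q) (hg : ∀ n, g (n + q) = g n) (h : ℤ) :
    cf q (gS g S) h = cf q g h * ((1 / (S : ℂ)) * ∑ s ∈ range S, ee ((s : ℝ) * ((h : ℝ) / q))) := by
  have e1 : cf q (gS g S) h = (1 / (S : ℂ)) * ∑ s ∈ range S, cf q (fun n => g (n + s)) h := by
    unfold cf gS
    rw [← mul_sum, mul_left_comm, sum_comm]
    congr 1
    rw [mul_sum]
    apply sum_congr rfl
    intro n _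
    push_cast
    rw [← sum_mul]
    ring
  rw [e1]
  have e2 : ∀ s ∈ range S, cf q (fun n => g (n + s)) h = cf q g h * ee ((s : ℝ) * ((h : ℝ) / q)) := by
    intro s _
    rw [cf_shift' hq hg]
    congr 2
    ring
  rw [sum_congr rfl e2, ← mul_sum]
  ring

lemma avg_le_one (x : ℝ) : ‖(1 / (S : ℂ)) * ∑ s ∈ range S, ee ((s : ℝ) * x)‖ ≤ 1 := by
  rcases Nat.eq_zero_or_pos S with h | h
  · subst h; simp
  rw [norm_mul, norm_div, norm_one, Complex.norm_natCast]
  have h1 : ‖∑ s ∈ range S, ee ((s : ℝ) * x)‖ ≤ S := by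
    refine (norm_sum_le _ _).trans ?_
    simp only [norm_ee, sum_const, card_range, nsmul_eq_mul, mul_one]
    exact le_rfl
  have hS : (0 : ℝ) < S := by exact_mod_cast h
  rw [one_div_mul_eq_div, div_le_one hS]
  exact h1

lemma dd_freq (hq : 1 ≤ q) {h : ℤ} (hh : h ∈ SS q) : 4 * (h.natAbs : ℝ) / q ≤ dd ((h : ℝ) / q) := by
  have hq0 : (0 : ℝ) < q := by exact_mod_cast hq
  have habs := SS_abs hq hh
  have e1 : dd ((h : ℝ) / q) = dd ((h.natAbs : ℝ) / q) := by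
    rcases Int.natAbs_eq h with h' | h'
    · congr 1
      conv_lhs => rw [h']
      push_cast
      simp
    · rw [← dd_neg]
      congr 1
      conv_lhs => rw [h']
      push_cast
      simp
      ring
  rw [e1]
  have hx1 : (h.natAbs : ℝ) / q ≤ 1 / 2 := by
    rw [div_le_div_iff₀ hq0 (by norm_num), one_mul]
    have h3 : h.natAbs * 2 ≤ q := by omega
    exact_mod_cast h3
  have hx0 : 0 ≤ (h.natAbs : ℝ) / q := by positivity
  have h4 := dd_ge (t := (h.natAbs : ℝ) / q) hx0 (by linarith)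
  rw [min_eq_left (by linarith)] at h4
  rw [mul_div_assoc]
  exact h4

lemma avg_decay (hq : 1 ≤ q) (hS : 1 ≤ S) {h : ℤ} (hh : h ∈ SS q) :
    (h.natAbs : ℝ) * ‖(1 / (S : ℂ)) * ∑ s ∈ range S, ee ((s : ℝ) * ((h : ℝ) / q))‖ ≤ 3 * q / (4 * S) := by
  have hq0 : (0 : ℝ) < q := by exact_mod_cast hq
  have hS0 : (0 : ℝ) < S := by exact_mod_cast hS
  rcases Nat.eq_zero_or_pos h.natAbs with h0 | h0
  · rw [h0, Nat.cast_zero, zero_mul]; positivity
  have hn0 : (0 : ℝ) < h.natAbs := by exact_mod_cast h0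
  rw [norm_mul, norm_div, norm_one, Complex.norm_natCast]
  have h1 : ‖∑ s ∈ range S, ee ((s : ℝ) * ((h : ℝ) / q))‖ ≤ KK S ((h : ℝ) / q) := by
    have := geo_bound 0 S (Nat.zero_le _) (M := (S : ℝ)) (by simp) ((h : ℝ) / q)
    rw [← range_eq_Ico] at this
    exact this
  have h2 := KK_le' (M := (S : ℝ)) hS0.le (show 0 < 4 * (h.natAbs : ℝ) / q by positivity) (dd_freq hq hh)
  calc (h.natAbs : ℝ) * (1 / S * ‖∑ s ∈ range S, ee ((s : ℝ) * ((h : ℝ) / q))‖)
      ≤ (h.natAbs : ℝ) * (1 / S * (3 / (4 * (h.natAbs : ℝ) / q))) := by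
        gcongr
        exact h1.trans h2
    _ = _ := by field_simp

lemma gS_le (hq : 1 ≤ q) (hg : ∀ n, g (n + q) = g n) (h : ℤ) : ‖cf q (gS g S) h‖ ≤ ‖cf q g h‖ := by
  rw [cf_gS hq hg, norm_mul]
  exact mul_le_of_le_one_right (norm_nonneg _) (avg_le_one _)

lemma gS_zero (hq : 1 ≤ q) (hg : ∀ n, g (n + q) = g n) (hS : 1 ≤ S) : cf q (gS g S) 0 = cf q g 0 := by
  rw [cf_gS hq hg]
  have hS0 : (S : ℂ) ≠ 0 := by exact_mod_cast (by omega : S ≠ 0)
  have : ∑ s ∈ range S, ee ((s : ℝ) * (((0 : ℤ) : ℝ) / q)) = S := by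
    simp [ee_zero]
  rw [this]
  field_simp

/-- the smoothing error over one period -/
lemma smooth_err (hg01 : ∀ n, g n = 0 ∨ g n = 1) (hP0 : 0 ≤ P) (hS : 1 ≤ S)
    (hb : ∀ t : ℕ, ∑ n ∈ range q, (g (n + t) - g n) ^ 2 ≤ 2 * P * t) :
    ∑ n ∈ range q, |g n - gS g S n| ≤ 2 * P * S := by
  have hS0 : (0 : ℝ) < S := by exact_mod_cast hS
  have h1 : ∀ n ∈ range q, |g n - gS g S n| ≤ (1 / (S : ℝ)) * ∑ s ∈ range S, (g (n + s) - g n) ^ 2 := by
    intro n _
    have e : g n - gS g S n = (1 / (S : ℝ)) * ∑ s ∈ range S, (g n - g (n + s)) := by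
      unfold gS
      rw [sum_sub_distrib, sum_const, card_range, nsmul_eq_mul]
      field_simp
    rw [e, abs_mul, abs_of_nonneg (by positivity)]
    apply mul_le_mul_of_nonneg_left _ (by positivity)
    refine (abs_sum_le_sum_abs _ _).trans (sum_le_sum fun s _ => ?_)
    rcases hg01 n with h | h <;> rcases hg01 (n + s) with h' | h' <;> rw [h, h'] <;> norm_num
  refine (sum_le_sum h1).trans ?_
  rw [← mul_sum, sum_comm]
  calc (1 / (S : ℝ)) * ∑ s ∈ range S, ∑ n ∈ range q, (g (n + s) - g n) ^ 2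
      ≤ (1 / (S : ℝ)) * ∑ s ∈ range S, 2 * P * S := by
        apply mul_le_mul_of_nonneg_left _ (by positivity)
        apply sum_le_sum
        intro s hs
        refine (hb s).trans ?_
        have : (s : ℝ) ≤ S := by exact_mod_cast (mem_range.1 hs).le
        gcongr
    _ = _ := by
        rw [sum_const, card_range, nsmul_eq_mul]
        field_simp

lemma sum_range_mul' (f : ℕ → ℝ) (m n : ℕ) :
    ∑ x ∈ range (m * n), f x = ∑ t ∈ range n, ∑ x ∈ range m, f (x + m * t) := by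
  induction n with
  | zero => simp
  | succ n ih =>
    rw [Nat.mul_succ, sum_range_add, ih, sum_range_succ]
    congr 1
    apply sum_congr rfl
    intro x _
    congr 1
    ring

lemma long_sum {G : ℕ → ℝ} (hq : 1 ≤ q) (hG : ∀ n, G (n + q) = G n) (hG0 : ∀ n, 0 ≤ G n) (X N N' : ℕ) (hN' : N' ≤ X) :
    ∑ n ∈ Ioc N N', G n ≤ ((X : ℝ) / q + 1) * ∑ n ∈ range q, G n := by
  have hq0 : (0 : ℝ) < q := by exact_mod_cast hq
  have h1 : Ioc N N' ⊆ range (q * (X / q + 1)) := by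
    intro n hn
    rw [mem_Ioc] at hn
    rw [mem_range]
    have := Nat.lt_mul_div_succ X (show 0 < q by omega)
    omega
  refine (sum_le_sum_of_subset_of_nonneg h1 (fun _ _ _ => hG0 _)).trans ?_
  rw [sum_range_mul']
  have h2 : ∀ t ∈ range (X / q + 1), ∑ x ∈ range q, G (x + q * t) = ∑ x ∈ range q, G x := by
    intro t _
    apply sum_congr rfl
    intro x _
    have hper : Function.Periodic G q := hG
    have := hper.nat_mul t x
    rw [mul_comm q t]
    exact_mod_cast this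
  rw [sum_congr rfl h2, sum_const, card_range, nsmul_eq_mul]
  apply mul_le_mul_of_nonneg_right _ (sum_nonneg fun _ _ => hG0 _)
  push_cast
  have : ((X / q : ℕ) : ℝ) ≤ X / q := Nat.cast_div_le
  linarith

end

end Pool.Agent.K3h35.LB
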