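import Mathlib
import Pool.Agent.K3h35.LB.D

/-! Patterns with a small Fourier norm. -/

set_option autoImplicit false

namespace Pool.Agent.K3h35.LB

open Finset
open Pool.Agent.H807R2.Dav
open Pool.Agent.K3h35.MP

/-- the exponential sum of the pattern -/
noncomputable def wI (I : Finset ℕ) (H : ℕ) (n : ℕ) : ℝ := ‖∑ c ∈ I, ee ((n : ℝ) * ((c : ℝ) / H))‖

section
variable {I : Finset ℕ} {B H : ℕ}

lemma wI_per (hH : 1 ≤ H) (n t : ℕ) : wI I H (n + H * t) = wI I H n := by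
  unfold wI
  congr 1
  apply sum_congr rfl
  intro c _
  have hH0 : (H : ℝ) ≠ 0 := by exact_mod_cast (by omega : H ≠ 0)
  have : (((n + H * t : ℕ) : ℝ)) * ((c : ℝ) / H) = (n : ℝ) * ((c : ℝ) / H) + ((t * c : ℕ) : ℤ) := by
    push_cast
    field_simp
  rw [this, ee_add_int]

/-- sums against the indicator of the pattern -/
lemma gI_sum_mul (hB : 1 ≤ B) (hI : I ⊆ range H) (φ : ℕ → ℂ) :
    ∑ n ∈ range (B * H), ((gI I B H n : ℝ) : ℂ) * φ n = ∑ c ∈ I, ∑ r ∈ range B, φ (B * c + r) := by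
  classical
  rw [← sum_product' I (range B) (fun c r => φ (B * c + r))]
  have h0 : ∑ n ∈ range (B * H), ((gI I B H n : ℝ) : ℂ) * φ n =
      ∑ n ∈ (range (B * H)).filter (fun n => (n / B) % H ∈ I), φ n := by
    rw [sum_filter]
    apply sum_congr rfl
    intro n _
    unfold gI
    split_ifs <;> simp
  rw [h0]
  symm
  apply sum_nbij' (fun p : ℕ × ℕ => B * p.1 + p.2) (fun n => (n / B, n % B))
  · rintro ⟨c, r⟩ hp
    rw [mem_product, mem_range] at hp
    have hc := mem_range.1 (hI hp.1)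
    have hr : r < B := hp.2
    have hc' : c ∈ I := hp.1
    rw [mem_filter, mem_range]
    have h4 : (B * c + r) / B = c := by
      rw [Nat.mul_add_div (by omega), Nat.div_eq_of_lt hr, add_zero]
    simp only
    rw [h4, Nat.mod_eq_of_lt hc]
    refine ⟨?_, hc'⟩
    calc B * c + r < B * c + B := by omega
      _ = B * (c + 1) := by ring
      _ ≤ B * H := Nat.mul_le_mul_left _ hc
  · intro n hn
    rw [mem_filter, mem_range] at hn
    have h3 : n / B < H := Nat.div_lt_of_lt_mul hn.1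
    rw [Nat.mod_eq_of_lt h3] at hn
    rw [mem_product, mem_range]
    exact ⟨hn.2, Nat.mod_lt _ (by omega)⟩
  · rintro ⟨c, r⟩ hp
    rw [mem_product, mem_range] at hp
    have hr : r < B := hp.2
    simp only
    rw [Nat.mul_add_div (by omega), Nat.div_eq_of_lt hr, add_zero, Nat.mul_add_mod, Nat.mod_eq_of_lt hr]
  · intro n _
    exact Nat.div_add_mod n B
  · intro p _
    rfl

lemma cf_gI (hB : 1 ≤ B) (hH : 1 ≤ H) (hI : I ⊆ range H) (h : ℤ) :
    ‖cf (B * H) (gI I B H) h‖ = (1 / ((B : ℝ) * H)) * (wI I H h.natAbs * ‖∑ r ∈ range B, ee ((r : ℝ) * ((h : ℝ) / (B * H : ℕ)))‖) := by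
  have hB0 : (B : ℝ) ≠ 0 := by exact_mod_cast (by omega : B ≠ 0)
  have hH0 : (H : ℝ) ≠ 0 := by exact_mod_cast (by omega : H ≠ 0)
  unfold cf
  rw [gI_sum_mul hB hI (fun n => ee ((h : ℝ) * (-(n : ℝ) / (B * H : ℕ))))]
  have e1 : ∀ c ∈ I, ∀ r ∈ range B, ee ((h : ℝ) * (-((B * c + r : ℕ) : ℝ) / (B * H : ℕ))) =
      ee (-((h : ℝ) * ((c : ℝ) / H))) * ee (-((r : ℝ) * ((h : ℝ) / (B * H : ℕ)))) := by
    intro c _ r _
    rw [← ee_add]
    congr 1
    push_cast
    field_simp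
    ring
  rw [sum_congr rfl (fun c hc => sum_congr rfl (fun r hr => e1 c hc r hr))]
  have e2 : ∑ c ∈ I, ∑ r ∈ range B, ee (-((h : ℝ) * ((c : ℝ) / H))) * ee (-((r : ℝ) * ((h : ℝ) / (B * H : ℕ)))) =
      (∑ c ∈ I, ee (-((h : ℝ) * ((c : ℝ) / H)))) * ∑ r ∈ range B, ee (-((r : ℝ) * ((h : ℝ) / (B * H : ℕ)))) := by
    rw [sum_mul_sum]
  rw [e2, norm_mul, norm_mul]
  have hconj : ∀ (s : Finset ℕ) (f : ℕ → ℝ), ‖∑ c ∈ s, ee (-(f c))‖ = ‖∑ c ∈ s, ee (f c)‖ := by
    intro s f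
    rw [← RCLike.norm_conj (∑ c ∈ s, ee (f c)), map_sum]
    congr 1
    apply sum_congr rfl
    intro c _
    exact (Pool.Agent.H373R2.T7.ee_conj' _).symm
  rw [hconj, hconj]
  have e3 : ‖∑ c ∈ I, ee ((h : ℝ) * ((c : ℝ) / H))‖ = wI I H h.natAbs := by
    unfold wI
    rcases Int.natAbs_eq h with h' | h'
    · congr 1
      apply sum_congr rfl
      intro c _
      congr 2
      conv_lhs => rw [h']
      simp
    · rw [← hconj]
      congr 1
      apply sum_congr rfl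
      intro c _
      congr 1
      have : (h : ℝ) = -((h.natAbs : ℕ) : ℝ) := by
        conv_lhs => rw [h']
        simp
      rw [this]
      ring
  rw [e3, norm_div, norm_one, Complex.norm_natCast]
  push_cast
  ring

/-- the sum of the Fourier coefficients of the pattern -/
lemma A1_bound (hB : 1 ≤ B) (hH : 1 ≤ H) (hI : I ⊆ range H) {A : ℝ} (hA0 : 0 ≤ A)
    (hA : ∑ n ∈ range H, wI I H n ≤ A * H) :
    ∑ h ∈ (SS (B * H)).erase 0, ‖cf (B * H) (gI I B H) h‖ ≤ 6 * A * (2 + Real.log (B + 1)) := by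
  classical
  have hq : 1 ≤ B * H := Nat.mul_pos hB hH
  have hB0 : (0 : ℝ) < B := by exact_mod_cast hB
  have hH0 : (0 : ℝ) < H := by exact_mod_cast hH
  set φ : ℕ → ℝ := fun r => if r = 0 then 1 else 1 / (r : ℝ) with hφ
  have hφ0 : ∀ r, 0 ≤ φ r := by intro r; simp only [hφ]; split_ifs <;> positivity
  have h1 : ∀ h ∈ (SS (B * H)).erase 0, ‖cf (B * H) (gI I B H) h‖ ≤
      (3 / H) * (wI I H h.natAbs * φ (h.natAbs / H)) := by
    intro h hh
    rw [mem_erase] at hh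
    have hn0 : (0 : ℝ) < h.natAbs := by exact_mod_cast Int.natAbs_pos.2 hh.1
    rw [cf_gI hB hH hI]
    have hw : 0 ≤ wI I H h.natAbs := norm_nonneg _
    have hg : ‖∑ r ∈ range B, ee ((r : ℝ) * ((h : ℝ) / (B * H : ℕ)))‖ ≤ KK B ((h : ℝ) / (B * H : ℕ)) := by
      have := geo_bound 0 B (Nat.zero_le _) (M := (B : ℝ)) (by simp) ((h : ℝ) / (B * H : ℕ))
      rw [← range_eq_Ico] at this
      exact this
    have hg2 : ‖∑ r ∈ range B, ee ((r : ℝ) * ((h : ℝ) / (B * H : ℕ)))‖ ≤ 3 * B * φ (h.natAbs / H) := by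
      by_cases hr : h.natAbs / H = 0
      · simp only [hφ]
        rw [if_pos hr, mul_one]
        exact hg.trans (KK_le hB0.le _)
      · simp only [hφ]
        rw [if_neg hr]
        have hr0 : (0 : ℝ) < ((h.natAbs / H : ℕ) : ℝ) := by exact_mod_cast Nat.pos_of_ne_zero hr
        have h2 := KK_le' (M := (B : ℝ)) hB0.le (show 0 < 4 * (h.natAbs : ℝ) / (B * H : ℕ) by
          push_cast; positivity) (dd_freq hq hh.2)
        have h3 : ((h.natAbs / H : ℕ) : ℝ) ≤ (h.natAbs : ℝ) / H := Nat.cast_div_le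
        have h4 : ((h.natAbs / H : ℕ) : ℝ) * H ≤ h.natAbs := by rwa [le_div_iff₀ hH0] at h3
        refine (hg.trans h2).trans ?_
        push_cast
        rw [div_div_eq_mul_div, mul_one_div, div_le_div_iff₀ (by positivity) hr0]
        calc 3 * ((B : ℝ) * H) * ((h.natAbs / H : ℕ) : ℝ) = 3 * B * (((h.natAbs / H : ℕ) : ℝ) * H) := by ring
          _ ≤ 3 * B * h.natAbs := by gcongr
          _ ≤ 3 * B * (4 * h.natAbs) := by nlinarith
    calc 1 / ((B : ℝ) * H) * (wI I H h.natAbs * ‖∑ r ∈ range B, ee ((r : ℝ) * ((h : ℝ) / (B * H : ℕ)))‖)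
        ≤ 1 / ((B : ℝ) * H) * (wI I H h.natAbs * (3 * B * φ (h.natAbs / H))) := by gcongr
      _ = _ := by field_simp
  refine (sum_le_sum h1).trans ?_
  rw [← mul_sum]
  have h2 := fold_nat (F_prop hq) (fun n => wI I H n * φ (n / H)) (fun n => mul_nonneg (norm_nonneg _) (hφ0 _))
  have h3 : ∑ n ∈ Icc 1 (B * H), wI I H n * φ (n / H) ≤ ∑ n ∈ range (H * (B + 1)), wI I H n * φ (n / H) := by
    apply sum_le_sum_of_subset_of_nonneg
    · intro n hn
      rw [mem_Icc] at hn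
      rw [mem_range, Nat.mul_succ, mul_comm H B]
      omega
    · intro n _ _; exact mul_nonneg (norm_nonneg _) (hφ0 _)
  rw [sum_range_mul'] at h3
  have h4 : ∀ t ∈ range (B + 1), ∑ x ∈ range H, wI I H (x + H * t) * φ ((x + H * t) / H) ≤ A * H * φ t := by
    intro t _
    have e : ∀ x ∈ range H, wI I H (x + H * t) * φ ((x + H * t) / H) = wI I H x * φ t := by
      intro x hx
      rw [wI_per hH, Nat.add_mul_div_left _ _ (by omega), Nat.div_eq_of_lt (mem_range.1 hx), zero_add]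
    rw [sum_congr rfl e, ← sum_mul]
    exact mul_le_mul_of_nonneg_right hA (hφ0 _)
  have h5 : ∑ t ∈ range (B + 1), φ t ≤ 2 + Real.log (B + 1) := by
    have h6 := sum_inv_range (B + 1)
    push_cast at h6
    have h7 : ∑ t ∈ range (B + 1), φ t = ∑ t ∈ range (B + 1), (1 / (t : ℝ)) + 1 := by
      rw [sum_range_succ', sum_range_succ' (fun t : ℕ => 1 / (t : ℝ))]
      simp only [hφ, if_true, Nat.cast_zero, div_zero, add_zero]
      congr 1
    rw [h7]
    linarith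
  calc 3 / (H : ℝ) * ∑ h ∈ (SS (B * H)).erase 0, wI I H h.natAbs * φ (h.natAbs / H)
      ≤ 3 / (H : ℝ) * (2 * ∑ t ∈ range (B + 1), A * H * φ t) := by
        apply mul_le_mul_of_nonneg_left _ (by positivity)
        refine h2.trans (mul_le_mul_of_nonneg_left (h3.trans (sum_le_sum h4)) (by norm_num))
    _ = 6 * A * ∑ t ∈ range (B + 1), φ t := by
        rw [← mul_sum]; field_simp; ring
    _ ≤ _ := by gcongr

end

/-- all patterns, with the sum of the Fourier coefficients -/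
theorem patterns_sup {I : Finset ℕ} {B H : ℕ} (hB : 1 ≤ B) (hH : 1 ≤ H) (hI : I ⊆ range H) {T : ℝ} (hT0 : 0 ≤ T)
    (X U S : ℕ) (hU : 1 ≤ U) (hUX : U * U ≤ X) (hS : 1 ≤ S)
    (hT : ∀ k : ℕ, 1 ≤ k → k ≤ B * H + 4 * X → (k.divisors.card : ℝ) ≤ T) {A1 : ℝ}
    (hA1 : ∑ h ∈ (SS (B * H)).erase 0, ‖cf (B * H) (gI I B H) h‖ ≤ A1)
    (N N' : ℕ) (hNN' : N ≤ N') (hN' : N' ≤ X) :
    |(((Ioc N N').filter (fun p => p.Prime ∧ (p / B) % H ∈ I)).card : ℝ) -
      ((I.card : ℝ) / H) * (((Ioc N N').filter Nat.Prime).card : ℝ)| ≤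
      5 * (Real.log X * ((X : ℝ) / (B * H : ℕ) + 1) * (2 * I.card * S) + (12 * (U * U : ℕ) + (Nat.log 2 X + 1 : ℝ) *
        BS A1 (3 * (B * H : ℕ) / (4 * S) * A1) I.card ((I.card : ℝ) / H) T (B * H) X U)) +
        3 * (√X * Real.log X) := by
  classical
  have hq : 1 ≤ B * H := Nat.mul_pos hB hH
  have hcard : (I.card : ℝ) ≤ H := by
    have := card_le_card hI
    rw [card_range] at this
    exact_mod_cast this
  have hH0 : (0 : ℝ) < H := by exact_mod_cast hH
  have hS0 : (0 : ℝ) < S := by exact_mod_cast hS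
  have hX1 : 1 ≤ X := le_trans (Nat.mul_pos hU hU) hUX
  have hρ1 : (I.card : ℝ) / H ≤ 1 := by rw [div_le_one hH0]; exact hcard
  have hρ0 : 0 ≤ (I.card : ℝ) / H := by positivity
  have hP0 : (0 : ℝ) ≤ I.card := Nat.cast_nonneg _
  have hper := gI_per (I := I) (H := H) hB
  have hV : ∀ s : ℕ, ∑ h ∈ Fs (B * H) s, ‖cf (B * H) (gI I B H) h‖ ^ 2 ≤ 4 * (I.card : ℝ) / 2 ^ s :=
    fun s => shell hq hper (fun t _ => gI_boundary hB hI t) hP0 s
  have hA10 : 0 ≤ A1 := le_trans (sum_nonneg fun _ _ => norm_nonneg _) hA1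
  -- the smoothed function
  set G := gS (gI I B H) S with hG
  have hGper : ∀ n, G (n + B * H) = G n := gS_per hper
  have hGle : ∀ h, ‖cf (B * H) G h‖ ≤ ‖cf (B * H) (gI I B H) h‖ := fun h => gS_le hq hper h
  have hVG : ∀ s : ℕ, ∑ h ∈ Fs (B * H) s, ‖cf (B * H) G h‖ ^ 2 ≤ 4 * (I.card : ℝ) / 2 ^ s := by
    intro s
    refine (sum_le_sum fun h _ => ?_).trans (hV s)
    exact pow_le_pow_left₀ (norm_nonneg _) (hGle h) 2
  have hρG : ∑ h ∈ SS (B * H), ‖cf (B * H) G h‖ ^ 2 ≤ (I.card : ℝ) / H := by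
    refine (sum_le_sum fun h _ => ?_).trans (gI_parseval hB hH hI)
    exact pow_le_pow_left₀ (norm_nonneg _) (hGle h) 2
  have hA1G : ∑ h ∈ (SS (B * H)).erase 0, ‖cf (B * H) G h‖ ≤ A1 := (sum_le_sum fun h _ => hGle h).trans hA1
  have hA3G : ∑ h ∈ (SS (B * H)).erase 0, (h.natAbs : ℝ) * ‖cf (B * H) G h‖ ≤ 3 * (B * H : ℕ) / (4 * S) * A1 := by
    calc ∑ h ∈ (SS (B * H)).erase 0, (h.natAbs : ℝ) * ‖cf (B * H) G h‖
        ≤ ∑ h ∈ (SS (B * H)).erase 0, 3 * (B * H : ℕ) / (4 * S) * ‖cf (B * H) (gI I B H) h‖ := by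
          apply sum_le_sum
          intro h hh
          rw [mem_erase] at hh
          rw [hG, cf_gS hq hper, norm_mul]
          have := avg_decay (S := S) hq hS hh.2
          calc (h.natAbs : ℝ) * (‖cf (B * H) (gI I B H) h‖ * ‖(1 / (S : ℂ)) * ∑ s ∈ range S, ee ((s : ℝ) * ((h : ℝ) / (B * H : ℕ)))‖)
              = ((h.natAbs : ℝ) * ‖(1 / (S : ℂ)) * ∑ s ∈ range S, ee ((s : ℝ) * ((h : ℝ) / (B * H : ℕ)))‖) *
                ‖cf (B * H) (gI I B H) h‖ := by ring
            _ ≤ _ := mul_le_mul_of_nonneg_right this (norm_nonneg _)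
      _ ≤ _ := by
          rw [← mul_sum]
          exact mul_le_mul_of_nonneg_left hA1 (by positivity)
  set D := BS A1 (3 * (B * H : ℕ) / (4 * S) * A1) I.card ((I.card : ℝ) / H) T (B * H) X U with hD
  have hA30 : 0 ≤ 3 * ((B * H : ℕ) : ℝ) / (4 * S) * A1 := by positivity
  have hD0 : 0 ≤ D := BS_nonneg hq hA10 hT0 hX1
  set ρ : ℝ := (I.card : ℝ) / H with hρ
  have hmean : cf (B * H) G 0 = ((ρ : ℝ) : ℂ) := by
    rw [hG, gS_zero hq hper hS, gI_mean hB hH hI]
  have hG01 : ∀ n, 0 ≤ G n ∧ G n ≤ 1 := by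
    intro n
    rw [hG]
    unfold gS
    constructor
    · apply mul_nonneg (by positivity) (sum_nonneg fun s _ => gI_nonneg _ _ _ _)
    · rw [one_div_mul_eq_div, div_le_one hS0]
      calc ∑ s ∈ range S, gI I B H (n + s) ≤ ∑ _s ∈ range S, (1 : ℝ) := sum_le_sum fun s _ => gI_le _ _ _ _
        _ = S := by rw [sum_const, card_range, nsmul_eq_mul, mul_one]
  have hEG : ∀ n, EE (B * H) G n = ((G n - ρ : ℝ) : ℂ) := by
    intro n
    unfold EE
    rw [hmean]
    push_cast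
    ring
  have hE2 : ∀ n, ‖EE (B * H) G n‖ ≤ 2 := by
    intro n
    rw [hEG, Complex.norm_real, Real.norm_eq_abs]
    have := hG01 n
    rw [abs_le]
    constructor <;> linarith
  have one : ∀ N N₂ : ℕ, U * U ≤ N → N ≤ N₂ → N₂ ≤ 2 * N → N₂ ≤ X →
      ‖∑ n ∈ Ioc N N₂, ((ArithmeticFunction.vonMangoldt n : ℝ) : ℂ) * EE (B * H) G n‖ ≤ D := by
    intro N N₂ h1 h2 h3 h4
    have hN1 : 1 ≤ N := le_trans (Nat.mul_pos hU hU) h1
    refine (block_sup hq hGper hP0 hVG hρG hT0 hA1G hA3G N N₂ U hN1 h2 h3 hU h1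
      (fun k hk1 hk2 => hT k hk1 (by omega))).trans ?_
    exact BS_mono hq hA10 hA30 hP0 hρ0 hT0 hN1 (h2.trans h4)
  set f : ℕ → ℝ := fun n => gI I B H n - ρ with hf
  have hf1 : ∀ n, |f n| ≤ 1 := by
    intro n
    have h1 := gI_nonneg I B H n
    have h2 := gI_le I B H n
    simp only [hf]
    rw [abs_le]
    constructor <;> linarith
  have hXlog : 0 ≤ Real.log X := Real.log_nonneg (by exact_mod_cast hX1)
  have hInt : ∀ N N' : ℕ, N ≤ N' → N' ≤ X → ‖∑ n ∈ Ioc N N', ((ArithmeticFunction.vonMangoldt n : ℝ) : ℂ) * (f n : ℂ)‖ ≤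
      Real.log X * ((X : ℝ) / (B * H : ℕ) + 1) * (2 * I.card * S) + (12 * (U * U : ℕ) + (Nat.log 2 X + 1 : ℝ) * D) := by
    intro N N' h1 h2
    have e : ∑ n ∈ Ioc N N', ((ArithmeticFunction.vonMangoldt n : ℝ) : ℂ) * (f n : ℂ) =
        ∑ n ∈ Ioc N N', ((ArithmeticFunction.vonMangoldt n : ℝ) : ℂ) * ((gI I B H n - G n : ℝ) : ℂ) +
        ∑ n ∈ Ioc N N', ((ArithmeticFunction.vonMangoldt n : ℝ) : ℂ) * EE (B * H) G n := by
      rw [← sum_add_distrib]
      apply sum_congr rfl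
      intro n _
      rw [hEG]
      simp only [hf]
      push_cast
      ring
    rw [e]
    refine (norm_add_le _ _).trans (add_le_add ?_ (intervals_gen hU hD0 one hE2 N N' h1 h2))
    calc ‖∑ n ∈ Ioc N N', ((ArithmeticFunction.vonMangoldt n : ℝ) : ℂ) * ((gI I B H n - G n : ℝ) : ℂ)‖
        ≤ ∑ n ∈ Ioc N N', Real.log X * |gI I B H n - G n| := by
          refine (norm_sum_le _ _).trans (sum_le_sum fun n hn => ?_)
          rw [mem_Ioc] at hn
          rw [norm_mul, Complex.norm_real, Complex.norm_real, Real.norm_of_nonneg ArithmeticFunction.vonMangoldt_nonneg,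
            Real.norm_eq_abs]
          apply mul_le_mul_of_nonneg_right _ (abs_nonneg _)
          refine ArithmeticFunction.vonMangoldt_le_log.trans (Real.log_le_log ?_ ?_)
          · exact_mod_cast (by omega : 0 < n)
          · exact_mod_cast (by omega : n ≤ X)
      _ = Real.log X * ∑ n ∈ Ioc N N', |gI I B H n - G n| := by rw [mul_sum]
      _ ≤ Real.log X * (((X : ℝ) / (B * H : ℕ) + 1) * ∑ n ∈ range (B * H), |gI I B H n - G n|) := by
          apply mul_le_mul_of_nonneg_left _ hXlog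
          exact long_sum hq (G := fun n => |gI I B H n - G n|) (fun n => by simp only [hper, hGper])
            (fun n => abs_nonneg _) X N N' h2
      _ ≤ Real.log X * (((X : ℝ) / (B * H : ℕ) + 1) * (2 * I.card * S)) := by
          apply mul_le_mul_of_nonneg_left _ hXlog
          apply mul_le_mul_of_nonneg_left _ (by positivity)
          exact smooth_err (fun n => by unfold gI; split_ifs <;> simp) hP0 hS (fun t => gI_boundary hB hI t)
      _ = _ := by ring
  have key := to_primes hf1 hInt N N' hNN' hN' hX1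
  have e : ∑ p ∈ (Ioc N N').filter Nat.Prime, f p =
      (((Ioc N N').filter (fun p => p.Prime ∧ (p / B) % H ∈ I)).card : ℝ) -
      ρ * (((Ioc N N').filter Nat.Prime).card : ℝ) := by
    simp only [hf]
    rw [sum_sub_distrib, sum_const, nsmul_eq_mul]
    have : ∑ x ∈ (Ioc N N').filter Nat.Prime, gI I B H x = (((Ioc N N').filter (fun p => p.Prime ∧ (p / B) % H ∈ I)).card : ℝ) := by
      unfold gI
      rw [← sum_filter, sum_const, nsmul_eq_mul, mul_one, filter_filter]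
    rw [this]
    ring
  rw [e] at key
  exact key

end Pool.Agent.K3h35.LB
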