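import Mathlib
import Pool.Agent.K3h35.LB.E

/-! The Fourier norm of the palindromes. -/

set_option autoImplicit false

namespace Pool.Agent.K3h35.LB

open Finset
open Pool.Agent.H807R2.Dav
open Pool.Agent.K3h35.MP

/-- the exponential sum over the palindromic strings -/
noncomputable def IH (b K : ℕ) (x : ℝ) : ℂ := ∑ c ∈ PI b K, ee ((c : ℝ) * x)

/-- the exponential sum over the digits -/
noncomputable def DB (b : ℕ) (x : ℝ) : ℂ := ∑ d ∈ range b, ee ((d : ℝ) * x)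

lemma IH_per (b K : ℕ) (x : ℝ) (n : ℤ) : IH b K (x + n) = IH b K x := by
  unfold IH
  apply sum_congr rfl
  intro c _
  have : (c : ℝ) * (x + n) = (c : ℝ) * x + ((c * n : ℤ) : ℝ) := by push_cast; ring
  rw [this, ee_add_int]

lemma DB_per (b : ℕ) (x : ℝ) (n : ℤ) : DB b (x + n) = DB b x := by
  unfold DB
  apply sum_congr rfl
  intro c _
  have : (c : ℝ) * (x + n) = (c : ℝ) * x + ((c * n : ℤ) : ℝ) := by push_cast; ring
  rw [this, ee_add_int]

lemma IH_succ {b : ℕ} (hb : 2 ≤ b) (K : ℕ) (x : ℝ) :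
    IH b (K + 2) x = DB b ((1 + (b : ℝ) ^ (K + 1)) * x) * IH b K (b * x) := by
  unfold IH DB
  rw [sum_mul_sum, ← sum_product' (range b) (PI b K)
    (fun d c => ee ((d : ℝ) * ((1 + (b : ℝ) ^ (K + 1)) * x)) * ee ((c : ℝ) * (b * x)))]
  simp only [PI]
  rw [sum_image]
  · apply sum_congr rfl
    rintro ⟨d, c⟩ _
    simp only
    rw [← ee_add]
    congr 1
    push_cast
    ring
  · rintro ⟨d, c⟩ hp ⟨d', c'⟩ hp' h
    rw [mem_coe, mem_product, mem_range] at hp hp'
    simp only at hp hp' h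
    have hc := PI_lt hb K c hp.2
    have hc' := PI_lt hb K c' hp'.2
    have e1 : d = d' := by
      rw [← digit_bot (b := b) (c := c) (K := K) hp.1, h, digit_bot hp'.1]
    subst e1
    have e2 : b * c = b * c' := by omega
    have e3 : c = c' := Nat.eq_of_mul_eq_mul_left (by omega) e2
    rw [e3]

/-- the constant of the digits -/
noncomputable def CC (b : ℕ) : ℝ := 42 + 3 * Real.log b

lemma CC_ge {b : ℕ} (hb : 2 ≤ b) : 1 ≤ CC b := by
  unfold CC
  have : 0 ≤ Real.log b := Real.log_nonneg (by exact_mod_cast (by omega : 1 ≤ b))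
  linarith

lemma DB_sum {b : ℕ} (hb : 2 ≤ b) (y : ℝ) : ∑ t ∈ range b, ‖DB b (y + (t : ℝ) / b)‖ ≤ b * CC b := by
  have h1 : ∀ t ∈ range b, ‖DB b (y + (t : ℝ) / b)‖ ≤ KK b (y + t * (1 / (b : ℝ))) := by
    intro t _
    have := geo_bound 0 b (Nat.zero_le _) (M := (b : ℝ)) (by simp) (y + t * (1 / (b : ℝ)))
    rw [← range_eq_Ico] at this
    unfold DB
    rw [show y + (t : ℝ) / b = y + t * (1 / (b : ℝ)) by ring]
    exact this
  refine (sum_le_sum h1).trans ?_
  have h2 := vino_block (q := b) (by omega) (a := 1) isCoprime_one_left (α := 1 / (b : ℝ)) (by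
    rw [show (1 : ℝ) / b - ((1 : ℤ) : ℝ) / b = 0 by push_cast; ring, abs_zero]; positivity)
    (M := (b : ℝ)) (Nat.cast_nonneg _) y
  refine h2.trans (le_of_eq ?_)
  unfold CC
  ring

/-- the Fourier norm on a grid -/
lemma IH_sum {b : ℕ} (hb : 2 ≤ b) : ∀ (K : ℕ) (θ : ℝ),
    ∑ h ∈ range (b ^ K), ‖IH b K (θ + (h : ℝ) / (b : ℝ) ^ K)‖ ≤ (b : ℝ) ^ K * CC b ^ ((K + 1) / 2)
  | 0, θ => by
    rw [pow_zero, sum_range_one]
    unfold IH
    simp only [PI, sum_singleton, norm_ee]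
    norm_num
  | 1, θ => by
    have h := DB_sum hb θ
    have e : ∀ h ∈ range (b ^ 1), ‖IH b 1 (θ + (h : ℝ) / (b : ℝ) ^ 1)‖ = ‖DB b (θ + (h : ℝ) / b)‖ := by
      intro h _
      unfold IH DB
      simp only [PI, pow_one]
    rw [sum_congr rfl e, pow_one, pow_one]
    simpa using h
  | K + 2, θ => by
    have hb0 : (b : ℝ) ≠ 0 := by exact_mod_cast (by omega : b ≠ 0)
    have hbpos : (0 : ℝ) < b := by exact_mod_cast (by omega : 0 < b)
    have hCC := CC_ge hb
    have e1 : b ^ (K + 2) = b ^ (K + 1) * b := by rw [pow_succ b (K + 1)]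
    rw [e1, sum_range_mul', sum_comm]
    -- the top digit
    have h1 : ∀ h' ∈ range (b ^ (K + 1)), ∑ t ∈ range b, ‖IH b (K + 2) (θ + ((h' + b ^ (K + 1) * t : ℕ) : ℝ) / (b : ℝ) ^ (K + 2))‖ ≤
        (b * CC b) * ‖IH b K (b * θ + (h' : ℝ) / (b : ℝ) ^ (K + 1))‖ := by
      intro h' _
      have h2 : ∀ t ∈ range b, ‖IH b (K + 2) (θ + ((h' + b ^ (K + 1) * t : ℕ) : ℝ) / (b : ℝ) ^ (K + 2))‖ =
          ‖DB b ((1 + (b : ℝ) ^ (K + 1)) * (θ + (h' : ℝ) / (b : ℝ) ^ (K + 2)) + (t : ℝ) / b)‖ *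
            ‖IH b K (b * θ + (h' : ℝ) / (b : ℝ) ^ (K + 1))‖ := by
        intro t _
        have hp1 : (b : ℝ) ^ (K + 2) = b ^ (K + 1) * b := by rw [pow_succ (b : ℝ) (K + 1)]
        have hx : θ + ((h' + b ^ (K + 1) * t : ℕ) : ℝ) / (b : ℝ) ^ (K + 2) =
            θ + (h' : ℝ) / (b : ℝ) ^ (K + 2) + (t : ℝ) / b := by
          push_cast
          rw [hp1]
          field_simp
          ring
        rw [IH_succ hb, norm_mul, hx]
        congr 1
        · have : (1 + (b : ℝ) ^ (K + 1)) * (θ + (h' : ℝ) / (b : ℝ) ^ (K + 2) + (t : ℝ) / b) =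
              (1 + (b : ℝ) ^ (K + 1)) * (θ + (h' : ℝ) / (b : ℝ) ^ (K + 2)) + (t : ℝ) / b + ((b ^ K * t : ℕ) : ℤ) := by
            push_cast
            rw [pow_succ (b : ℝ) K]
            field_simp
            ring
          rw [this, DB_per]
        · have : (b : ℝ) * (θ + (h' : ℝ) / (b : ℝ) ^ (K + 2) + (t : ℝ) / b) =
              b * θ + (h' : ℝ) / (b : ℝ) ^ (K + 1) + ((t : ℕ) : ℤ) := by
            rw [hp1]
            push_cast
            field_simp
          rw [this, IH_per]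
      rw [sum_congr rfl h2, ← sum_mul]
      exact mul_le_mul_of_nonneg_right (DB_sum hb _) (norm_nonneg _)
    refine (sum_le_sum h1).trans ?_
    rw [← mul_sum]
    -- the bottom digit
    have e2 : b ^ (K + 1) = b * b ^ K := by rw [pow_succ]; ring
    rw [e2, sum_range_mul', sum_comm]
    have h3 : ∀ x ∈ range b, ∑ t ∈ range (b ^ K), ‖IH b K (b * θ + ((x + b * t : ℕ) : ℝ) / (b : ℝ) ^ (K + 1))‖ ≤
        (b : ℝ) ^ K * CC b ^ ((K + 1) / 2) := by
      intro x _
      have h4 := IH_sum hb K (b * θ + (x : ℝ) / (b : ℝ) ^ (K + 1))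
      refine le_trans (le_of_eq ?_) h4
      apply sum_congr rfl
      intro t _
      congr 2
      push_cast
      rw [pow_succ (b : ℝ) K]
      field_simp
      ring
    have h5 := sum_le_sum h3
    rw [sum_const, card_range, nsmul_eq_mul] at h5
    calc (b : ℝ) * CC b * ∑ x ∈ range b, ∑ t ∈ range (b ^ K), ‖IH b K (b * θ + ((x + b * t : ℕ) : ℝ) / (b : ℝ) ^ (K + 1))‖
        ≤ (b : ℝ) * CC b * ((b : ℝ) * ((b : ℝ) ^ K * CC b ^ ((K + 1) / 2))) := by
          apply mul_le_mul_of_nonneg_left h5; positivity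
      _ = _ := by
          rw [show (K + 2 + 1) / 2 = (K + 1) / 2 + 1 by omega, pow_succ (b : ℝ) (K + 1), pow_succ (b : ℝ) K,
            pow_succ (CC b)]
          ring

/-- the Fourier norm of the palindromes -/
lemma wI_sum {b : ℕ} (hb : 2 ≤ b) (K : ℕ) :
    ∑ n ∈ range (b ^ K), wI (PI b K) (b ^ K) n ≤ CC b ^ ((K + 1) / 2) * ((b ^ K : ℕ) : ℝ) := by
  have h := IH_sum hb K 0
  rw [mul_comm]
  push_cast
  refine le_trans (le_of_eq ?_) h
  apply sum_congr rfl
  intro n _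
  unfold wI IH
  congr 1
  apply sum_congr rfl
  intro c _
  congr 1
  push_cast
  ring

end Pool.Agent.K3h35.LB
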