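import Mathlib
import Pool.Agent.K3h35.MP.G
import Pool.Agent.K3h35.LB.F

/-! Large bases: the size of the error terms. -/

set_option autoImplicit false

namespace Pool.Agent.K3h35.LB

open Finset Filter
open Pool.Agent.K3h35.MP

/-- the constant of the digits is small for large bases -/
lemma CC_small {ε : ℝ} (hε : 0 < ε) : ∃ b₀ : ℕ, 2 ≤ b₀ ∧ ∀ b : ℕ, b₀ ≤ b → CC b ≤ (b : ℝ) ^ ε := by
  have h1 : Tendsto (fun x : ℝ => (42 + 3 * Real.log x) / x ^ ε) atTop (nhds 0) := by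
    have h2 : Tendsto (fun x : ℝ => Real.log x / x ^ ε) atTop (nhds 0) :=
      (isLittleO_log_rpow_atTop hε).tendsto_div_nhds_zero
    have h3 : Tendsto (fun x : ℝ => x ^ (-ε)) atTop (nhds 0) := tendsto_rpow_neg_atTop hε
    have h4 := (h3.const_mul 42).add (h2.const_mul 3)
    simp only [mul_zero, add_zero] at h4
    refine h4.congr' ?_
    filter_upwards [eventually_gt_atTop 0] with x hx
    rw [Real.rpow_neg hx.le]
    field_simp
  have h2 := (h1.comp tendsto_natCast_atTop_atTop).eventually (gt_mem_nhds zero_lt_one)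
  obtain ⟨b₀, hb₀⟩ := (h2.and (eventually_ge_atTop 2)).exists_forall_of_atTop
  refine ⟨max b₀ 2, le_max_right _ _, fun b hb => ?_⟩
  have h3 := (hb₀ b (le_trans (le_max_left _ _) hb)).1
  have hb0 : (0 : ℝ) < b := by exact_mod_cast (lt_of_lt_of_le (by norm_num) ((le_max_right _ _).trans hb) : 0 < b)
  simp only [Function.comp_apply] at h3
  rw [div_lt_one (Real.rpow_pos_of_pos hb0 _)] at h3
  exact h3.le

/-- the main estimate -/
theorem main_large {b : ℕ} (hb : 2 ≤ b) {ε : ℝ} (hε : 0 < ε) (hC : CC b ≤ (b : ℝ) ^ (ε / 16)) :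
    ∀ᶠ k : ℕ in atTop, ∀ j : ℕ, (1 / 4 + ε) * k ≤ j → 2 * j ≤ k → ∀ N N' : ℕ, N ≤ N' → N' ≤ b ^ k →
    |(((Ioc N N').filter (fun p => p.Prime ∧ (p / b ^ j) % b ^ (k - 2 * j) ∈ PI b (k - 2 * j))).card : ℝ) -
      (1 / (b : ℝ) ^ ((k - 2 * j) / 2)) * (((Ioc N N').filter Nat.Prime).card : ℝ)| ≤
      (b : ℝ) ^ ((1 - ε / 8) * k) / (b : ℝ) ^ ((k - 2 * j) / 2) := by
  have hb1 : (1 : ℝ) < b := by exact_mod_cast (by omega : 1 < b)
  have hb0 : (0 : ℝ) < b := by linarith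
  filter_upwards [div_ev hb (show 0 < ε / 16 by positivity), logs_ev hb,
    ev_poly (160000 * (b : ℝ) ^ (4 : ℝ)) 12 hb1 (show 0 < ε / 8 by positivity),
    eventually_ge_atTop (2 * b + 6)] with k hdiv hlogs hpoly hk2 j hj1 hj2 N N' hNN' hN'
  obtain ⟨K, hK⟩ : ∃ K, K = k - 2 * j := ⟨_, rfl⟩
  rw [← hK]
  have hkK : k = 2 * j + K := by omega
  have hkr : (k : ℝ) = 2 * j + K := by rw [hkK]; push_cast; ring
  have hk0 : 2 * (b : ℝ) + 6 ≤ k := by exact_mod_cast hk2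
  obtain ⟨d, hd⟩ : ∃ d, d = ⌊ε * k⌋₊ := ⟨_, rfl⟩
  have hεk : 0 ≤ ε * k := by positivity
  have hd1 : (d : ℝ) ≤ ε * k := by rw [hd]; exact Nat.floor_le hεk
  have hd2 : ε * k < d + 1 := by rw [hd]; exact Nat.lt_floor_add_one _
  have hd0 : (0 : ℝ) ≤ d := Nat.cast_nonneg _
  have hK0 : (0 : ℝ) ≤ K := Nat.cast_nonneg _
  have hj0 : (0 : ℝ) ≤ j := Nat.cast_nonneg _
  -- 2 j ≥ K + 4 d
  have hjK : (K : ℝ) + 4 * d ≤ 2 * j := by
    have h1 : 4 * ((1 / 4 + ε) * k) ≤ 4 * j := by linarith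
    have h2 : 4 * ((1 / 4 + ε) * k) = k + 4 * (ε * k) := by ring
    rw [h2] at h1
    linarith
  have hjKn : K + 4 * d ≤ 2 * j := by exact_mod_cast hjK
  obtain ⟨β, hβ⟩ : ∃ β : ℝ → ℝ, β = fun x => (b : ℝ) ^ x := ⟨_, rfl⟩
  have hβpos : ∀ x, 0 < β x := fun x => by rw [hβ]; exact Real.rpow_pos_of_pos hb0 x
  have hβadd : ∀ x y, β (x + y) = β x * β y := fun x y => by rw [hβ]; exact Real.rpow_add hb0 x y
  have hβmono : ∀ x y, x ≤ y → β x ≤ β y := fun x y h => by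
    rw [hβ]; exact Real.rpow_le_rpow_of_exponent_le hb1.le h
  have hβnat : ∀ n : ℕ, (b : ℝ) ^ n = β n := fun n => by rw [hβ]; exact (Real.rpow_natCast _ _).symm
  have hβsqrt : ∀ x, √(β x) = β (x / 2) := fun x => by
    rw [hβ]
    simp only
    rw [Real.sqrt_eq_rpow, ← Real.rpow_mul hb0.le]; congr 1; ring
  have hβdiv : ∀ x y, β x / β y = β (x - y) := fun x y => by
    rw [div_eq_iff (hβpos y).ne', ← hβadd]; congr 1; ring
  obtain ⟨P, hP⟩ : ∃ P : ℕ, P = (PI b K).card := ⟨_, rfl⟩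
  have hPn : P = b ^ ((K + 1) / 2) := by rw [hP]; exact PI_card hb K
  have hPβ : (P : ℝ) ≤ β ((K + 1) / 2) := by
    rw [hPn]
    push_cast
    rw [hβnat]
    apply hβmono
    have : (((K + 1) / 2 : ℕ) : ℝ) ≤ ((K + 1 : ℕ) : ℝ) / 2 := Nat.cast_div_le
    push_cast at this
    exact this
  have hP0 : (0 : ℝ) ≤ P := Nat.cast_nonneg _
  have hH : (1 : ℕ) ≤ b ^ K := Nat.one_le_pow _ _ (by omega)
  have hB : (1 : ℕ) ≤ b ^ j := Nat.one_le_pow _ _ (by omega)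
  -- the density
  have hρeq : (P : ℝ) / ((b ^ K : ℕ) : ℝ) = 1 / (b : ℝ) ^ (K / 2) := by
    rw [hPn]
    push_cast
    rw [div_eq_div_iff (by positivity) (by positivity), one_mul, ← pow_add]
    congr 1
    omega
  have hKhalf : ((K : ℝ) - 1) / 2 ≤ ((K / 2 : ℕ) : ℝ) ∧ ((K / 2 : ℕ) : ℝ) ≤ (K : ℝ) / 2 := by
    constructor
    · have : K ≤ 2 * (K / 2) + 1 := by omega
      have h2 : (K : ℝ) ≤ 2 * ((K / 2 : ℕ) : ℝ) + 1 := by exact_mod_cast this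
      linarith
    · exact Nat.cast_div_le
  have hρβ : 1 / (b : ℝ) ^ (K / 2) ≤ β ((1 - K) / 2) := by
    have : 1 / (b : ℝ) ^ (K / 2) = β (-((K / 2 : ℕ) : ℝ)) := by
      rw [hβnat, hβ]
      simp only
      rw [Real.rpow_neg hb0.le, one_div]
    rw [this]
    apply hβmono
    linarith [hKhalf.1]
  obtain ⟨ρ, hρ⟩ : ∃ ρ : ℝ, ρ = 1 / (b : ℝ) ^ (K / 2) := ⟨_, rfl⟩
  rw [← hρ] at hρβ hρeq
  have hρ0 : 0 < ρ := by rw [hρ]; positivity
  -- parameters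
  obtain ⟨U, hU⟩ : ∃ U : ℕ, U = b ^ (K / 2 + d) := ⟨_, rfl⟩
  have hU1 : 1 ≤ U := by rw [hU]; exact Nat.one_le_pow _ _ (by omega)
  have hUU : U * U ≤ b ^ (j + K) := by
    rw [hU, ← pow_add]
    exact Nat.pow_le_pow_right (by omega) (by omega)
  obtain ⟨S, hS⟩ : ∃ S : ℕ, S = b ^ (j - d) := ⟨_, rfl⟩
  have hS1 : 1 ≤ S := by rw [hS]; exact Nat.one_le_pow _ _ (by omega)
  have hSβ : (S : ℝ) = β (j - d) := by
    rw [hS]; push_cast; rw [hβnat]; congr 1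
    rw [Nat.cast_sub (by omega)]
  obtain ⟨q, hq⟩ : ∃ q : ℕ, q = b ^ j * b ^ K := ⟨_, rfl⟩
  have hqn : q = b ^ (j + K) := by rw [hq, pow_add]
  have hq1 : 1 ≤ q := by rw [hq]; exact Nat.mul_pos hB hH
  have hX1 : 1 ≤ b ^ k := Nat.one_le_pow _ _ (by omega)
  have hqX : q ≤ b ^ k := by rw [hqn]; exact Nat.pow_le_pow_right (by omega) (by omega)
  have hUX : U * U ≤ b ^ k := hUU.trans (by rw [← hqn]; exact hqX)
  have hXX : b ^ k ≤ b ^ k * b ^ k := Nat.le_mul_of_pos_left _ (by omega)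
  obtain ⟨t, ht⟩ : ∃ t : ℝ, t = ((d : ℝ) + 1) / 16 := ⟨_, rfl⟩
  obtain ⟨T, hT⟩ : ∃ T : ℝ, T = β t := ⟨_, rfl⟩
  have hT0 : 0 ≤ T := by rw [hT]; exact (hβpos _).le
  have hTdiv : ∀ n : ℕ, 1 ≤ n → n ≤ b ^ j * b ^ K + 4 * b ^ k → (n.divisors.card : ℝ) ≤ T := by
    intro n hn1 hn2
    refine (hdiv n hn1 (hn2.trans ?_)).trans ?_
    · rw [← hq]
      omega
    · rw [hT]
      have : (b : ℝ) ^ (ε / 16 * (k : ℝ)) = β (ε / 16 * k) := by rw [hβ]
      rw [this]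
      apply hβmono
      rw [ht]
      linarith
  -- logarithms
  obtain ⟨Λ, hΛ⟩ : ∃ Λ : ℝ, Λ = (k : ℝ) ^ 2 := ⟨_, rfl⟩
  have hΛ1 : 1 ≤ Λ := by rw [hΛ]; nlinarith
  have l1 : 1 + Real.log (4 * ((b ^ k : ℕ) : ℝ)) ≤ Λ := by rw [hΛ]; exact (hlogs _ hX1 hXX).1
  have l2 : (Nat.log 2 (b ^ k) : ℝ) + 1 ≤ Λ := by rw [hΛ]; exact (hlogs _ hX1 hXX).2.1
  have l3 : 1 + Real.log q ≤ Λ := by rw [hΛ]; exact (hlogs _ hq1 (hqX.trans hXX)).2.2
  have l4 : (JJ q : ℝ) ≤ Λ := by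
    rw [hΛ]; unfold JJ; push_cast; exact (hlogs _ hq1 (hqX.trans hXX)).2.1
  have l5 : (Nat.log 2 (U * U) : ℝ) + 1 ≤ Λ := by rw [hΛ]; exact (hlogs _ (Nat.mul_pos hU1 hU1) (hUX.trans hXX)).2.1
  have l6 : Real.log ((b ^ k : ℕ) : ℝ) ≤ Λ := by
    have := (hlogs _ hX1 hXX).2.2
    rw [hΛ]; linarith
  have l7 : 2 + Real.log (((b ^ j : ℕ) : ℝ) + 1) ≤ Λ := by
    have h1 : ((b ^ j : ℕ) : ℝ) + 1 ≤ (b : ℝ) ^ k := by
      have : b ^ j + 1 ≤ b ^ k := by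
        have h2 : b ^ j * 2 ≤ b ^ k := by
          calc b ^ j * 2 ≤ b ^ j * b := Nat.mul_le_mul_left _ hb
            _ = b ^ (j + 1) := by rw [pow_succ]
            _ ≤ b ^ k := Nat.pow_le_pow_right (by omega) (by omega)
        omega
      exact_mod_cast this
    have h2 := Real.log_le_log (by positivity) h1
    rw [Real.log_pow] at h2
    have h3 : Real.log b ≤ b - 1 := Real.log_le_sub_one_of_pos (by linarith)
    rw [hΛ]
    have h4 : (k : ℝ) * Real.log b ≤ k * (b - 1) := by gcongr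
    nlinarith
  have l30 : 0 ≤ Real.log q := Real.log_nonneg (by exact_mod_cast hq1)
  have l10 : 0 ≤ Real.log (4 * ((b ^ k : ℕ) : ℝ)) := Real.log_nonneg (by
    have : (1 : ℝ) ≤ ((b ^ k : ℕ) : ℝ) := by exact_mod_cast hX1
    linarith)
  have l60 : 0 ≤ Real.log ((b ^ k : ℕ) : ℝ) := Real.log_nonneg (by exact_mod_cast hX1)
  -- the Fourier norm
  have hA0 : 0 ≤ CC b ^ ((K + 1) / 2) := pow_nonneg (by linarith [CC_ge hb]) _
  have hAβ : CC b ^ ((K + 1) / 2) ≤ β t := by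
    have h1 : CC b ^ ((K + 1) / 2) ≤ ((b : ℝ) ^ (ε / 16)) ^ ((K + 1) / 2) :=
      pow_le_pow_left₀ (by linarith [CC_ge hb]) hC _
    refine h1.trans ?_
    rw [← Real.rpow_natCast, ← Real.rpow_mul hb0.le]
    have : (b : ℝ) ^ (ε / 16 * (((K + 1) / 2 : ℕ) : ℝ)) = β (ε / 16 * (((K + 1) / 2 : ℕ) : ℝ)) := by rw [hβ]
    rw [this]
    apply hβmono
    have h2 : (((K + 1) / 2 : ℕ) : ℝ) ≤ k := by exact_mod_cast (by omega : (K + 1) / 2 ≤ k)
    have h3 : ε / 16 * (((K + 1) / 2 : ℕ) : ℝ) ≤ ε / 16 * k := by gcongr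
    rw [ht]
    linarith
  obtain ⟨A1, hA1d⟩ : ∃ A1 : ℝ, A1 = 6 * Λ * β t := ⟨_, rfl⟩
  have hA1 : ∑ h ∈ (SS (b ^ j * b ^ K)).erase 0, ‖cf (b ^ j * b ^ K) (gI (PI b K) (b ^ j) (b ^ K)) h‖ ≤ A1 := by
    refine (A1_bound hB hH (PI_sub hb K) hA0 (wI_sum hb K)).trans ?_
    rw [hA1d]
    calc 6 * CC b ^ ((K + 1) / 2) * (2 + Real.log (((b ^ j : ℕ) : ℝ) + 1)) ≤ 6 * β t * Λ := by
          have h0 : 0 ≤ 2 + Real.log (((b ^ j : ℕ) : ℝ) + 1) := by
            have : 0 ≤ Real.log (((b ^ j : ℕ) : ℝ) + 1) := Real.log_nonneg (by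
              have : (0 : ℝ) ≤ ((b ^ j : ℕ) : ℝ) := Nat.cast_nonneg _
              linarith)
            linarith
          have := hβpos t
          gcongr
      _ = _ := by ring
  have hA10 : 0 ≤ A1 := by rw [hA1d]; have := hβpos t; positivity
  have key := patterns_sup hB hH (PI_sub hb K) hT0 (b ^ k) U S hU1 hUX hS1 hTdiv hA1 N N' hNN' hN'
  rw [← hP, ← hq, hρeq] at key
  rw [hρ] at key
  refine key.trans ?_
  rw [← hρ]
  -- powers
  have hXβ : ((b ^ k : ℕ) : ℝ) = β (2 * j + K) := by push_cast; rw [hβnat, hkr]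
  have hqβ : (q : ℝ) = β (j + K) := by rw [hqn]; push_cast; rw [hβnat]; push_cast; rfl
  have hUβ : β ((K - 1) / 2 + d) ≤ (U : ℝ) := by
    rw [hU]; push_cast; rw [hβnat]; apply hβmono; push_cast; linarith [hKhalf.1]
  have hUUβ : ((U * U : ℕ) : ℝ) ≤ β (j + K) := by
    rw [← hqβ]; exact_mod_cast hUU.trans (le_of_eq hqn.symm)
  obtain ⟨x, hx⟩ : ∃ x : ℝ, x = ((b ^ k : ℕ) : ℝ) := ⟨_, rfl⟩
  have hXU : ((b ^ k : ℕ) : ℝ) / U ≤ β (2 * j + K - ((K - 1) / 2 + d)) := by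
    rw [← hβdiv, ← hXβ]
    exact div_le_div_of_nonneg_left (by positivity) (hβpos _) hUβ
  have hXU0 : 0 ≤ ((b ^ k : ℕ) : ℝ) / U := by positivity
  -- exponents
  obtain ⟨E0, hE0⟩ : ∃ E0 : ℝ, E0 = 2 * j + K / 2 + 2 - 3 * d / 8 := ⟨_, rfl⟩
  obtain ⟨E1, hE1⟩ : ∃ E1 : ℝ, E1 = 4 * j + K + 2 - 7 * d / 8 := ⟨_, rfl⟩
  obtain ⟨A3, hA3⟩ : ∃ A3 : ℝ, A3 = 3 * (q : ℝ) / (4 * S) * A1 := ⟨_, rfl⟩
  have hA3β : A3 = 3 / 4 * β (K + d) * A1 := by
    rw [hA3, hqβ, hSβ]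
    have : β (j + K) = β (K + d) * β (j - d) := by rw [← hβadd]; congr 1; ring
    rw [this]
    have := (hβpos (j - d)).ne'
    field_simp
  rw [← hA3]
  have hA30 : 0 ≤ A3 := by rw [hA3β]; have := hβpos (K + d); positivity
  have hA13 : A1 * A3 = 27 * Λ ^ 2 * β (t + t + (K + d)) := by
    rw [hA3β, hA1d, hβadd (t + t) (K + d), hβadd t t]; ring
  have hA11 : A1 ^ 2 = 36 * Λ ^ 2 * β (t + t) := by
    rw [hA1d, hβadd]; ring
  have hE1p := hβpos E1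
  have hΛΛ : Λ ≤ Λ ^ 3 := le_self_pow₀ hΛ1 (by norm_num)
  have hΛ23 : Λ ^ 2 ≤ Λ ^ 3 := pow_le_pow_right₀ hΛ1 (by norm_num)
  have hΛ34 : Λ ^ 3 ≤ Λ ^ 4 := pow_le_pow_right₀ hΛ1 (by norm_num)
  have hRS : RS A1 A3 (JJ q * (8 * P)) ρ T q (b ^ k) U ≤ (460 * Λ ^ 2 * β (E1 / 2)) ^ 2 := by
    unfold RS
    have r1 : 2496 * (((b ^ k : ℕ) : ℝ) ^ 2 / q) * (T * (1 + Real.log q) * (JJ q * (8 * P))) ≤ 19968 * Λ ^ 3 * β E1 := by
      have h1 : (((b ^ k : ℕ) : ℝ)) ^ 2 / q = β (3 * j + K) := by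
        rw [hXβ, hqβ, sq, ← hβadd, hβdiv]; congr 1; ring
      rw [h1, hT]
      calc 2496 * β (3 * j + K) * (β t * (1 + Real.log q) * (JJ q * (8 * P)))
          ≤ 2496 * β (3 * j + K) * (β t * Λ * (Λ * (8 * β ((K + 1) / 2)))) := by
            have := hβpos (3 * j + K)
            have := hβpos t
            gcongr
        _ = 19968 * Λ ^ 2 * (β (3 * j + K) * β t * β ((K + 1) / 2)) := by ring
        _ = 19968 * Λ ^ 2 * β (3 * j + K + t + (K + 1) / 2) := by rw [hβadd (3 * j + K + t), hβadd (3 * j + K)]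
        _ ≤ 19968 * Λ ^ 3 * β E1 := by
            have h2 : β (3 * j + K + t + (K + 1) / 2) ≤ β E1 := hβmono _ _ (by rw [hE1, ht]; linarith only [hjK, hd0, hK0, hj0])
            have := hβpos (3 * j + K + t + (K + 1) / 2)
            gcongr
    have r2 : (1248 * ((b ^ k : ℕ) : ℝ) * (((b ^ k : ℕ) : ℝ) / U) + 24 * ((b ^ k : ℕ) : ℝ) * q * (1 + Real.log q)) *
        (T * (1 + Real.log q) * ρ) ≤ 1272 * Λ ^ 3 * β E1 := by
      have h1 : 1248 * ((b ^ k : ℕ) : ℝ) * (((b ^ k : ℕ) : ℝ) / U) + 24 * ((b ^ k : ℕ) : ℝ) * q * (1 + Real.log q) ≤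
          1248 * (β (2 * j + K) * β (2 * j + K - ((K - 1) / 2 + d))) + 24 * (β (2 * j + K) * β (j + K)) * Λ := by
        rw [← hXβ, ← hqβ]
        have h2 : 1248 * ((b ^ k : ℕ) : ℝ) * (((b ^ k : ℕ) : ℝ) / U) ≤
            1248 * (((b ^ k : ℕ) : ℝ) * β (((b ^ k : ℕ) : ℝ) * 0 + (2 * j + K - ((K - 1) / 2 + d)))) := by
          rw [mul_zero, zero_add, mul_assoc]
          gcongr
        rw [mul_zero, zero_add] at h2
        have h3 : 24 * ((b ^ k : ℕ) : ℝ) * q * (1 + Real.log q) ≤ 24 * (((b ^ k : ℕ) : ℝ) * q) * Λ := by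
          rw [mul_assoc 24]
          gcongr
        linarith
      have h4 : T * (1 + Real.log q) * ρ ≤ β t * Λ * β ((1 - K) / 2) := by
        rw [hT]
        have := hβpos t
        gcongr
      have h5 : 0 ≤ T * (1 + Real.log q) * ρ := by positivity
      have g1 : β (2 * j + K) * β (2 * j + K - ((K - 1) / 2 + d)) * β t * β ((1 - K) / 2) ≤ β E1 := by
        rw [← hβadd, ← hβadd, ← hβadd]
        exact hβmono _ _ (by rw [hE1, ht]; linarith only [hjK, hd0, hK0, hj0])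
      have g2 : β (2 * j + K) * β (j + K) * β t * β ((1 - K) / 2) ≤ β E1 := by
        rw [← hβadd, ← hβadd, ← hβadd]
        exact hβmono _ _ (by rw [hE1, ht]; linarith only [hjK, hd0, hK0, hj0])
      have g0 : 0 ≤ 1248 * (β (2 * j + K) * β (2 * j + K - ((K - 1) / 2 + d))) + 24 * (β (2 * j + K) * β (j + K)) * Λ := by
        have := hβpos (2 * j + K)
        have := hβpos (j + K)
        have := hβpos (2 * j + K - ((K - 1) / 2 + d))
        positivity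
      calc _ ≤ (1248 * (β (2 * j + K) * β (2 * j + K - ((K - 1) / 2 + d))) + 24 * (β (2 * j + K) * β (j + K)) * Λ) *
            (β t * Λ * β ((1 - K) / 2)) := mul_le_mul h1 h4 h5 g0
        _ = 1248 * Λ * (β (2 * j + K) * β (2 * j + K - ((K - 1) / 2 + d)) * β t * β ((1 - K) / 2)) +
            24 * Λ ^ 2 * (β (2 * j + K) * β (j + K) * β t * β ((1 - K) / 2)) := by ring
        _ ≤ 1248 * Λ ^ 3 * β E1 + 24 * Λ ^ 3 * β E1 := by
            apply add_le_add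
            · calc _ ≤ 1248 * Λ * β E1 := mul_le_mul_of_nonneg_left g1 (by positivity)
                _ ≤ _ := by gcongr
            · calc _ ≤ 24 * Λ ^ 2 * β E1 := mul_le_mul_of_nonneg_left g2 (by positivity)
                _ ≤ _ := by gcongr
        _ = _ := by ring
    have r3 : (4992 * ((b ^ k : ℕ) : ℝ) * (((b ^ k : ℕ) : ℝ) / U) / q + 96 * ((b ^ k : ℕ) : ℝ) * (1 + Real.log q)) *
        (A1 * A3) ≤ 137376 * Λ ^ 3 * β E1 := by
      have h1 : 4992 * ((b ^ k : ℕ) : ℝ) * (((b ^ k : ℕ) : ℝ) / U) / q ≤ 4992 * β (j + (2 * j + K - ((K - 1) / 2 + d))) := by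
        have e : 4992 * ((b ^ k : ℕ) : ℝ) * (((b ^ k : ℕ) : ℝ) / U) / q =
            4992 * ((((b ^ k : ℕ) : ℝ) / q) * (((b ^ k : ℕ) : ℝ) / U)) := by ring
        have e2 : ((b ^ k : ℕ) : ℝ) / q = β j := by rw [hXβ, hqβ, hβdiv]; congr 1; ring
        rw [e, e2, hβadd j]
        have := hβpos j
        gcongr
      have h2 : 96 * ((b ^ k : ℕ) : ℝ) * (1 + Real.log q) ≤ 96 * β (2 * j + K) * Λ := by
        rw [hXβ]
        have := hβpos (2 * j + K)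
        gcongr
      rw [hA13]
      have g1 : β (j + (2 * j + K - ((K - 1) / 2 + d))) * β (t + t + (K + d)) ≤ β E1 := by
        rw [← hβadd]
        exact hβmono _ _ (by rw [hE1, ht]; linarith only [hjK, hd0, hK0, hj0])
      have g2 : β (2 * j + K) * β (t + t + (K + d)) ≤ β E1 := by
        rw [← hβadd]
        exact hβmono _ _ (by rw [hE1, ht]; linarith only [hjK, hd0, hK0, hj0])
      have hp := hβpos (t + t + (K + d))
      calc _ ≤ (4992 * β (j + (2 * j + K - ((K - 1) / 2 + d))) + 96 * β (2 * j + K) * Λ) *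
            (27 * Λ ^ 2 * β (t + t + (K + d))) := mul_le_mul_of_nonneg_right (add_le_add h1 h2) (by positivity)
        _ = 134784 * Λ ^ 2 * (β (j + (2 * j + K - ((K - 1) / 2 + d))) * β (t + t + (K + d))) +
            2592 * Λ ^ 3 * (β (2 * j + K) * β (t + t + (K + d))) := by ring
        _ ≤ 134784 * Λ ^ 3 * β E1 + 2592 * Λ ^ 3 * β E1 := by
            apply add_le_add
            · calc _ ≤ 134784 * Λ ^ 2 * β E1 := mul_le_mul_of_nonneg_left g1 (by positivity)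
                _ ≤ _ := by gcongr
            · exact mul_le_mul_of_nonneg_left g2 (by positivity)
        _ = _ := by ring
    have r4 : (1248 * (((b ^ k : ℕ) : ℝ) / U) ^ 2 + 96 * ((b ^ k : ℕ) : ℝ) * √((b ^ k : ℕ) : ℝ) * (1 + Real.log q) +
        24 * q * (((b ^ k : ℕ) : ℝ) / U) * (1 + Real.log q)) * A1 ^ 2 ≤ 49248 * Λ ^ 3 * β E1 := by
      obtain ⟨y, hy⟩ : ∃ y : ℝ, y = 2 * j + K - ((K - 1) / 2 + d) := ⟨_, rfl⟩
      rw [← hy] at hXU
      have hyp := hβpos y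
      have hXp := hβpos (2 * j + K)
      have hqp := hβpos (j + K)
      have hsp := hβpos ((2 * j + K) / 2)
      have h1 : 1248 * (((b ^ k : ℕ) : ℝ) / U) ^ 2 + 96 * ((b ^ k : ℕ) : ℝ) * √((b ^ k : ℕ) : ℝ) * (1 + Real.log q) +
          24 * q * (((b ^ k : ℕ) : ℝ) / U) * (1 + Real.log q) ≤
          1248 * β y ^ 2 + 96 * β (2 * j + K) * β ((2 * j + K) / 2) * Λ + 24 * β (j + K) * β y * Λ := by
        have h2 : √((b ^ k : ℕ) : ℝ) = β ((2 * j + K) / 2) := by rw [hXβ, hβsqrt]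
        rw [h2, ← hXβ, ← hqβ]
        gcongr
      rw [hA11]
      have hp := hβpos (t + t)
      have g1 : β y * β y * β (t + t) ≤ β E1 := by
        rw [← hβadd, ← hβadd]
        exact hβmono _ _ (by rw [hE1, ht, hy]; linarith only [hjK, hd0, hK0, hj0])
      have g2 : β (2 * j + K) * β ((2 * j + K) / 2) * β (t + t) ≤ β E1 := by
        rw [← hβadd, ← hβadd]
        exact hβmono _ _ (by rw [hE1, ht]; linarith only [hjK, hd0, hK0, hj0])
      have g3 : β (j + K) * β y * β (t + t) ≤ β E1 := by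
        rw [← hβadd, ← hβadd]
        exact hβmono _ _ (by rw [hE1, ht, hy]; linarith only [hjK, hd0, hK0, hj0])
      calc _ ≤ (1248 * β y ^ 2 + 96 * β (2 * j + K) * β ((2 * j + K) / 2) * Λ + 24 * β (j + K) * β y * Λ) *
            (36 * Λ ^ 2 * β (t + t)) := mul_le_mul_of_nonneg_right h1 (by positivity)
        _ = 44928 * Λ ^ 2 * (β y * β y * β (t + t)) +
            3456 * Λ ^ 3 * (β (2 * j + K) * β ((2 * j + K) / 2) * β (t + t)) +
            864 * Λ ^ 3 * (β (j + K) * β y * β (t + t)) := by ring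
        _ ≤ 44928 * Λ ^ 3 * β E1 + 3456 * Λ ^ 3 * β E1 + 864 * Λ ^ 3 * β E1 := by
            apply add_le_add (add_le_add _ _) _
            · calc _ ≤ 44928 * Λ ^ 2 * β E1 := mul_le_mul_of_nonneg_left g1 (by positivity)
                _ ≤ _ := by gcongr
            · exact mul_le_mul_of_nonneg_left g2 (by positivity)
            · exact mul_le_mul_of_nonneg_left g3 (by positivity)
        _ = _ := by ring
    calc _ ≤ 19968 * Λ ^ 3 * β E1 + 1272 * Λ ^ 3 * β E1 + 137376 * Λ ^ 3 * β E1 + 49248 * Λ ^ 3 * β E1 :=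
          add_le_add (add_le_add (add_le_add r1 r2) r3) r4
      _ = 207864 * Λ ^ 3 * β E1 := by ring
      _ ≤ 211600 * Λ ^ 4 * β E1 := by
          apply mul_le_mul_of_nonneg_right _ hE1p.le
          nlinarith [pow_pos (lt_of_lt_of_le zero_lt_one hΛ1) 4]
      _ = _ := by
          have : β E1 = β (E1 / 2) * β (E1 / 2) := by rw [← hβadd]; congr 1; ring
          rw [this]; ring
  have hsRS : √(RS A1 A3 (JJ q * (8 * P)) ρ T q (b ^ k) U) ≤ 460 * Λ ^ 2 * β (E1 / 2) := by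
    rw [← Real.sqrt_sq (show 0 ≤ 460 * Λ ^ 2 * β (E1 / 2) by have := hβpos (E1 / 2); positivity)]
    exact Real.sqrt_le_sqrt hRS
  have hβE := hβpos E0
  have hTsRS : T * √(RS A1 A3 (JJ q * (8 * P)) ρ T q (b ^ k) U) ≤ 460 * Λ ^ 2 * β E0 := by
    calc T * √(RS A1 A3 (JJ q * (8 * P)) ρ T q (b ^ k) U) ≤ T * (460 * Λ ^ 2 * β (E1 / 2)) :=
          mul_le_mul_of_nonneg_left hsRS hT0
      _ = 460 * Λ ^ 2 * β (t + E1 / 2) := by rw [hT, hβadd]; ring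
      _ ≤ _ := mul_le_mul_of_nonneg_left (hβmono _ _ (by rw [hE0, hE1, ht]; linarith only [hjK, hd0, hK0, hj0])) (by positivity)
  have hI1 : ((b ^ k : ℕ) : ℝ) / q * √(P * (q * (1 + Real.log q))) ≤ Λ * β E0 := by
    have h1 : √(P * (q * (1 + Real.log q))) ≤ Λ * β (((K + 1) / 2 + (j + K)) / 2) := by
      rw [← Real.sqrt_sq (show 0 ≤ Λ * β (((K + 1) / 2 + (j + K)) / 2) by
        have := hβpos (((K + 1) / 2 + (j + K)) / 2); positivity)]
      apply Real.sqrt_le_sqrt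
      rw [mul_pow, ← hβsqrt, Real.sq_sqrt (hβpos _).le, hβadd]
      calc (P : ℝ) * (q * (1 + Real.log q)) ≤ β ((K + 1) / 2) * (β (j + K) * Λ) := by
            have g1 : (q : ℝ) * (1 + Real.log q) ≤ β (j + K) * Λ := by
              rw [← hqβ]; exact mul_le_mul_of_nonneg_left l3 (Nat.cast_nonneg _)
            have g2 : 0 ≤ (q : ℝ) * (1 + Real.log q) := mul_nonneg (Nat.cast_nonneg _) (by linarith)
            exact mul_le_mul hPβ g1 g2 (hβpos _).le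
        _ ≤ β ((K + 1) / 2) * (β (j + K) * Λ ^ 2) := by
            have : Λ ≤ Λ ^ 2 := by nlinarith
            have h2 := hβpos ((K + 1) / 2)
            have h3 := hβpos (j + K)
            gcongr
        _ = _ := by ring
    have h2 : ((b ^ k : ℕ) : ℝ) / q = β j := by
      rw [hXβ, hqβ, div_eq_iff (hβpos _).ne', ← hβadd]; congr 1; ring
    rw [h2]
    calc β j * √(P * (q * (1 + Real.log q))) ≤ β j * (Λ * β (((K + 1) / 2 + (j + K)) / 2)) :=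
          mul_le_mul_of_nonneg_left h1 (hβpos _).le
      _ = Λ * β (j + ((K + 1) / 2 + (j + K)) / 2) := by rw [hβadd]; ring
      _ ≤ Λ * β E0 := mul_le_mul_of_nonneg_left (hβmono _ _ (by rw [hE0]; linarith only [hjK, hd0, hK0, hj0])) (by linarith)
  have hI2 : (((U * U : ℕ) : ℝ) + q) * A1 ≤ 12 * Λ * β E0 := by
    calc (((U * U : ℕ) : ℝ) + q) * A1 ≤ (β (j + K) + β (j + K)) * A1 := by
          apply mul_le_mul_of_nonneg_right _ hA10
          rw [hqβ]; linarith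
      _ = 12 * Λ * β (j + K + t) := by rw [hA1d, hβadd (j + K)]; ring
      _ ≤ _ := mul_le_mul_of_nonneg_left (hβmono _ _ (by rw [hE0, ht]; linarith only [hjK, hd0, hK0, hj0])) (by positivity)
  have hBS : BS A1 A3 P ρ T q (b ^ k) U ≤ 30640 * Λ ^ 5 * β E0 := by
    unfold BS
    have h1 : 4 * (1 + Real.log (4 * ((b ^ k : ℕ) : ℝ))) ^ 3 * T * √(RS A1 A3 (JJ q * (8 * P)) ρ T q (b ^ k) U) ≤
        4 * Λ ^ 3 * (460 * Λ ^ 2 * β E0) := by
      rw [mul_assoc (4 * (1 + Real.log (4 * ((b ^ k : ℕ) : ℝ))) ^ 3)]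
      gcongr
    have h2 : 3 * (1 + Real.log (4 * ((b ^ k : ℕ) : ℝ))) * (600 * (Nat.log 2 (U * U) + 1 : ℝ) * (1 + Real.log q) *
        (((b ^ k : ℕ) : ℝ) / q * (JJ q * (4 * √(P * (q * (1 + Real.log q))))) + ((U * U : ℕ) + q) * A1)) ≤
        3 * Λ * (600 * Λ * Λ * (Λ * 4 * (Λ * β E0) + 12 * Λ * β E0)) := by
      have e : ((b ^ k : ℕ) : ℝ) / q * (JJ q * (4 * √(P * (q * (1 + Real.log q))))) =
          JJ q * 4 * (((b ^ k : ℕ) : ℝ) / q * √(P * (q * (1 + Real.log q)))) := by ring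
      rw [e]
      gcongr
    have h3 : 3 * Λ * (600 * Λ * Λ * (Λ * 4 * (Λ * β E0) + 12 * Λ * β E0)) ≤ 28800 * Λ ^ 5 * β E0 := by
      have e : 3 * Λ * (600 * Λ * Λ * (Λ * 4 * (Λ * β E0) + 12 * Λ * β E0)) = (7200 * Λ ^ 5 + 21600 * Λ ^ 4) * β E0 := by ring
      rw [e]
      have g2 : Λ ^ 4 ≤ Λ ^ 5 := pow_le_pow_right₀ hΛ1 (by norm_num)
      exact mul_le_mul_of_nonneg_right (by linarith) hβE.le
    have h4 : 4 * Λ ^ 3 * (460 * Λ ^ 2 * β E0) = 1840 * Λ ^ 5 * β E0 := by ring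
    linarith
  have hBS0 : 0 ≤ BS A1 A3 P ρ T q (b ^ k) U := BS_nonneg hq1 hA10 hT0 hX1
  have hsm : Real.log ((b ^ k : ℕ) : ℝ) * (((b ^ k : ℕ) : ℝ) / q + 1) * (2 * P * S) ≤ 4 * Λ * β E0 := by
    have h2 : ((b ^ k : ℕ) : ℝ) / q = β j := by
      rw [hXβ, hqβ, div_eq_iff (hβpos _).ne', ← hβadd]; congr 1; ring
    have h3 : (1 : ℝ) ≤ β j := by
      have := hβmono 0 j hj0
      rw [hβ] at this ⊢
      simpa using this
    rw [h2, hSβ]
    have hjp := hβpos j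
    have hjd := hβpos (j - d)
    calc Real.log ((b ^ k : ℕ) : ℝ) * (β j + 1) * (2 * P * β (j - d)) ≤ Λ * (β j + β j) * (2 * β ((K + 1) / 2) * β (j - d)) := by
          gcongr
      _ = 4 * Λ * (β j * β ((K + 1) / 2) * β (j - d)) := by ring
      _ = 4 * Λ * β (j + (K + 1) / 2 + (j - d)) := by rw [hβadd (j + (K + 1) / 2), hβadd j]
      _ ≤ _ := mul_le_mul_of_nonneg_left (hβmono _ _ (by rw [hE0]; linarith only [hjK, hd0, hK0, hj0])) (by positivity)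
  have hsX : √((b ^ k : ℕ) : ℝ) ≤ β E0 := by
    rw [hXβ, hβsqrt]
    exact hβmono _ _ (by rw [hE0]; linarith only [hjK, hd0, hK0, hj0])
  have hUUE : ((U * U : ℕ) : ℝ) ≤ β E0 := hUUβ.trans (hβmono _ _ (by rw [hE0]; linarith only [hjK, hd0, hK0, hj0]))
  have htot : 5 * (Real.log ((b ^ k : ℕ) : ℝ) * (((b ^ k : ℕ) : ℝ) / q + 1) * (2 * P * S) +
        (12 * ((U * U : ℕ) : ℝ) + (Nat.log 2 (b ^ k) + 1 : ℝ) * BS A1 A3 P ρ T q (b ^ k) U)) +
        3 * (√((b ^ k : ℕ) : ℝ) * Real.log ((b ^ k : ℕ) : ℝ)) ≤ 160000 * Λ ^ 6 * β E0 := by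
    calc _ ≤ 5 * (4 * Λ * β E0 + (12 * β E0 + Λ * (30640 * Λ ^ 5 * β E0))) + 3 * (β E0 * Λ) := by gcongr
      _ = (20 * Λ + 60 + 153200 * Λ ^ 6 + 3 * Λ) * β E0 := by ring
      _ ≤ (160000 * Λ ^ 6) * β E0 := by
          apply mul_le_mul_of_nonneg_right _ hβE.le
          have g1 : (1 : ℝ) ≤ Λ ^ 6 := one_le_pow₀ hΛ1
          have g2 : Λ ≤ Λ ^ 6 := le_self_pow₀ hΛ1 (by norm_num)
          linarith
  refine htot.trans ?_
  have hfin : (b : ℝ) ^ ((1 - ε / 8) * (k : ℝ)) / (b : ℝ) ^ (K / 2) = β ((1 - ε / 8) * k - ((K / 2 : ℕ) : ℝ)) := by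
    rw [hβnat, hβ]
    simp only
    rw [Real.rpow_sub hb0]
  rw [hfin]
  have hpoly' : 160000 * β 4 * Λ ^ 6 ≤ β (ε / 8 * k) := by
    have : (k : ℝ) ^ 12 = Λ ^ 6 := by rw [hΛ, ← pow_mul]
    rw [this] at hpoly
    rw [hβ]
    exact hpoly
  have e4 : β E0 = β 4 * β (E0 - 4) := by rw [← hβadd]; congr 1; ring
  calc 160000 * Λ ^ 6 * β E0 = (160000 * β 4 * Λ ^ 6) * β (E0 - 4) := by rw [e4]; ring
    _ ≤ β (ε / 8 * k) * β (E0 - 4) := mul_le_mul_of_nonneg_right hpoly' (hβpos _).le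
    _ = β (ε / 8 * k + (E0 - 4)) := (hβadd _ _).symm
    _ ≤ _ := by
        apply hβmono
        rw [hE0]
        have := hKhalf.2
        nlinarith

end Pool.Agent.K3h35.LB
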