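import Mathlib
import Pool.Agent.K3h35.MP.H
import Pool.Agent.K3h35.LB.G

/-! Palindromes close to primes, large bases. -/

set_option autoImplicit false

namespace Pool.Agent.K3h35.LB

open Finset Filter
open Pool.Agent.K3h35.MP

open Classical in
/-- many palindromes are close to primes -/
theorem near_large {b : ℕ} (hb : 2 ≤ b) {ε : ℝ} (hε : 0 < ε) (hC : CC b ≤ (b : ℝ) ^ (ε / 16)) :
    ∀ᶠ k : ℕ in atTop, ∀ j : ℕ, (1 / 4 + ε) * k ≤ j → 2 * j ≤ k →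
    ((Ico (b ^ (k - 1)) (b ^ k)).filter (fun n => ∀ i, i < k → n / b ^ i % b = n / b ^ (k - 1 - i) % b)).card ≤
    8 * ((Ico (b ^ (k - 1)) (b ^ k)).filter (fun n => (∀ i, i < k → n / b ^ i % b = n / b ^ (k - 1 - i) % b) ∧
      ∃ p : ℕ, p.Prime ∧ p / b ^ j = n / b ^ j)).card := by
  have hb0 : (2 : ℝ) ≤ b := by exact_mod_cast hb
  have hbp : ∀ m, 0 < b ^ m := fun m => pow_pos (by omega) m
  obtain ⟨δ, hδdef⟩ : ∃ δ : ℝ, δ = min (ε / 4) (1 / 24) := ⟨_, rfl⟩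
  have hδ : 0 < δ := by rw [hδdef]; positivity
  have hδε : 4 * δ ≤ ε := by have := min_le_left (ε / 4) (1 / 24 : ℝ); rw [← hδdef] at this; linarith
  have hδ1 : δ ≤ 1 / 24 := by rw [hδdef]; exact min_le_right _ _
  obtain ⟨N₀, _, hbt⟩ := Pool.Agent.H617R3.BT.bt2 δ hδ
  have hL : 0 < Real.log b := Real.log_pos (by linarith)
  filter_upwards [main_large hb hε hC, primes_ev hb hδ (by linarith),
    ev_poly (b * Real.log b / (δ * (b - 1))) 1 (show (1 : ℝ) < b by linarith) (show 0 < ε / 8 by positivity),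
    eventually_ge_atTop (4 * N₀ + 8)] with k hmain hprimes hpoly hk j hj1 hj2
  obtain ⟨K, hK⟩ : ∃ K, K = k - 2 * j := ⟨_, rfl⟩
  have hkK : k = 2 * j + K := by omega
  have hkr : (k : ℝ) = 2 * j + K := by rw [hkK]; push_cast; ring
  have hk0 : 4 * (N₀ : ℝ) + 8 ≤ k := by exact_mod_cast hk
  have hjr : (N₀ : ℝ) + 2 ≤ j := by nlinarith
  have hjN : N₀ + 2 ≤ j := by exact_mod_cast hjr
  have m1 := hmain j hj1 hj2 (b ^ (k - 1)) (b ^ k) (Nat.pow_le_pow_right (by omega) (by omega)) le_rfl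
  rw [← hK] at m1
  set Q := (Ioc (b ^ (k - 1)) (b ^ k)).filter (fun p => p.Prime ∧ (p / b ^ j) % b ^ K ∈ PI b K) with hQ
  set G := (Ico (b ^ (k - 1)) (b ^ k)).filter (fun n => (∀ i, i < k → n / b ^ i % b = n / b ^ (k - 1 - i) % b) ∧
      ∃ p : ℕ, p.Prime ∧ p / b ^ j = n / b ^ j) with hG
  -- covering
  have hcov : Q ⊆ G.biUnion (fun n => (Ioc (b ^ (k - 1)) (b ^ k)).filter (fun p => p.Prime ∧ p / b ^ j = n / b ^ j)) := by
    intro p hp
    rw [hQ, mem_filter, mem_Ioc] at hp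
    obtain ⟨⟨p1, p2⟩, p3, p4⟩ := hp
    have p5 : p < b ^ k := by
      rcases lt_or_eq_of_le p2 with h | h
      · exact h
      · exfalso
        rw [h] at p3
        exact Nat.Prime.not_prime_pow (by omega) p3
    have p6 : p / b ^ j < b ^ (j + K) := by
      rw [Nat.div_lt_iff_lt_mul (hbp _), ← pow_add, show j + K + j = k by omega]
      exact p5
    obtain ⟨n, hn1, hn2⟩ := top_surj hb j K p6 p4
    rw [← hkK] at hn1
    have hnlt := PI_lt hb k n hn1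
    have hnge : b ^ (k - 1) ≤ n := by
      have e : b ^ (k - 1) = b ^ (k - 1 - j) * b ^ j := by rw [← pow_add]; congr 1; omega
      rw [e, ← Nat.le_div_iff_mul_le (hbp _), hn2, Nat.le_div_iff_mul_le (hbp _), ← e]
      exact p1.le
    rw [mem_biUnion]
    refine ⟨n, ?_, ?_⟩
    · rw [hG, mem_filter, mem_Ico]
      exact ⟨⟨hnge, hnlt⟩, (PI_iff hb k n hnlt).1 hn1, p, p3, hn2.symm⟩
    · rw [mem_filter, mem_Ioc]
      exact ⟨⟨p1, p2⟩, p3, hn2.symm⟩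
  have hjlt : j < b ^ j := Nat.lt_pow_self (by omega)
  have hQle : (Q.card : ℝ) ≤ G.card * ((2 + δ) * (b : ℝ) ^ j / (j * Real.log b)) := by
    have h1 : Q.card ≤ ∑ n ∈ G, ((Ioc (b ^ (k - 1)) (b ^ k)).filter (fun p => p.Prime ∧ p / b ^ j = n / b ^ j)).card :=
      (card_le_card hcov).trans card_biUnion_le
    calc (Q.card : ℝ) ≤ ∑ n ∈ G, (((Ioc (b ^ (k - 1)) (b ^ k)).filter (fun p => p.Prime ∧ p / b ^ j = n / b ^ j)).card : ℝ) := by
          exact_mod_cast h1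
      _ ≤ ∑ n ∈ G, (2 + δ) * ((b ^ j : ℕ) : ℝ) / Real.log ((b ^ j : ℕ) : ℝ) := by
          apply sum_le_sum
          intro n _
          exact fiber_primes hbt (by omega) (hbp _) _ _
      _ = _ := by
          rw [sum_const, nsmul_eq_mul]
          push_cast
          rw [Real.log_pow]
  -- lower bound for Q
  have hP : (0 : ℝ) < (b : ℝ) ^ (k - 1) := by positivity
  have hkpos : (0 : ℝ) < k := by linarith [Nat.cast_nonneg (α := ℝ) N₀]
  have hjpos : (0 : ℝ) < j := by linarith [Nat.cast_nonneg (α := ℝ) N₀]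
  have herr : (b : ℝ) ^ ((1 - ε / 8) * (k : ℝ)) ≤ δ * ((b - 1) * (b : ℝ) ^ (k - 1)) / (k * Real.log b) := by
    have e1 : (b : ℝ) ^ ((1 - ε / 8) * (k : ℝ)) * (b : ℝ) ^ (ε / 8 * (k : ℝ)) = b * (b : ℝ) ^ (k - 1) := by
      rw [← Real.rpow_add (by linarith), ← pow_succ', ← Real.rpow_natCast]
      congr 1
      rw [Nat.sub_add_cancel (by omega)]
      ring
    rw [pow_one] at hpoly
    have hb1 : 0 < δ * ((b : ℝ) - 1) := mul_pos hδ (by linarith)
    have hbm : (b : ℝ) - 1 ≠ 0 := by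
      have : 0 < (b : ℝ) - 1 := by linarith
      exact this.ne'
    rw [le_div_iff₀ (by positivity)]
    have e2 : b * Real.log b * k ≤ δ * (b - 1) * (b : ℝ) ^ (ε / 8 * (k : ℝ)) := by
      have := mul_le_mul_of_nonneg_left hpoly hb1.le
      calc b * Real.log b * k = δ * (b - 1) * (b * Real.log b / (δ * (b - 1)) * k) := by
            field_simp
        _ ≤ _ := this
    have hpos : 0 < (b : ℝ) ^ ((1 - ε / 8) * (k : ℝ)) := Real.rpow_pos_of_pos (by linarith) _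
    have e3 := mul_le_mul_of_nonneg_left e2 hpos.le
    have e4 : (b : ℝ) ^ ((1 - ε / 8) * (k : ℝ)) * (δ * (b - 1) * (b : ℝ) ^ (ε / 8 * (k : ℝ))) =
        δ * (b - 1) * (b * (b : ℝ) ^ (k - 1)) := by rw [← e1]; ring
    rw [e4] at e3
    have e5 : b * ((b : ℝ) ^ ((1 - ε / 8) * (k : ℝ)) * (k * Real.log b)) ≤ b * (δ * ((b - 1) * (b : ℝ) ^ (k - 1))) := by
      calc _ = (b : ℝ) ^ ((1 - ε / 8) * (k : ℝ)) * (b * Real.log b * k) := by ring
        _ ≤ _ := e3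
        _ = _ := by ring
    exact le_of_mul_le_mul_left e5 (by linarith)
  have hρ : (0 : ℝ) < (b : ℝ) ^ (K / 2) := by positivity
  have hQge : (1 - 6 * δ) * ((b - 1) * (b : ℝ) ^ (k - 1)) / (k * Real.log b) ≤ (b : ℝ) ^ (K / 2) * Q.card := by
    have h1 := (abs_le.1 m1).1
    have h2 : (b : ℝ) ^ (K / 2) * (-((b : ℝ) ^ ((1 - ε / 8) * (k : ℝ)) / (b : ℝ) ^ (K / 2))) ≤ (b : ℝ) ^ (K / 2) *
      ((Q.card : ℝ) - 1 / (b : ℝ) ^ (K / 2) * (((Ioc (b ^ (k - 1)) (b ^ k)).filter Nat.Prime).card : ℝ)) :=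
      mul_le_mul_of_nonneg_left h1 hρ.le
    have h3 : (b : ℝ) ^ (K / 2) * (-((b : ℝ) ^ ((1 - ε / 8) * (k : ℝ)) / (b : ℝ) ^ (K / 2))) =
        -(b : ℝ) ^ ((1 - ε / 8) * (k : ℝ)) := by field_simp
    have h4 : (b : ℝ) ^ (K / 2) *
      ((Q.card : ℝ) - 1 / (b : ℝ) ^ (K / 2) * (((Ioc (b ^ (k - 1)) (b ^ k)).filter Nat.Prime).card : ℝ)) =
      (b : ℝ) ^ (K / 2) * Q.card - (((Ioc (b ^ (k - 1)) (b ^ k)).filter Nat.Prime).card : ℝ) := by field_simp
    rw [h3, h4] at h2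
    have h5 : (1 - 6 * δ) * ((b - 1) * (b : ℝ) ^ (k - 1)) / (k * Real.log b) =
        (1 - 5 * δ) * ((b - 1) * (b : ℝ) ^ (k - 1)) / (k * Real.log b) - δ * ((b - 1) * (b : ℝ) ^ (k - 1)) / (k * Real.log b) := by
      rw [← sub_div]; congr 1; ring
    rw [h5]
    linarith
  -- combine
  have hpalc : (((Ico (b ^ (k - 1)) (b ^ k)).filter (fun n => ∀ i, i < k → n / b ^ i % b = n / b ^ (k - 1 - i) % b)).card : ℝ) *
      ((b : ℝ) ^ (K / 2) * (b : ℝ) ^ j) ≤ (b - 1) * (b : ℝ) ^ (k - 1) := by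
    rw [pal_filter hb k]
    have h1 := pal_card hb j K (by omega)
    rw [← hkK] at h1
    have h2 : b ^ j - b ^ (j - 1) = (b - 1) * b ^ (j - 1) := by
      rw [Nat.sub_mul, one_mul, ← pow_succ', Nat.sub_add_cancel (by omega : 1 ≤ j)]
    rw [h2] at h1
    have h3 : (((PI b k).filter (fun n => b ^ (k - 1) ≤ n)).card : ℝ) ≤ (b - 1) * (b : ℝ) ^ (j - 1) * (b : ℝ) ^ ((K + 1) / 2) := by
      have : (((PI b k).filter (fun n => b ^ (k - 1) ≤ n)).card : ℝ) ≤ (((b - 1) * b ^ (j - 1) * b ^ ((K + 1) / 2) : ℕ) : ℝ) := by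
        exact_mod_cast h1
      rw [Nat.cast_mul, Nat.cast_mul, Nat.cast_sub (by omega), Nat.cast_one, Nat.cast_pow, Nat.cast_pow] at this
      exact this
    calc _ ≤ (b - 1) * (b : ℝ) ^ (j - 1) * (b : ℝ) ^ ((K + 1) / 2) * ((b : ℝ) ^ (K / 2) * (b : ℝ) ^ j) := by gcongr
      _ = (b - 1) * ((b : ℝ) ^ (j - 1) * (b : ℝ) ^ ((K + 1) / 2) * (b : ℝ) ^ (K / 2) * (b : ℝ) ^ j) := by ring
      _ = _ := by
          rw [← pow_add, ← pow_add, ← pow_add]
          congr 2; omega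
  have hGQ : (1 - 6 * δ) * ((b - 1) * (b : ℝ) ^ (k - 1)) / (k * Real.log b) ≤
      (b : ℝ) ^ (K / 2) * (G.card * ((2 + δ) * (b : ℝ) ^ j / (j * Real.log b))) :=
    hQge.trans (mul_le_mul_of_nonneg_left hQle hρ.le)
  have hGQ2 : (1 - 6 * δ) * j * ((b - 1) * (b : ℝ) ^ (k - 1)) ≤ (2 + δ) * k * (G.card * ((b : ℝ) ^ (K / 2) * (b : ℝ) ^ j)) := by
    have := mul_le_mul_of_nonneg_right hGQ (mul_nonneg (mul_nonneg hkpos.le hL.le) hjpos.le : 0 ≤ (k * Real.log b) * j)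
    have e1 : (1 - 6 * δ) * ((b - 1) * (b : ℝ) ^ (k - 1)) / (k * Real.log b) * ((k * Real.log b) * j) =
        (1 - 6 * δ) * j * ((b - 1) * (b : ℝ) ^ (k - 1)) := by field_simp
    have e2 : (b : ℝ) ^ (K / 2) * (G.card * ((2 + δ) * (b : ℝ) ^ j / (j * Real.log b))) * ((k * Real.log b) * j) =
        (2 + δ) * k * (G.card * ((b : ℝ) ^ (K / 2) * (b : ℝ) ^ j)) := by
      generalize (G.card : ℝ) = g
      field_simp
    rw [e1, e2] at this
    exact this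
  have hε6 : ε ≤ 1 / 4 := by
    have : (1 / 4 + ε) * k ≤ (1 / 2) * k := by
      have : 2 * (j : ℝ) ≤ k := by exact_mod_cast hj2
      linarith
    have := le_of_mul_le_mul_right this hkpos
    linarith
  have hcoef : (2 + δ) * (k : ℝ) ≤ 8 * ((1 - 6 * δ) * j) := by
    have h1 : 8 * ((1 - 6 * δ) * ((1 / 4 + ε) * k)) ≤ 8 * ((1 - 6 * δ) * j) := by
      have : 0 ≤ 1 - 6 * δ := by linarith
      gcongr
    have h2 : (2 + δ) * (k : ℝ) ≤ 8 * ((1 - 6 * δ) * ((1 / 4 + ε) * k)) := by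
      have : (2 + δ) ≤ 8 * ((1 - 6 * δ) * (1 / 4 + ε)) := by nlinarith
      nlinarith
    linarith
  set Z := (b : ℝ) ^ (K / 2) * (b : ℝ) ^ j with hZ
  have hZ0 : 0 < Z := by positivity
  have hfinal : (((Ico (b ^ (k - 1)) (b ^ k)).filter (fun n => ∀ i, i < k → n / b ^ i % b = n / b ^ (k - 1 - i) % b)).card : ℝ) ≤
      8 * G.card := by
    set Pc := (((Ico (b ^ (k - 1)) (b ^ k)).filter (fun n => ∀ i, i < k → n / b ^ i % b = n / b ^ (k - 1 - i) % b)).card : ℝ)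
    have hcj : 0 < (1 - 6 * δ) * (j : ℝ) := mul_pos (by linarith) hjpos
    have s1 : (1 - 6 * δ) * j * (Pc * Z) ≤ (2 + δ) * k * (G.card * Z) :=
      (mul_le_mul_of_nonneg_left hpalc hcj.le).trans hGQ2
    have s2 : (2 + δ) * k * (G.card * Z) ≤ 8 * ((1 - 6 * δ) * j) * (G.card * Z) := by
      exact mul_le_mul_of_nonneg_right hcoef (mul_nonneg (Nat.cast_nonneg _) hZ0.le)
    have s3 : ((1 - 6 * δ) * j * Z) * Pc ≤ ((1 - 6 * δ) * j * Z) * (8 * G.card) := by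
      calc _ = (1 - 6 * δ) * j * (Pc * Z) := by ring
        _ ≤ _ := s1.trans s2
        _ = _ := by ring
    exact le_of_mul_le_mul_left s3 (mul_pos hcj hZ0)
  exact_mod_cast hfinal

end Pool.Agent.K3h35.LB
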